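import Pool.Agent.Lib.MP_47914d_nt.Hk.All

/-!
H+ : the modular Schanuel conjecture near the Hecke orbit of an arbitrary point (MP_47914d_nt):
definitions and module specifications.
-/

set_option autoImplicit false

open Complex Filter Topology Polynomial Finset

namespace Pool.Agent.Lib.MP_47914d_nt.Hp

/-- `w` is a quadratic irrational (a CM point, for `w` in the upper half plane). -/
def CM (w : ℂ) : Prop :=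
  ∃ a b c : ℤ, (a ≠ 0 ∨ b ≠ 0 ∨ c ≠ 0) ∧ (a : ℂ) * w ^ 2 + (b : ℂ) * w + (c : ℂ) = 0

/-- `P` has total degree at most `D`, and the sum of the absolute values of its coefficients is at
most `exp D`. -/
def Sz {σ : Type} (P : MvPolynomial σ ℤ) (D : ℕ) : Prop :=
  P.totalDegree ≤ D ∧ (L3.cSum P : ℝ) ≤ Real.exp D

/-- The value `f (t, j(t))`. -/
noncomputable def vj (f : MvPolynomial (Fin 2) ℤ) (t : ℂ) : ℂ := MvPolynomial.aeval ![t, Jc t] f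

/-- The inverse Cayley transform: the unit disc onto the upper half plane, `0 ↦ a`. -/
noncomputable def ca (a w : ℂ) : ℂ := (a - (starRingEnd ℂ) a * w) / (1 - w)

/-- LOW: some Taylor coefficient of order at most `D ^ c` of `w ↦ f (ca a w, j(ca a w))` at `0` is
not very small. -/
def SpecLow : Prop :=
  ∀ a : ℂ, 0 < a.im → ∃ c : ℕ, ∀ D : ℕ, 2 ≤ D → ∀ f : MvPolynomial (Fin 2) ℤ, f ≠ 0 → Sz f D →
    (∀ w : ℂ, ‖w‖ ≤ 1 / 2 → ‖vj f (ca a w)‖ ≤ Real.exp ((D : ℝ) ^ c)) ∧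
    ∃ k : ℕ, k ≤ D ^ c ∧ Real.exp (-(D : ℝ) ^ c) ≤
      ‖iteratedDeriv k (fun w => vj f (ca a w)) 0 / (k.factorial : ℂ)‖

/-- ZER: a holomorphic function without zeros on a disc, one of whose Taylor coefficients is not
small, is not small at the centre (Cauchy and Harnack). -/
def SpecZer : Prop :=
  ∀ (a : ℂ) (s M η : ℝ) (k : ℕ) (F : ℂ → ℂ), 0 < s → 0 < M → 0 < η →
    DifferentiableOn ℂ F (Metric.ball a s) → (∀ z ∈ Metric.ball a s, ‖F z‖ ≤ M) →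
    (∀ z ∈ Metric.ball a s, F z ≠ 0) → η ≤ ‖iteratedDeriv k F a / (k.factorial : ℂ)‖ →
    M * (η * (s / 2) ^ k / M) ^ 3 ≤ ‖F a‖

/-- ZJ (from LOW and ZER): a polynomial in `t, j(t)` that is very small at `a` has a zero very close
to `a`. -/
def SpecZj : Prop :=
  ∀ a : ℂ, 0 < a.im → ∀ A : ℕ, ∃ B : ℕ, ∀ D : ℕ, 2 ≤ D → ∀ f : MvPolynomial (Fin 2) ℤ, f ≠ 0 →
    Sz f D → ‖vj f a‖ ≤ Real.exp (-(D : ℝ) ^ B) →
    ∃ b : ℂ, 0 < b.im ∧ vj f b = 0 ∧ ‖b - a‖ ≤ Real.exp (-(D : ℝ) ^ A)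

/-- ENG: coefficients of characteristic polynomials. -/
def SpecEng : Prop :=
  ∃ c : ℕ, ∀ (σ : Type) (D n : ℕ) (M : Matrix (Fin n) (Fin n) (MvPolynomial σ ℤ)), 2 ≤ D → n ≤ D →
    (∀ i j, Sz (M i j) D) → ∀ i, Sz (M.charpoly.coeff i) (D ^ c)

/-- RES: a point on the curve `f = 0` at which another polynomial is very small but not zero is
very close to an algebraic point. -/
def SpecRes : Prop :=
  ∃ c : ℕ, ∀ A : ℕ, ∃ B : ℕ, ∀ D : ℕ, 2 ≤ D → ∀ x y : ℂ, ‖x‖ ≤ D → ‖y‖ ≤ D →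
    ∀ f R : MvPolynomial (Fin 2) ℤ, f ≠ 0 → Sz f D → Sz R D →
    MvPolynomial.aeval ![x, y] f = 0 → MvPolynomial.aeval ![x, y] R ≠ 0 →
    ‖MvPolynomial.aeval ![x, y] R‖ ≤ Real.exp (-(D : ℝ) ^ B) →
    ∃ ξ η : ℂ, Sn.AlgB ξ (D ^ c) ∧ Sn.AlgB η (D ^ c) ∧
      ‖x - ξ‖ ≤ Real.exp (-(D : ℝ) ^ A) ∧ ‖y - η‖ ≤ Real.exp (-(D : ℝ) ^ A)

/-- `ξ` is a zero of a polynomial of degree at most `D` whose coefficients are the values at `x` of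
integral polynomials of size at most `D`, and are not all zero. -/
def AlgX (x : Fin 2 → ℂ) (ξ : ℂ) (D : ℕ) : Prop :=
  ∃ p : ℕ → MvPolynomial (Fin 2) ℤ, (∀ i, Sz (p i) D) ∧
    (∃ i ≤ D, MvPolynomial.aeval x (p i) ≠ 0) ∧
    ∑ i ∈ range (D + 1), MvPolynomial.aeval x (p i) * ξ ^ i = 0

/-- NRM: Liouville inequality over `ℚ(x)` for a point `x` with a measure. -/
def SpecNrm : Prop :=
  ∀ N : ℕ, ∃ c : ℕ, ∀ H : ℕ, 2 ≤ H → ∀ x : Fin 2 → ℂ, (∀ i, ‖x i‖ ≤ H) →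
    ∀ ξ : Fin N → ℂ, (∀ i, AlgX x (ξ i) H) → ∀ P : MvPolynomial (Fin N) ℤ, Sz P H →
    ∀ δ : ℝ, 0 < δ → δ ≤ 1 →
    (∀ R : MvPolynomial (Fin 2) ℤ, Sz R (H ^ c) →
      MvPolynomial.aeval x R = 0 ∨ δ ≤ ‖MvPolynomial.aeval x R‖) →
    MvPolynomial.aeval ξ P = 0 ∨ δ * Real.exp (-(H : ℝ) ^ c) ≤ ‖MvPolynomial.aeval ξ P‖

/-- PTS: special points of `b` and their Klein invariants are algebraic over `ℚ(b, j(b))`, of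
bounded size. -/
def SpecPts : Prop :=
  ∃ c : ℕ, ∀ H : ℕ, 2 ≤ H → ∀ b κ : ℂ, 0 < b.im → 0 < κ.im → Hk.SpecialPt b κ H →
    AlgX ![b, Jc b] κ (H ^ c) ∧ AlgX ![b, Jc b] (Jc κ) (H ^ c)

/-- `b` is a sequence very close to `a` along which the points `(b, j(b))` have a measure. -/
structure KeySeq (a : ℂ) (Hs : ℕ → ℕ) (U : Ultrafilter ℕ) (b : ℕ → ℂ) : Prop where
  im : ∀ v, 0 < (b v).im
  near : ∀ A : ℕ, ∀ᶠ v in (U : Filter ℕ), ‖b v - a‖ < Real.exp (-(Hs v : ℝ) ^ A)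
  meas : ∀ A : ℕ, ∃ B : ℕ, ∀ᶠ v in (U : Filter ℕ), ∀ R : MvPolynomial (Fin 2) ℤ,
    Sz R (Hs v ^ A) → vj R (b v) = 0 ∨ Real.exp (-(Hs v : ℝ) ^ B) ≤ ‖vj R (b v)‖

/-- KEY: existence of such a sequence. -/
def SpecKey : Prop :=
  ∀ (a : ℂ) (Hs : ℕ → ℕ) (U : Ultrafilter ℕ), 0 < a.im → ¬ CM a →
    Tendsto Hs (U : Filter ℕ) atTop → ∃ b : ℕ → ℂ, KeySeq a Hs U b

/-- The point `(a, j(a), z, j(z))`. -/
noncomputable def pt {n : ℕ} (a : ℂ) (z : Fin n → ℂ) : Fin 2 ⊕ (Fin n ⊕ Fin n) → ℂ :=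
  Sum.elim ![a, Jc a] (ptf z)

/-- PER: persistence of algebraic relations. -/
def SpecPer : Prop :=
  ∀ (n : ℕ) (a : ℂ) (z : Fin n → ℂ) (Hs : ℕ → ℕ) (U : Ultrafilter ℕ) (b : ℕ → ℂ)
    (κ : ℕ → Fin n → ℂ), 0 < a.im → (∀ i, 0 < (z i).im) → Tendsto Hs (U : Filter ℕ) atTop →
    KeySeq a Hs U b → (∀ v i, Hk.SpecialPt a (κ v i) (Hs v)) →
    (∀ A : ℕ, ∀ᶠ v in (U : Filter ℕ), ∀ i, ‖κ v i - z i‖ < Real.exp (-(Hs v : ℝ) ^ A)) →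
    ∃ κ' : ℕ → Fin n → ℂ,
      (∀ᶠ v in (U : Filter ℕ), ∀ i, 0 < (κ' v i).im ∧ Hk.SpecialPt (b v) (κ' v i) (Hs v)) ∧
      (∀ i, Tendsto (fun v => κ' v i) (U : Filter ℕ) (𝓝 (z i))) ∧
      ∀ P : MvPolynomial (Fin 2 ⊕ (Fin n ⊕ Fin n)) ℤ, MvPolynomial.aeval (pt a z) P = 0 →
        ∀ᶠ v in (U : Filter ℕ), MvPolynomial.aeval (pt (b v) (κ' v)) P = 0

/-- FIN: Ax–Schanuel. -/
def SpecFin : Prop :=
  ∀ (n : ℕ) (a : ℂ) (z : Fin n → ℂ) (Hs : ℕ → ℕ) (U : Ultrafilter ℕ) (b : ℕ → ℂ)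
    (κ : ℕ → Fin n → ℂ), 0 < n → 0 < a.im → (∀ i, 0 < (z i).im) → ¬ CM a → (∀ i, ¬ CM (z i)) →
    (∀ i, ¬ ∃ a' b' c d : ℚ, 0 < a' * d - b' * c ∧
      z i * ((c : ℂ) * a + (d : ℂ)) = (a' : ℂ) * a + (b' : ℂ)) →
    (∀ i k, i ≠ k → ¬ ∃ a' b' c d : ℚ, 0 < a' * d - b' * c ∧
      z k * ((c : ℂ) * z i + (d : ℂ)) = (a' : ℂ) * z i + (b' : ℂ)) →
    Tendsto Hs (U : Filter ℕ) atTop → Tendsto b (U : Filter ℕ) (𝓝 a) →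
    (∀ i, Tendsto (fun v => κ v i) (U : Filter ℕ) (𝓝 (z i))) →
    (∀ᶠ v in (U : Filter ℕ), 0 < (b v).im ∧
      ∀ i, 0 < (κ v i).im ∧ Hk.SpecialPt (b v) (κ v i) (Hs v)) →
    (∀ P : MvPolynomial (Fin 2 ⊕ (Fin n ⊕ Fin n)) ℤ, MvPolynomial.aeval (pt a z) P = 0 →
      ∀ᶠ v in (U : Filter ℕ), MvPolynomial.aeval (pt (b v) (κ v)) P = 0) →
    ∃ w : Fin (n + 2) → Fin 2 ⊕ (Fin n ⊕ Fin n),
      AlgebraicIndependent ℚ (fun m => pt a z (w m))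

/-- H+ : the main theorem. -/
def SpecHp : Prop :=
  ∀ (n : ℕ) (a : ℂ) (z : Fin n → ℂ), 0 < n → 0 < a.im → (∀ i, 0 < (z i).im) →
    ¬ CM a → (∀ i, ¬ CM (z i)) →
    (∀ i, ¬ ∃ a' b' c d : ℚ, 0 < a' * d - b' * c ∧
      z i * ((c : ℂ) * a + (d : ℂ)) = (a' : ℂ) * a + (b' : ℂ)) →
    (∀ i k, i ≠ k → ¬ ∃ a' b' c d : ℚ, 0 < a' * d - b' * c ∧
      z k * ((c : ℂ) * z i + (d : ℂ)) = (a' : ℂ) * z i + (b' : ℂ)) →
    (∀ A H₀ : ℕ, ∃ H : ℕ, H₀ ≤ H ∧ ∃ κ : Fin n → ℂ, ∀ i, Hk.SpecialPt a (κ i) H ∧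
      ‖κ i - z i‖ < Real.exp (-(H : ℝ) ^ A)) →
    ∃ w : Fin (n + 2) → Fin 2 ⊕ (Fin n ⊕ Fin n),
      AlgebraicIndependent ℚ (fun m => pt a z (w m))

end Pool.Agent.Lib.MP_47914d_nt.Hp
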