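import Mathlib
import Pool.Agent.Lib.MP_47914d_nt.Hk.ModP
import Pool.Agent.Lib.MP_47914d_nt.Hp.Spec

section
/-!
# Taylor coefficients of bounded holomorphic functions
-/
namespace Pool.Agent.Lib.MP_47914d_nt.Hp

open Metric

/-- Taylor expansion with a bound for the tail. -/
theorem taylor_bound {G : ℂ → ℂ} {a : ℂ} {R R' M θ : ℝ} (hR' : 0 < R') (hRR : R' < R)
    (hG : DifferentiableOn ℂ G (ball a R)) (hM : ∀ z ∈ sphere a R', ‖G z‖ ≤ M)
    (hθ0 : 0 ≤ θ) (hθ : θ < 1) {s : ℂ} (hs : dist s a ≤ θ * R') (k : ℕ) :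
    ‖G s‖ ≤ ∑ t ∈ Finset.range k, ‖iteratedDeriv t G a / (t.factorial : ℂ)‖ * (θ * R') ^ t
      + M * θ ^ k / (1 - θ) := by
  have hsball : s ∈ ball a R := by
    rw [mem_ball]
    calc dist s a ≤ θ * R' := hs
      _ ≤ 1 * R' := mul_le_mul_of_nonneg_right hθ.le hR'.le
      _ < R := by linarith
  have h := Complex.hasSum_taylorSeries_on_ball hG hsball
  have hd : DiffContOnCl ℂ G (ball a R') := by
    refine DifferentiableOn.diffContOnCl (hG.mono ?_)
    exact closure_ball_subset_closedBall.trans (closedBall_subset_ball hRR)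
  have hC : ∀ t : ℕ, ‖iteratedDeriv t G a‖ ≤ t.factorial * M / R' ^ t := fun t =>
    Complex.norm_iteratedDeriv_le_of_forall_mem_sphere_norm_le t hR' hd hM
  have hsn : ‖s - a‖ ≤ θ * R' := by rwa [← dist_eq_norm]
  have hterm : ∀ t : ℕ, ‖((t.factorial : ℂ)⁻¹ • (s - a) ^ t • iteratedDeriv t G a)‖ ≤
      ‖iteratedDeriv t G a / (t.factorial : ℂ)‖ * (θ * R') ^ t := by
    intro t
    rw [smul_eq_mul, smul_eq_mul, norm_mul, norm_mul, norm_div, norm_inv, norm_pow]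
    have h1 : ‖s - a‖ ^ t ≤ (θ * R') ^ t := pow_le_pow_left₀ (norm_nonneg _) hsn t
    calc ‖(t.factorial : ℂ)‖⁻¹ * (‖s - a‖ ^ t * ‖iteratedDeriv t G a‖) =
        (‖iteratedDeriv t G a‖ / ‖(t.factorial : ℂ)‖) * ‖s - a‖ ^ t := by ring
      _ ≤ _ := mul_le_mul_of_nonneg_left h1 (by positivity)
  have hterm2 : ∀ t : ℕ, ‖((t.factorial : ℂ)⁻¹ • (s - a) ^ t • iteratedDeriv t G a)‖ ≤
      M * θ ^ t := by
    intro t
    refine (hterm t).trans ?_
    rw [norm_div, Complex.norm_natCast, mul_pow]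
    have hf : (0 : ℝ) < t.factorial := by exact_mod_cast t.factorial_pos
    calc ‖iteratedDeriv t G a‖ / (t.factorial : ℝ) * (θ ^ t * R' ^ t) ≤
        (t.factorial * M / R' ^ t) / (t.factorial : ℝ) * (θ ^ t * R' ^ t) := by
          gcongr
          exact hC t
      _ = M * θ ^ t := by
        have : R' ^ t ≠ 0 := (pow_pos hR' t).ne'
        field_simp
  have h' := (hasSum_nat_add_iff' k).mpr h
  have hgeo : HasSum (fun n : ℕ => M * θ ^ (n + k)) (M * θ ^ k / (1 - θ)) := by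
    have h1 := (hasSum_geometric_of_lt_one hθ0 hθ).mul_left (M * θ ^ k)
    rw [← div_eq_mul_inv] at h1
    have h2 : (fun n : ℕ => M * θ ^ (n + k)) = fun n : ℕ => M * θ ^ k * θ ^ n := by
      funext n
      ring
    rw [h2]
    exact h1
  have h2 := h'.norm_le_of_bounded hgeo (fun n => hterm2 (n + k))
  have h3 : ‖G s‖ ≤ ‖∑ t ∈ Finset.range k,
      ((t.factorial : ℂ)⁻¹ • (s - a) ^ t • iteratedDeriv t G a)‖ + M * θ ^ k / (1 - θ) := by
    have h4 := norm_add_le (∑ t ∈ Finset.range k,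
      ((t.factorial : ℂ)⁻¹ • (s - a) ^ t • iteratedDeriv t G a)) (G s - ∑ t ∈ Finset.range k,
      ((t.factorial : ℂ)⁻¹ • (s - a) ^ t • iteratedDeriv t G a))
    rw [add_sub_cancel] at h4
    linarith
  refine h3.trans ?_
  gcongr
  exact norm_sum_le_of_le _ fun t _ => hterm t

/-- A value which is not small gives a Taylor coefficient which is not small. -/
theorem exists_coeff {G : ℂ → ℂ} {a : ℂ} {R R' M θ η : ℝ} (hR' : 0 < R') (hRR : R' < R)
    (hG : DifferentiableOn ℂ G (ball a R)) (hM : ∀ z ∈ sphere a R', ‖G z‖ ≤ M)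
    (hθ0 : 0 ≤ θ) (hθ : θ < 1) {s : ℂ} (hs : dist s a ≤ θ * R') {k : ℕ} (hη : 0 < η)
    (hval : η ≤ ‖G s‖) (htail : M * θ ^ k / (1 - θ) ≤ η / 2) :
    ∃ t < k, η / (2 * k) ≤ ‖iteratedDeriv t G a / (t.factorial : ℂ)‖ * (θ * R') ^ t := by
  by_contra hcon
  push Not at hcon
  have h1 := taylor_bound hR' hRR hG hM hθ0 hθ hs k
  rcases Nat.eq_zero_or_pos k with hk | hk
  · subst hk
    simp only [Finset.range_zero, Finset.sum_empty, zero_add] at h1
    linarith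
  have h2 : ∑ t ∈ Finset.range k, ‖iteratedDeriv t G a / (t.factorial : ℂ)‖ * (θ * R') ^ t <
      ∑ t ∈ Finset.range k, η / (2 * k) := by
    refine Finset.sum_lt_sum_of_nonempty (by simpa using hk.ne') fun t ht => ?_
    exact hcon t (Finset.mem_range.1 ht)
  rw [Finset.sum_const, Finset.card_range, nsmul_eq_mul] at h2
  have hk' : (0 : ℝ) < k := by exact_mod_cast hk
  have h3 : (k : ℝ) * (η / (2 * k)) = η / 2 := by field_simp
  rw [h3] at h2
  linarith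

/-- A Taylor coefficient which is not small gives a value which is not small. -/
theorem exists_value {G : ℂ → ℂ} {a : ℂ} {R ρ η : ℝ} (hρ : 0 < ρ) (hρR : ρ < R)
    (hG : DifferentiableOn ℂ G (ball a R)) {t : ℕ} (hη : 0 < η)
    (ht : η ≤ ‖iteratedDeriv t G a / (t.factorial : ℂ)‖) :
    ∃ z ∈ sphere a ρ, η * ρ ^ t / 2 ≤ ‖G z‖ := by
  by_contra hcon
  push Not at hcon
  have hd : DiffContOnCl ℂ G (ball a ρ) := by
    refine DifferentiableOn.diffContOnCl (hG.mono ?_)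
    exact closure_ball_subset_closedBall.trans (closedBall_subset_ball hρR)
  have h1 := Complex.norm_iteratedDeriv_le_of_forall_mem_sphere_norm_le t hρ hd
    (fun z hz => (hcon z hz).le)
  rw [norm_div, Complex.norm_natCast] at ht
  have hf : (0 : ℝ) < t.factorial := by exact_mod_cast t.factorial_pos
  rw [le_div_iff₀ hf] at ht
  have h2 : (t.factorial : ℝ) * (η * ρ ^ t / 2) / ρ ^ t = t.factorial * η / 2 := by
    have : ρ ^ t ≠ 0 := (pow_pos hρ t).ne'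
    field_simp
  rw [h2] at h1
  nlinarith [mul_pos hf hη]

end Pool.Agent.Lib.MP_47914d_nt.Hp
end

section
/-!
# Integral polynomials in `w` and `j(w)`: bounds and a large value at a point of the imaginary axis
-/
set_option autoImplicit false

namespace Pool.Agent.Lib.MP_47914d_nt.Hp

open Metric Complex Finset

/-- The value at `(w, j(w))` of the polynomial with the coefficients `f i j`, `i, j ≤ D`. -/
noncomputable def FJ (D : ℕ) (f : ℕ → ℕ → ℤ) (w : ℂ) : ℂ :=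
  ∑ i ∈ range (D + 1), ∑ j ∈ range (D + 1), (f i j : ℂ) * w ^ i * Jc w ^ j

theorem norm_pow_le_exp {w : ℂ} {T : ℝ} (hT : 0 ≤ T) (hw : ‖w‖ ≤ Real.exp T) {i D : ℕ}
    (hi : i ≤ D) : ‖w ^ i‖ ≤ Real.exp (D * T) := by
  rw [norm_pow]
  calc ‖w‖ ^ i ≤ Real.exp T ^ i := pow_le_pow_left₀ (norm_nonneg _) hw i
    _ ≤ Real.exp T ^ D := pow_le_pow_right₀ (Real.one_le_exp hT) hi
    _ = Real.exp (D * T) := by rw [← Real.exp_nat_mul]

theorem FJ_upper {D : ℕ} {f : ℕ → ℕ → ℤ} {w : ℂ} {T : ℝ}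
    (hf : ∀ i j, |(f i j : ℝ)| ≤ Real.exp D) (hT : 0 ≤ T) (hw : ‖w‖ ≤ Real.exp T)
    (hJ : ‖Jc w‖ ≤ Real.exp T) : ‖FJ D f w‖ ≤ Real.exp (3 * D + 2 * (D * T)) := by
  have h1 : ∀ i ∈ range (D + 1), ‖∑ j ∈ range (D + 1), (f i j : ℂ) * w ^ i * Jc w ^ j‖ ≤
      (D + 1 : ℝ) * Real.exp (D + 2 * (D * T)) := by
    intro i hi
    have h2 : ∀ j ∈ range (D + 1), ‖(f i j : ℂ) * w ^ i * Jc w ^ j‖ ≤
        Real.exp (D + 2 * (D * T)) := by
      intro j hj
      rw [norm_mul, norm_mul]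
      have e1 : ‖(f i j : ℂ)‖ ≤ Real.exp D := by
        rw [Complex.norm_intCast]
        exact hf i j
      have e2 := norm_pow_le_exp hT hw (Nat.lt_succ_iff.1 (mem_range.1 hi))
      have e3 := norm_pow_le_exp hT hJ (Nat.lt_succ_iff.1 (mem_range.1 hj))
      calc ‖(f i j : ℂ)‖ * ‖w ^ i‖ * ‖Jc w ^ j‖ ≤
          Real.exp D * Real.exp (D * T) * Real.exp (D * T) := by gcongr
        _ = Real.exp (D + 2 * (D * T)) := by
          rw [← Real.exp_add, ← Real.exp_add]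
          ring_nf
    refine (norm_sum_le_of_le _ h2).trans (le_of_eq ?_)
    rw [sum_const, card_range, nsmul_eq_mul]
    push_cast
    ring
  refine (norm_sum_le_of_le _ h1).trans ?_
  rw [sum_const, card_range, nsmul_eq_mul]
  push_cast
  have h3 : (D + 1 : ℝ) ≤ Real.exp D := Real.add_one_le_exp _
  calc (D + 1 : ℝ) * ((D + 1 : ℝ) * Real.exp (D + 2 * (D * T))) ≤
      Real.exp D * (Real.exp D * Real.exp (D + 2 * (D * T))) := by gcongr
    _ = Real.exp (3 * D + 2 * (D * T)) := by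
      rw [← Real.exp_add, ← Real.exp_add]
      ring_nf

/-- An integral polynomial does not take a small nonzero value at a Gaussian integer. -/
theorem one_le_norm_gauss (D Y : ℕ) (g : ℕ → ℤ)
    (h : ∑ i ∈ range (D + 1), (g i : ℂ) * ((Y : ℂ) * I) ^ i ≠ 0) :
    1 ≤ ‖∑ i ∈ range (D + 1), (g i : ℂ) * ((Y : ℂ) * I) ^ i‖ := by
  let x : GaussianInt := ∑ i ∈ range (D + 1), (g i : GaussianInt) * (⟨0, Y⟩ : GaussianInt) ^ i
  have hx : GaussianInt.toComplex x = ∑ i ∈ range (D + 1), (g i : ℂ) * ((Y : ℂ) * I) ^ i := by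
    simp only [x, map_sum, map_mul, map_pow, map_intCast]
    refine sum_congr rfl fun i _ => ?_
    congr 2
    rw [GaussianInt.toComplex_def]
    simp
  rw [← hx] at h ⊢
  have hx0 : x ≠ 0 := by
    rintro h0
    rw [h0, map_zero] at h
    exact h rfl
  have h1 : 0 < x.norm := GaussianInt.norm_pos.2 hx0
  have h2 : (1 : ℝ) ≤ (x.norm : ℝ) := by exact_mod_cast h1
  have h3 := GaussianInt.intCast_real_norm x
  rw [h3, Complex.normSq_eq_norm_sq] at h2
  by_contra hlt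
  push Not at hlt
  nlinarith [norm_nonneg (GaussianInt.toComplex x)]

/-- A numerical inequality. -/
theorem num_ineq {D Y K : ℕ} (hD : 1 ≤ D) (hY : (K + 16) * D ^ 2 ≤ Y) :
    (K : ℝ) + 1 + D * ((D + 1) * Real.exp D * (Y : ℝ) ^ D) ≤ Real.exp (2 * Real.pi * Y) := by
  have hD' : (1 : ℝ) ≤ D := by exact_mod_cast hD
  have hY' : ((K : ℝ) + 16) * (D : ℝ) ^ 2 ≤ Y := by exact_mod_cast hY
  have hK0 : (0 : ℝ) ≤ K := Nat.cast_nonneg K
  have hY1 : (16 : ℝ) * D ^ 2 ≤ Y := by nlinarith [sq_nonneg (D : ℝ)]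
  have hDD : (1 : ℝ) ≤ (D : ℝ) ^ 2 := one_le_pow₀ hD'
  have hYK : (K : ℝ) ≤ Y := by nlinarith [mul_nonneg hK0 (sub_nonneg.2 hDD)]
  have hYD : (16 : ℝ) * D ≤ Y := by nlinarith
  have hY0 : (0 : ℝ) ≤ Y := Nat.cast_nonneg Y
  set q := Real.sqrt Y with hq
  have hq0 : 0 ≤ q := Real.sqrt_nonneg _
  have hqq : q * q = Y := Real.mul_self_sqrt hY0
  have h4 : 4 * (D : ℝ) ≤ q := by
    rw [hq]
    apply Real.le_sqrt_of_sq_le
    nlinarith
  have h5 : (Y : ℝ) ^ D ≤ Real.exp (Y / 2) := by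
    have e1 : q ≤ Real.exp q := by
      have := Real.add_one_le_exp q
      linarith
    calc (Y : ℝ) ^ D = (q * q) ^ D := by rw [hqq]
      _ ≤ (Real.exp q * Real.exp q) ^ D := by gcongr
      _ = Real.exp (D * (q + q)) := by rw [← Real.exp_add, ← Real.exp_nat_mul]
      _ ≤ Real.exp (Y / 2) := by
        apply Real.exp_le_exp.2
        nlinarith
  have h6 : (D : ℝ) ≤ Real.exp D := by
    have := Real.add_one_le_exp (D : ℝ)
    linarith
  have h7 : (D : ℝ) + 1 ≤ Real.exp D := Real.add_one_le_exp _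
  have h8 : D * ((D + 1) * Real.exp D * (Y : ℝ) ^ D) ≤ Real.exp Y := by
    calc D * ((D + 1) * Real.exp D * (Y : ℝ) ^ D) ≤
        Real.exp D * (Real.exp D * Real.exp D * Real.exp (Y / 2)) := by gcongr
      _ = Real.exp (3 * D + Y / 2) := by
        rw [← Real.exp_add, ← Real.exp_add, ← Real.exp_add]
        ring_nf
      _ ≤ Real.exp Y := by
        apply Real.exp_le_exp.2
        linarith
  have h9 : (K : ℝ) + 1 ≤ Real.exp Y := by
    have := Real.add_one_le_exp (Y : ℝ)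
    linarith
  have h10 : Real.exp Y + Real.exp Y ≤ Real.exp (2 * Real.pi * Y) := by
    have e1 : (1 : ℝ) ≤ Y := by nlinarith
    have e2 : (2 : ℝ) ≤ Real.exp Y := by
      have := Real.add_one_le_exp (Y : ℝ)
      linarith
    have e3 : Real.exp Y * Real.exp Y ≤ Real.exp (2 * Real.pi * Y) := by
      rw [← Real.exp_add]
      apply Real.exp_le_exp.2
      nlinarith [Real.pi_gt_three]
    nlinarith [Real.exp_pos (Y : ℝ)]
  linarith

/-- **A large value.** -/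
theorem exists_large {K : ℕ}
    (hup : ∀ w : ℂ, 1 ≤ w.im → ‖Jc w - cexp (-(2 * Real.pi * Complex.I * w))‖ ≤ K)
    {D : ℕ} (hD : 1 ≤ D) {f : ℕ → ℕ → ℤ} (hf0 : ∃ i j, i ≤ D ∧ j ≤ D ∧ f i j ≠ 0)
    (hf : ∀ i j, |(f i j : ℝ)| ≤ Real.exp D) :
    ∃ Y : ℕ, (K + 16) * D ^ 2 ≤ Y ∧ Y ≤ (K + 16) * D ^ 2 + D ∧ 1 ≤ ‖FJ D f ((Y : ℂ) * I)‖ := by
  classical
  -- the top degree in the second variable
  obtain ⟨i₀, j₀, hi₀, hj₀, hij⟩ := hf0
  let Pr : ℕ → Prop := fun j => ∃ i ≤ D, f i j ≠ 0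
  set J₀ := Nat.findGreatest Pr D with hJ₀
  have hJspec : Pr J₀ := Nat.findGreatest_spec hj₀ ⟨i₀, hi₀, hij⟩
  have hJD : J₀ ≤ D := Nat.findGreatest_le D
  have hJmax : ∀ j, J₀ < j → j ≤ D → ∀ i ≤ D, f i j = 0 := by
    intro j h1 h2 i hi
    by_contra h3
    exact Nat.findGreatest_is_greatest h1 h2 ⟨i, hi, h3⟩
  obtain ⟨i₁, hi₁, hi₁0⟩ := hJspec
  -- the coefficient of the top degree
  let p : Polynomial ℂ := ∑ i ∈ range (D + 1), Polynomial.C (f i J₀ : ℂ) * Polynomial.X ^ i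
  have hpc : ∀ i ≤ D, p.coeff i = f i J₀ := by
    intro i hi
    simp only [p, Polynomial.finsetSum_coeff, Polynomial.coeff_C_mul_X_pow]
    rw [sum_eq_single i]
    · simp
    · intro b _ hb
      rw [if_neg (Ne.symm hb)]
    · intro h
      exact absurd (mem_range.2 (Nat.lt_succ_iff.2 hi)) h
  have hp0 : p ≠ 0 := by
    intro h
    have := hpc i₁ hi₁
    rw [h, Polynomial.coeff_zero] at this
    exact hi₁0 (by exact_mod_cast this.symm)
  have hpd : p.natDegree < D + 1 := by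
    refine Nat.lt_succ_iff.2 (Polynomial.natDegree_sum_le_of_forall_le _ _ fun i hi => ?_)
    refine (Polynomial.natDegree_C_mul_X_pow_le _ _).trans ?_
    exact Nat.lt_succ_iff.1 (mem_range.1 hi)
  obtain ⟨m, hm, hpm⟩ : ∃ m ∈ range (D + 1),
      p.eval ((((K + 16) * D ^ 2 + m : ℕ) : ℂ) * I) ≠ 0 := by
    by_contra hcon
    push Not at hcon
    apply hp0
    let s : Finset ℂ := (range (D + 1)).image fun m => (((K + 16) * D ^ 2 + m : ℕ) : ℂ) * I
    have hcard : s.card = D + 1 := by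
      rw [card_image_of_injective, card_range]
      intro m n hmn
      have h1 := mul_right_cancel₀ I_ne_zero hmn
      have h2 : (K + 16) * D ^ 2 + m = (K + 16) * D ^ 2 + n := by exact_mod_cast h1
      omega
    refine Polynomial.eq_zero_of_natDegree_lt_card_of_eval_eq_zero' p s ?_ (by rw [hcard]; exact hpd)
    intro x hx
    obtain ⟨m, hm, rfl⟩ := mem_image.1 hx
    exact hcon m hm
  set Y := (K + 16) * D ^ 2 + m with hY
  refine ⟨Y, by omega, by have := mem_range.1 hm; omega, ?_⟩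
  set w : ℂ := (Y : ℂ) * I with hw
  have hY1 : 1 ≤ Y := by
    have : 1 ≤ (K + 16) * D ^ 2 := Nat.one_le_iff_ne_zero.2 (by positivity)
    omega
  have hYr : (1 : ℝ) ≤ Y := by exact_mod_cast hY1
  have hwim : w.im = Y := by simp [hw]
  have hwn : ‖w‖ = Y := by simp [hw]
  have hnum := num_ineq (K := K) hD (by omega : (K + 16) * D ^ 2 ≤ Y)
  -- the value of the invariant
  have hJ1 := hup w (by rw [hwim]; exact hYr)
  have hJ2 : Real.exp (2 * Real.pi * Y) - K ≤ ‖Jc w‖ := by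
    have h1 := norm_sub_norm_le (cexp (-(2 * Real.pi * Complex.I * w))) (Jc w)
    rw [norm_sub_rev, CMB.norm_q, hwim] at h1
    linarith
  set X := ‖Jc w‖ with hX
  set Q : ℝ := (D + 1) * Real.exp D * (Y : ℝ) ^ D with hQ
  have hQ0 : 0 ≤ Q := by positivity
  have hXQ : 1 + D * Q ≤ X := by linarith
  have hDr : (0 : ℝ) ≤ D := Nat.cast_nonneg D
  have hX1 : 1 ≤ X := by nlinarith
  -- the coefficient polynomials
  let c : ℕ → ℂ := fun j => ∑ i ∈ range (D + 1), (f i j : ℂ) * w ^ i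
  have hc : ∀ j, ‖c j‖ ≤ Q := by
    intro j
    have h1 : ∀ i ∈ range (D + 1), ‖(f i j : ℂ) * w ^ i‖ ≤ Real.exp D * (Y : ℝ) ^ D := by
      intro i hi
      rw [norm_mul, norm_pow, hwn, Complex.norm_intCast]
      have h2 : (Y : ℝ) ^ i ≤ (Y : ℝ) ^ D :=
        pow_le_pow_right₀ hYr (Nat.lt_succ_iff.1 (mem_range.1 hi))
      have := hf i j
      gcongr
    refine (norm_sum_le_of_le _ h1).trans (le_of_eq ?_)
    rw [sum_const, card_range, nsmul_eq_mul, hQ]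
    push_cast
    ring
  have hctop : 1 ≤ ‖c J₀‖ := by
    refine one_le_norm_gauss D Y (fun i => f i J₀) ?_
    have h1 : p.eval w = ∑ i ∈ range (D + 1), (f i J₀ : ℂ) * w ^ i := by
      simp [p, Polynomial.eval_finsetSum]
    rw [← hw, ← h1]
    exact hpm
  have hcz : ∀ j, J₀ < j → j ≤ D → c j = 0 := by
    intro j h1 h2
    refine sum_eq_zero fun i hi => ?_
    rw [hJmax j h1 h2 i (Nat.lt_succ_iff.1 (mem_range.1 hi))]
    simp
  have hF : FJ D f w = ∑ j ∈ range (J₀ + 1), c j * Jc w ^ j := by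
    rw [FJ, sum_comm]
    have h1 : ∑ j ∈ range (D + 1), ∑ i ∈ range (D + 1), (f i j : ℂ) * w ^ i * Jc w ^ j =
        ∑ j ∈ range (D + 1), c j * Jc w ^ j := by
      refine sum_congr rfl fun j _ => ?_
      rw [sum_mul]
    rw [h1]
    symm
    refine sum_subset (by intro j; simp; omega) fun j hj hj' => ?_
    rw [hcz j (by simpa using hj') (Nat.lt_succ_iff.1 (mem_range.1 hj)), zero_mul]
  rw [hF, sum_range_succ]
  rcases Nat.eq_zero_or_pos J₀ with h0 | h0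
  · rw [h0] at hctop ⊢
    simpa using hctop
  · have h1 : ‖∑ j ∈ range J₀, c j * Jc w ^ j‖ ≤ J₀ * (Q * X ^ (J₀ - 1)) := by
      have h2 : ∀ j ∈ range J₀, ‖c j * Jc w ^ j‖ ≤ Q * X ^ (J₀ - 1) := by
        intro j hj
        rw [norm_mul, norm_pow]
        have h3 : X ^ j ≤ X ^ (J₀ - 1) := pow_le_pow_right₀ hX1 (by have := mem_range.1 hj; omega)
        have := hc j
        gcongr
      refine (norm_sum_le_of_le _ h2).trans (le_of_eq ?_)
      rw [sum_const, card_range, nsmul_eq_mul]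
    have h2 : ‖c J₀ * Jc w ^ J₀‖ - ‖∑ j ∈ range J₀, c j * Jc w ^ j‖ ≤
        ‖∑ j ∈ range J₀, c j * Jc w ^ j + c J₀ * Jc w ^ J₀‖ := by
      have := norm_sub_le (∑ j ∈ range J₀, c j * Jc w ^ j + c J₀ * Jc w ^ J₀)
        (∑ j ∈ range J₀, c j * Jc w ^ j)
      rw [add_sub_cancel_left] at this
      linarith
    have h3 : X ^ J₀ ≤ ‖c J₀ * Jc w ^ J₀‖ := by
      rw [norm_mul, norm_pow]
      have : 0 ≤ X ^ J₀ := by positivity
      nlinarith
    have h4 : X ^ J₀ = X ^ (J₀ - 1) * X := by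
      rw [← pow_succ]
      congr 1
      omega
    have h5 : 1 ≤ X ^ (J₀ - 1) := one_le_pow₀ hX1
    have h6 : (J₀ : ℝ) ≤ D := by exact_mod_cast hJD
    have h7 : (J₀ : ℝ) * Q ≤ D * Q := mul_le_mul_of_nonneg_right h6 hQ0
    have h8 : 1 ≤ X - J₀ * Q := by linarith
    have h9 : X ^ J₀ - J₀ * (Q * X ^ (J₀ - 1)) = X ^ (J₀ - 1) * (X - J₀ * Q) := by
      rw [h4]
      ring
    nlinarith

end Pool.Agent.Lib.MP_47914d_nt.Hp
end

section
/-!
# LOW: lower bound for a Taylor coefficient of a polynomial in `t` and `j(t)`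
-/
set_option autoImplicit false

namespace Pool.Agent.Lib.MP_47914d_nt.Hp

open Metric Complex Finset

theorem vj_eq (f : MvPolynomial (Fin 2) ℤ) {D : ℕ} (hD : f.totalDegree ≤ D) (t : ℂ) :
    vj f t = FJ D (fun i j => f.coeff (Hk.fin2 i j)) t := by
  rw [vj, FJ, Hk.aeval_fin2 f D hD]

theorem vj_differentiableAt (f : MvPolynomial (Fin 2) ℤ) {t : ℂ} (ht : 0 < t.im) :
    DifferentiableAt ℂ (vj f) t := by
  have hJ : DifferentiableAt ℂ Jc t :=
    Jc_holo.differentiableAt ((isOpen_lt continuous_const continuous_im).mem_nhds ht)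
  have h1 : vj f = fun t => ∑ i ∈ range (f.totalDegree + 1), ∑ j ∈ range (f.totalDegree + 1),
      ((f.coeff (Hk.fin2 i j) : ℤ) : ℂ) * t ^ i * Jc t ^ j := by
    funext t
    rw [vj_eq f le_rfl, FJ]
  rw [h1]
  refine DifferentiableAt.fun_sum fun i _ => DifferentiableAt.fun_sum fun j _ => ?_
  exact ((differentiableAt_const _).fun_mul (differentiableAt_id.fun_pow i)).fun_mul (hJ.fun_pow j)

/-! ### The Cayley transform -/

theorem one_sub_ne {w : ℂ} (hw : ‖w‖ < 1) : (1 : ℂ) - w ≠ 0 := by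
  intro h
  have : w = 1 := by linear_combination -h
  rw [this, norm_one] at hw
  exact lt_irrefl _ hw

theorem ca_im (a : ℂ) {w : ℂ} (hw : ‖w‖ < 1) :
    (ca a w).im = a.im * (1 - ‖w‖ ^ 2) / ‖1 - w‖ ^ 2 := by
  have h0 := one_sub_ne hw
  rw [ca, Complex.div_im, ← Complex.normSq_eq_norm_sq, ← Complex.normSq_eq_norm_sq]
  have h1 : normSq (1 - w) ≠ 0 := by
    intro h
    exact h0 (Complex.normSq_eq_zero.1 h)
  rw [← sub_div]
  congr 1
  simp only [Complex.sub_im, Complex.sub_re, Complex.mul_im, Complex.mul_re, Complex.conj_re,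
    Complex.conj_im, Complex.one_re, Complex.one_im, Complex.normSq_apply]
  ring

theorem ca_im_pos {a : ℂ} (ha : 0 < a.im) {w : ℂ} (hw : ‖w‖ < 1) : 0 < (ca a w).im := by
  rw [ca_im a hw]
  have h0 := norm_pos_iff.2 (one_sub_ne hw)
  have h1 : 0 < 1 - ‖w‖ ^ 2 := by
    have := norm_nonneg w
    nlinarith
  positivity

theorem ca_bounds {a : ℂ} (ha : 0 < a.im) {w : ℂ} {ε : ℝ} (hε : 0 < ε)
    (hw : ‖w‖ ≤ 1 - ε) : a.im * ε / 4 ≤ (ca a w).im ∧ ‖ca a w‖ ≤ 2 * ‖a‖ / ε := by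
  have hw1 : ‖w‖ < 1 := by linarith
  have hn := norm_nonneg w
  have h0 := norm_pos_iff.2 (one_sub_ne hw1)
  have h2 : ‖1 - w‖ ≤ 2 := by
    have := norm_sub_le (1 : ℂ) w
    rw [norm_one] at this
    linarith
  have h3 : ε ≤ ‖1 - w‖ := by
    have := norm_sub_norm_le (1 : ℂ) w
    rw [norm_one] at this
    linarith
  constructor
  · rw [ca_im a hw1, le_div_iff₀ (by positivity)]
    have h4 : ε ≤ 1 - ‖w‖ ^ 2 := by nlinarith
    have h5 : ‖1 - w‖ ^ 2 ≤ 4 := by nlinarith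
    calc a.im * ε / 4 * ‖1 - w‖ ^ 2 ≤ a.im * ε / 4 * 4 := by gcongr
      _ = a.im * ε := by ring
      _ ≤ a.im * (1 - ‖w‖ ^ 2) := mul_le_mul_of_nonneg_left h4 ha.le
  · rw [ca, norm_div]
    have h4 : ‖a - (starRingEnd ℂ) a * w‖ ≤ 2 * ‖a‖ := by
      refine (norm_sub_le _ _).trans ?_
      rw [norm_mul, RCLike.norm_conj]
      nlinarith [norm_nonneg a]
    exact div_le_div₀ (by positivity) h4 hε h3

theorem ca_differentiableAt (a : ℂ) {w : ℂ} (hw : ‖w‖ < 1) : DifferentiableAt ℂ (ca a) w := by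
  have h0 := one_sub_ne hw
  have h1 : DifferentiableAt ℂ (fun w : ℂ => a - (starRingEnd ℂ) a * w) w := by fun_prop
  have h2 : DifferentiableAt ℂ (fun w : ℂ => 1 - w) w := by fun_prop
  exact h1.fun_div h2 h0

theorem G_differentiableOn (f : MvPolynomial (Fin 2) ℤ) {a : ℂ} (ha : 0 < a.im) :
    DifferentiableOn ℂ (fun w => vj f (ca a w)) (ball 0 1) := by
  intro w hw
  rw [mem_ball_zero_iff] at hw
  exact ((vj_differentiableAt f (ca_im_pos ha hw)).comp w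
    (ca_differentiableAt a hw)).differentiableWithinAt

/-- The upper bound in the disc. -/
theorem G_upper {a : ℂ} (ha : 0 < a.im) : ∃ L : ℕ, 1 ≤ L ∧ ∀ D : ℕ,
    ∀ f : MvPolynomial (Fin 2) ℤ, Sz f D → ∀ ε : ℝ, 0 < ε → ε ≤ 1 → ∀ w : ℂ, ‖w‖ ≤ 1 - ε →
      ‖vj f (ca a w)‖ ≤ Real.exp (3 * D + 2 * (D * (L / ε))) := by
  obtain ⟨K, hK, hup, hlow⟩ := CMB.exists_K specJ
  obtain ⟨L, hL⟩ := exists_nat_ge ((7 + K) * (2 * ‖a‖ + 4 / a.im + 1))
  have hK0 : (0 : ℝ) ≤ K := Nat.cast_nonneg K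
  have hL1 : (1 : ℝ) ≤ L := by
    have h1 : 0 ≤ 4 / a.im := by positivity
    have h2 := norm_nonneg a
    nlinarith
  refine ⟨L, by exact_mod_cast hL1, fun D f hf ε hε hε1 w hw => ?_⟩
  obtain ⟨h1, h2⟩ := ca_bounds ha hε hw
  set R : ℝ := (2 * ‖a‖ + 4 / a.im + 1) / ε with hR
  have hna := norm_nonneg a
  have h4a : 0 < 4 / a.im := by positivity
  have hR1 : 1 ≤ R := by
    rw [hR, le_div_iff₀ hε]
    linarith
  have hR0 : 0 < R := by linarith
  have h3 : ‖ca a w‖ ≤ R := by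
    refine h2.trans ?_
    rw [hR]
    gcongr
    linarith
  have h4 : (ca a w).im ≤ R := (Complex.im_le_norm _).trans h3
  have h5 : 1 / R ≤ (ca a w).im := by
    refine le_trans ?_ h1
    rw [div_le_iff₀ hR0, hR]
    have h6 : a.im * ε / 4 * ((2 * ‖a‖ + 4 / a.im + 1) / ε) =
        1 + a.im * (2 * ‖a‖ + 1) / 4 := by
      field_simp
      ring
    rw [h6]
    have : 0 ≤ a.im * (2 * ‖a‖ + 1) / 4 := by positivity
    linarith
  have h6 := Hk.ModP.Jc_strip hup hlow hR1 h5 h4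
  set T : ℝ := L / ε with hT
  have hTR : 2 * Real.pi * R + K ≤ T := by
    have e1 : (7 + K) * R ≤ T := by
      rw [hR, hT, ← mul_div_assoc]
      gcongr
    have e2 : 2 * Real.pi ≤ 7 := by
      have := Real.pi_lt_d2
      linarith
    have e3 : (K : ℝ) ≤ K * R := by nlinarith
    have e4 : 2 * Real.pi * R ≤ 7 * R := mul_le_mul_of_nonneg_right e2 hR0.le
    linarith
  have h7 : ‖Jc (ca a w)‖ ≤ Real.exp T := by
    refine h6.trans ?_
    have e1 : Real.exp (2 * Real.pi * R) + K ≤ Real.exp (2 * Real.pi * R + K) := by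
      rw [Real.exp_add]
      have e2 : (K : ℝ) + 1 ≤ Real.exp K := Real.add_one_le_exp _
      have e3 : 1 ≤ Real.exp (2 * Real.pi * R) := Real.one_le_exp (by positivity)
      nlinarith
    exact e1.trans (Real.exp_le_exp.2 hTR)
  have h8 : ‖ca a w‖ ≤ Real.exp T := by
    have e1 : R ≤ T := by
      have : 0 ≤ 2 * Real.pi * R := by positivity
      have e2 : R ≤ 2 * Real.pi * R := by
        have := Real.pi_gt_three
        nlinarith
      linarith
    have e2 := Real.add_one_le_exp T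
    linarith
  rw [vj_eq f hf.1]
  refine FJ_upper (fun i j => ?_) (by positivity) h8 h7
  exact (Hk.abs_coeff_le_cSum f _).trans hf.2

/-- The preimage of a point of the imaginary axis. -/
theorem exists_preimage {a : ℂ} (ha : 0 < a.im) {Y : ℝ} (hY : 1 ≤ Y) :
    ∃ w : ℂ, ca a w = (Y : ℂ) * I ∧ ‖w‖ ≤ 1 - 2 * a.im / (Y * (1 + ‖a‖) ^ 2) := by
  set v : ℂ := (Y : ℂ) * I - (starRingEnd ℂ) a with hv
  set u : ℂ := (Y : ℂ) * I - a with hu
  have hvim : v.im = Y + a.im := by simp [hv]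
  have hv0 : v ≠ 0 := by
    intro h
    have := hvim
    rw [h] at this
    simp at this
    linarith
  have hnv : 0 < ‖v‖ := norm_pos_iff.2 hv0
  have hcv : a - (starRingEnd ℂ) a ≠ 0 := by
    intro h
    have h1 := congrArg Complex.im h
    simp at h1
    linarith
  have e0 : 1 - u / v = (a - (starRingEnd ℂ) a) / v := by
    rw [eq_div_iff hv0, sub_mul, div_mul_cancel₀ _ hv0]
    simp only [hv, hu]
    ring
  refine ⟨u / v, ?_, ?_⟩
  · rw [ca, e0]
    have e1 : a - (starRingEnd ℂ) a * (u / v) = (Y : ℂ) * I * (a - (starRingEnd ℂ) a) / v := by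
      rw [eq_div_iff hv0, sub_mul, mul_assoc, div_mul_cancel₀ _ hv0]
      simp only [hv, hu]
      ring
    rw [e1]
    field_simp
  · have h1 : ‖v‖ ^ 2 - ‖u‖ ^ 2 = 4 * Y * a.im := by
      rw [← Complex.normSq_eq_norm_sq, ← Complex.normSq_eq_norm_sq, Complex.normSq_apply,
        Complex.normSq_apply]
      simp [hv, hu]
      ring
    have h2 : ‖v‖ ≤ Y * (1 + ‖a‖) := by
      have e1 : ‖v‖ ≤ Y + ‖a‖ := by
        refine (norm_sub_le _ _).trans ?_
        rw [RCLike.norm_conj, norm_mul, Complex.norm_I, mul_one, Complex.norm_real,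
          Real.norm_eq_abs, abs_of_pos (by linarith)]
      nlinarith [norm_nonneg a]
    have hY0 : 0 < Y := by linarith
    have h3 : ‖u / v‖ ^ 2 = 1 - 4 * Y * a.im / ‖v‖ ^ 2 := by
      rw [norm_div, div_pow, eq_sub_iff_add_eq, ← add_div, div_eq_one_iff_eq (by positivity)]
      linarith
    set n := ‖u / v‖ with hn
    have hn0 : 0 ≤ n := norm_nonneg _
    have h4 : 4 * a.im / (Y * (1 + ‖a‖) ^ 2) ≤ 4 * Y * a.im / ‖v‖ ^ 2 := by
      rw [div_le_div_iff₀ (by positivity) (by positivity)]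
      have e1 : ‖v‖ ^ 2 ≤ (Y * (1 + ‖a‖)) ^ 2 := pow_le_pow_left₀ (norm_nonneg _) h2 2
      have e2 : 0 ≤ 4 * a.im := by positivity
      calc 4 * a.im * ‖v‖ ^ 2 ≤ 4 * a.im * (Y * (1 + ‖a‖)) ^ 2 := mul_le_mul_of_nonneg_left e1 e2
        _ = 4 * Y * a.im * (Y * (1 + ‖a‖) ^ 2) := by ring
    have h5 : 4 * a.im / (Y * (1 + ‖a‖) ^ 2) = 2 * (2 * a.im / (Y * (1 + ‖a‖) ^ 2)) := by ring
    have h6 : 0 < 2 * a.im / (Y * (1 + ‖a‖) ^ 2) := by positivity
    have h7 : n < 1 := by nlinarith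
    nlinarith

/-- Numerical bound for the number of coefficients. -/
theorem num_k {L P D δ k : ℝ} (hL : 1 ≤ L) (hP : 1 ≤ P) (hD : 1 ≤ D) (hδ : 0 < δ)
    (hδinv : 1 / δ ≤ P * D ^ 2)
    (hk : k ≤ (2 / δ) * (3 * D + 2 * (D * (L / (δ / 2))) + 2 / δ + 1) + 1) :
    2 * k ≤ 42 * L * P ^ 2 * D ^ 5 := by
  have hP0 : 0 < P := by linarith
  have hL0 : 0 < L := by linarith
  have hD0 : 0 < D := by linarith
  have e1 : 2 / δ ≤ 2 * (P * D ^ 2) := by
    have : 2 / δ = 2 * (1 / δ) := by ring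
    rw [this]
    linarith
  have e2 : L / (δ / 2) ≤ 2 * (L * (P * D ^ 2)) := by
    have : L / (δ / 2) = 2 * (L * (1 / δ)) := by field_simp
    rw [this]
    have := mul_le_mul_of_nonneg_left hδinv hL0.le
    linarith
  set X := L * P * D ^ 3 with hX
  have g1 : 1 ≤ L * P := by nlinarith
  have f2 : D ≤ D ^ 3 := by
    calc D = D ^ 1 := (pow_one _).symm
      _ ≤ D ^ 3 := pow_le_pow_right₀ hD (by norm_num)
  have f4 : 1 ≤ D ^ 3 := one_le_pow₀ hD
  have f5 : D ^ 3 ≤ X := le_mul_of_one_le_left (by positivity) g1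
  have f6 : P * D ^ 2 ≤ X := by
    have h1 : D ^ 2 ≤ D ^ 3 := pow_le_pow_right₀ hD (by norm_num)
    have h2 : P * D ^ 2 ≤ P * D ^ 3 := mul_le_mul_of_nonneg_left h1 hP0.le
    have h3 : P * D ^ 3 ≤ L * (P * D ^ 3) := le_mul_of_one_le_left (by positivity) hL
    have h4 : X = L * (P * D ^ 3) := by rw [hX]; ring
    linarith
  have f8 : D * (L / (δ / 2)) ≤ 2 * X := by
    have h1 := mul_le_mul_of_nonneg_left e2 hD0.le
    have h2 : D * (2 * (L * (P * D ^ 2))) = 2 * X := by rw [hX]; ring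
    linarith
  have e3 : 3 * D + 2 * (D * (L / (δ / 2))) + 2 / δ + 1 ≤ 10 * X := by linarith
  have e4 : (2 / δ) * (3 * D + 2 * (D * (L / (δ / 2))) + 2 / δ + 1) ≤
      (2 * (P * D ^ 2)) * (10 * X) :=
    mul_le_mul e1 e3 (by positivity) (by positivity)
  have e6 : (2 * (P * D ^ 2)) * (10 * X) = 20 * (L * P ^ 2 * D ^ 5) := by rw [hX]; ring
  have e5 : 1 ≤ L * P ^ 2 * D ^ 5 := by
    have h1 : 1 ≤ P ^ 2 := one_le_pow₀ hP
    have h2 : 1 ≤ D ^ 5 := one_le_pow₀ hD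
    have h3 : 1 ≤ L * P ^ 2 := by nlinarith
    nlinarith
  linarith

/-- The tail of the Taylor series. -/
theorem num_tail {E δ : ℝ} {k : ℕ} (hδ : 0 < δ) (hδ1 : δ ≤ 1) (hk : (2 / δ) * (E + 2 / δ + 1) ≤ k) :
    Real.exp E * (1 - δ / 2) ^ k / (1 - (1 - δ / 2)) ≤ 1 / 2 := by
  have e1 : (1 - δ / 2) ^ k ≤ Real.exp (-(δ / 2) * k) := by
    calc (1 - δ / 2) ^ k ≤ Real.exp (-(δ / 2)) ^ k := by
          refine pow_le_pow_left₀ (by linarith) ?_ k
          have := Real.add_one_le_exp (-(δ / 2))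
          linarith
      _ = Real.exp (-(δ / 2) * k) := by
        rw [← Real.exp_nat_mul]
        congr 1
        ring
  have e2 : 2 / δ ≤ Real.exp (2 / δ) := by
    have := Real.add_one_le_exp (2 / δ)
    linarith
  have f1 : Real.exp E * (1 - δ / 2) ^ k / (1 - (1 - δ / 2)) =
      Real.exp E * (1 - δ / 2) ^ k * (2 / δ) := by
    rw [sub_sub_cancel, div_eq_mul_inv, inv_div]
  have f2 : E + 2 / δ + 1 ≤ δ / 2 * k := by
    calc E + 2 / δ + 1 = δ / 2 * (2 / δ * (E + 2 / δ + 1)) := by field_simp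
      _ ≤ δ / 2 * k := by gcongr
  have e3 : Real.exp E * (1 - δ / 2) ^ k * (2 / δ) ≤ Real.exp (-1) := by
    calc Real.exp E * (1 - δ / 2) ^ k * (2 / δ) ≤
        Real.exp E * Real.exp (-(δ / 2) * k) * Real.exp (2 / δ) := by gcongr
      _ = Real.exp (E + -(δ / 2) * k + 2 / δ) := by
        rw [← Real.exp_add, ← Real.exp_add]
      _ ≤ Real.exp (-1) := by
        apply Real.exp_le_exp.2
        linarith
  rw [f1]
  refine e3.trans ?_
  rw [Real.exp_neg, one_div]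
  refine inv_anti₀ (by norm_num) ?_
  have := Real.add_one_le_exp (1 : ℝ)
  linarith

theorem exists_c (L P : ℕ) : ∃ c : ℕ, ∀ D : ℕ, 2 ≤ D →
    (42 : ℝ) * L * P ^ 2 * D ^ 5 ≤ (D : ℝ) ^ c := by
  refine ⟨42 * L * P ^ 2 + 5, fun D hD => ?_⟩
  have hDr : (2 : ℝ) ≤ D := by exact_mod_cast hD
  rw [pow_add]
  have e1 : ((42 * L * P ^ 2 : ℕ) : ℝ) ≤ (D : ℝ) ^ (42 * L * P ^ 2) := by
    have e2 : ((42 * L * P ^ 2 : ℕ) : ℝ) ≤ (2 : ℝ) ^ (42 * L * P ^ 2) := by
      exact_mod_cast (Nat.lt_two_pow_self (n := 42 * L * P ^ 2)).le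
    exact e2.trans (pow_le_pow_left₀ (by norm_num) hDr _)
  push_cast at e1
  exact mul_le_mul_of_nonneg_right e1 (by positivity)

/-- The Taylor coefficient. -/
theorem low_core {a : ℂ} (ha : 0 < a.im) {f : MvPolynomial (Fin 2) ℤ} {D c : ℕ} {L P δ : ℝ}
    (hup : ∀ ε : ℝ, 0 < ε → ε ≤ 1 → ∀ w : ℂ, ‖w‖ ≤ 1 - ε →
      ‖vj f (ca a w)‖ ≤ Real.exp (3 * D + 2 * (D * (L / ε))))
    (hLr : 1 ≤ L) (hP1 : 1 ≤ P) (hD1 : (1 : ℝ) ≤ D) (hδ0 : 0 < δ) (hδ1 : δ ≤ 1 / 2)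
    (hδinv : 1 / δ ≤ P * (D : ℝ) ^ 2) {w₁ : ℂ} (hw₁n : ‖w₁‖ ≤ 1 - δ)
    (hval : 1 ≤ ‖vj f (ca a w₁)‖) (hfin : 42 * L * P ^ 2 * (D : ℝ) ^ 5 ≤ (D : ℝ) ^ c) :
    ∃ k : ℕ, k ≤ D ^ c ∧ Real.exp (-(D : ℝ) ^ c) ≤
      ‖iteratedDeriv k (fun w => vj f (ca a w)) 0 / (k.factorial : ℂ)‖ := by
  have hL0 : 0 < L := by linarith
  have hD0 : (0 : ℝ) < D := by linarith
  -- the number of coefficients
  set S : ℝ := 3 * D + 2 * (D * (L / (δ / 2))) + 2 / δ + 1 with hS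
  obtain ⟨k, hk⟩ : ∃ k : ℕ, k = ⌈(2 / δ) * S⌉₊ := ⟨_, rfl⟩
  have hS0 : 0 ≤ S := by positivity
  have hk1 : (2 / δ) * S ≤ k := by
    rw [hk]
    exact Nat.le_ceil _
  have hk2 : (k : ℝ) ≤ (2 / δ) * S + 1 := by
    rw [hk]
    exact (Nat.ceil_lt_add_one (by positivity)).le
  have hk3 : 2 * (k : ℝ) ≤ 42 * L * P ^ 2 * D ^ 5 := num_k hLr hP1 hD1 hδ0 hδinv hk2
  have hkpos : (0 : ℝ) < k := lt_of_lt_of_le (by positivity) hk1
  obtain ⟨t, htk, ht⟩ := exists_coeff (G := fun w => vj f (ca a w)) (a := 0) (R := 1)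
    (R' := 1 - δ / 2) (M := Real.exp (3 * D + 2 * (D * (L / (δ / 2))))) (θ := 1 - δ / 2) (η := 1)
    (s := w₁) (k := k) (by linarith) (by linarith) (G_differentiableOn f ha)
    (fun z hz => hup (δ / 2) (by positivity) (by linarith) z (by
      rw [mem_sphere_zero_iff_norm] at hz
      exact hz.le)) (by linarith) (by linarith)
    (by
      rw [dist_zero_right]
      nlinarith) one_pos hval (by
      exact num_tail hδ0 (by linarith) hk1)
  refine ⟨t, ?_, ?_⟩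
  · have e1 : (t : ℝ) ≤ k := by exact_mod_cast htk.le
    have e2 : (t : ℝ) ≤ (D : ℝ) ^ c := by linarith
    exact_mod_cast e2
  · have e1 : ((1 - δ / 2) * (1 - δ / 2)) ^ t ≤ 1 := by
      refine pow_le_one₀ (by nlinarith) (by nlinarith)
    have e2 : 1 / (2 * (k : ℝ)) ≤
        ‖iteratedDeriv t (fun w => vj f (ca a w)) 0 / (t.factorial : ℂ)‖ := by
      refine ht.trans ?_
      exact mul_le_of_le_one_right (norm_nonneg _) e1
    refine le_trans ?_ e2
    rw [Real.exp_neg, ← one_div]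
    refine one_div_le_one_div_of_le (by positivity) ?_
    have e3 := Real.add_one_le_exp ((D : ℝ) ^ c)
    linarith


/-- **LOW.** -/
theorem specLow : SpecLow := by
  intro a ha
  obtain ⟨K, hK, hup, hlow⟩ := CMB.exists_K specJ
  obtain ⟨L, hL1, hL⟩ := G_upper ha
  obtain ⟨P, hP⟩ := exists_nat_ge ((K + 17) * ((1 + ‖a‖) ^ 2 / (2 * a.im)) + 1)
  have hK0 : (0 : ℝ) ≤ K := Nat.cast_nonneg K
  have hna := norm_nonneg a
  have hP1 : (1 : ℝ) ≤ P := by
    have : 0 ≤ (K + 17) * ((1 + ‖a‖) ^ 2 / (2 * a.im)) := by positivity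
    linarith
  have hLr : (1 : ℝ) ≤ L := by exact_mod_cast hL1
  obtain ⟨c, hc⟩ := exists_c L P
  refine ⟨c, fun D hD f hf0 hf => ?_⟩
  have hDr : (2 : ℝ) ≤ D := by exact_mod_cast hD
  have hD1 : (1 : ℝ) ≤ D := by linarith
  have hD0 : (0 : ℝ) < D := by linarith
  -- the final comparison
  have hfin : (42 : ℝ) * L * P ^ 2 * D ^ 5 ≤ (D : ℝ) ^ c := hc D hD
  have hD5 : (D : ℝ) ≤ D ^ 5 := by
    calc (D : ℝ) = D ^ 1 := (pow_one _).symm
      _ ≤ D ^ 5 := pow_le_pow_right₀ hD1 (by norm_num)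
  have hP2 : (1 : ℝ) ≤ (P : ℝ) ^ 2 := one_le_pow₀ hP1
  refine ⟨fun w hw => ?_, ?_⟩
  · refine (hL D f hf (1 / 2) (by norm_num) (by norm_num) w (by linarith)).trans ?_
    apply Real.exp_le_exp.2
    refine le_trans ?_ hfin
    have e1 : 3 * (D : ℝ) + 2 * (D * (L / (1 / 2))) = (3 + 4 * L) * D := by ring
    rw [e1]
    have e2 : (3 + 4 * (L : ℝ)) ≤ 42 * L * P ^ 2 := by nlinarith
    calc (3 + 4 * (L : ℝ)) * D ≤ (42 * L * P ^ 2) * D := by gcongr
      _ ≤ (42 * L * P ^ 2) * D ^ 5 := by gcongr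
  -- the large value
  have hcf : ∃ i j, i ≤ D ∧ j ≤ D ∧ (fun i j => f.coeff (Hk.fin2 i j)) i j ≠ 0 := by
    obtain ⟨m, hm⟩ := MvPolynomial.ne_zero_iff.1 hf0
    have hs := L3.sum_le_totalDegree (MvPolynomial.mem_support_iff.2 hm)
    rw [Fin.sum_univ_two] at hs
    have := hf.1
    refine ⟨m 0, m 1, by omega, by omega, ?_⟩
    simp only [Hk.fin2_eta]
    exact hm
  obtain ⟨Y, hY1, hY2, hY3⟩ := exists_large hup (by omega : 1 ≤ D) hcf
    (fun i j => (Hk.abs_coeff_le_cSum f _).trans hf.2)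
  have hYr1 : (1 : ℝ) ≤ Y := by
    have : 1 ≤ (K + 16) * D ^ 2 := Nat.one_le_iff_ne_zero.2 (by positivity)
    exact_mod_cast this.trans hY1
  have hYr2 : (Y : ℝ) ≤ (K + 17) * D ^ 2 := by
    have e1 : (Y : ℝ) ≤ (K + 16) * D ^ 2 + D := by exact_mod_cast hY2
    nlinarith
  obtain ⟨w₁, hw₁, hw₁n⟩ := exists_preimage ha hYr1
  set δ : ℝ := 2 * a.im / (Y * (1 + ‖a‖) ^ 2) with hδ
  have hY0 : (0 : ℝ) < Y := by linarith
  have hδ0 : 0 < δ := by positivity
  have haim : a.im ≤ ‖a‖ := Complex.im_le_norm a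
  have hδ1 : δ ≤ 1 / 2 := by
    rw [hδ, div_le_iff₀ (by positivity)]
    nlinarith [sq_nonneg (1 - ‖a‖), mul_nonneg (sub_nonneg.2 hYr1) (sq_nonneg (1 + ‖a‖))]
  have hδinv : 1 / δ ≤ P * D ^ 2 := by
    have e1 : 1 / δ = Y * ((1 + ‖a‖) ^ 2 / (2 * a.im)) := by
      rw [hδ]
      field_simp
    rw [e1]
    have e2 : 0 ≤ (1 + ‖a‖) ^ 2 / (2 * a.im) := by positivity
    calc Y * ((1 + ‖a‖) ^ 2 / (2 * a.im)) ≤ ((K + 17) * D ^ 2) * ((1 + ‖a‖) ^ 2 / (2 * a.im)) := by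
          gcongr
      _ = ((K + 17) * ((1 + ‖a‖) ^ 2 / (2 * a.im))) * D ^ 2 := by ring
      _ ≤ P * D ^ 2 := by
        gcongr
        linarith
  have hval : (1 : ℝ) ≤ ‖vj f (ca a w₁)‖ := by
    rw [hw₁, vj_eq f hf.1]
    exact_mod_cast hY3
  exact low_core ha (hL D f hf) hLr hP1 hD1 hδ0 hδ1 hδinv hw₁n hval hfin

end Pool.Agent.Lib.MP_47914d_nt.Hp
end
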