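import Pool.Agent.Lib.MP_47914d_nt.Hk.All
import Pool.Agent.Lib.MP_47914d_nt.Hp.Spec
import Pool.Agent.Lib.MP_47914d_nt.Hk.ModP

section
/-!
FIN: the Ax-Schanuel step for sequences along which all relations persist (MP_47914d_nt).
-/
set_option autoImplicit false

open Complex Filter Topology Polynomial Finset

namespace Pool.Agent.Lib.MP_47914d_nt.Hp.As

/-- Algebraically independent numbers can be treated as variables. -/
lemma inj_const {S T : Type*} {θ : T → ℂ} (hθ : AlgebraicIndependent ℤ θ)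
    {P : MvPolynomial (S ⊕ T) ℤ} (hP : P ≠ 0) :
    MvPolynomial.aeval (Sum.elim (fun s => (MvPolynomial.X s : MvPolynomial S ℂ))
      (fun t => MvPolynomial.C (θ t))) P ≠ 0 := by
  have hinj : Function.Injective (MvPolynomial.aeval θ : MvPolynomial T ℤ →ₐ[ℤ] ℂ) := hθ
  intro h
  apply hP
  have h1 : MvPolynomial.map (MvPolynomial.aeval θ : MvPolynomial T ℤ →ₐ[ℤ] ℂ).toRingHom
      (MvPolynomial.sumAlgEquiv ℤ S T P) = 0 := by
    rw [← h]
    have : ((MvPolynomial.map (MvPolynomial.aeval θ : MvPolynomial T ℤ →ₐ[ℤ] ℂ).toRingHom).comp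
        (MvPolynomial.sumAlgEquiv ℤ S T : _ ≃ₐ[ℤ] _).toRingEquiv.toRingHom) =
        (MvPolynomial.aeval (Sum.elim (fun s => (MvPolynomial.X s : MvPolynomial S ℂ))
          (fun t => MvPolynomial.C (θ t))) : MvPolynomial (S ⊕ T) ℤ →ₐ[ℤ] _).toRingHom := by
      apply MvPolynomial.ringHom_ext
      · intro r
        simp
      · intro o
        cases o with
        | inl s => simp
        | inr t => simp
    exact RingHom.congr_fun this P
  have h2 := (MvPolynomial.map_injective _ hinj) (h1.trans (map_zero _).symm)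
  exact (MvPolynomial.sumAlgEquiv ℤ S T).injective (by rw [h2, map_zero])

lemma eval_const {S T : Type*} (θ : T → ℂ) (v : S → ℂ) (P : MvPolynomial (S ⊕ T) ℤ) :
    MvPolynomial.eval v (MvPolynomial.aeval
      (Sum.elim (fun s => (MvPolynomial.X s : MvPolynomial S ℂ))
      (fun t => MvPolynomial.C (θ t))) P) = MvPolynomial.aeval (Sum.elim v θ) P := by
  have hcomp : (MvPolynomial.eval v).comp
      (MvPolynomial.aeval (Sum.elim (fun s => (MvPolynomial.X s : MvPolynomial S ℂ))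
        (fun t => MvPolynomial.C (θ t))) : MvPolynomial (S ⊕ T) ℤ →ₐ[ℤ] _).toRingHom =
      (MvPolynomial.aeval (Sum.elim v θ) : MvPolynomial (S ⊕ T) ℤ →ₐ[ℤ] ℂ).toRingHom := by
    apply MvPolynomial.ringHom_ext
    · intro r
      simp
    · intro o
      cases o <;> simp
  exact RingHom.congr_fun hcomp P

/-- The Ax-Schanuel step for a subset of the coordinates. -/
theorem step {N k : ℕ} (hk : 0 < k) (𝒱 : Ultrafilter ℕ) (y : ℕ → Fin N → ℂ) (z : Fin N → ℂ)
    (him : ∀ i, 0 < (z i).im) (hlim : Tendsto y 𝒱 (𝓝 z))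
    (hne : ∀ i k, i ≠ k → ¬ ∃ a b c d : ℚ, 0 < a * d - b * c ∧
      z k * ((c : ℂ) * z i + (d : ℂ)) = (a : ℂ) * z i + (b : ℂ))
    (hrel : ∀ P : MvPolynomial (Fin N ⊕ Fin N) ℤ, MvPolynomial.aeval (ptf z) P = 0 →
      ∀ᶠ v in (𝒱 : Filter ℕ), MvPolynomial.aeval (ptf (y v)) P = 0)
    (ι : Fin k → Fin N) (hι : Function.Injective ι)
    (hnc : ∀ j, ∀ᶠ v in (𝒱 : Filter ℕ), y v (ι j) ≠ z (ι j))
    {T : Type} (s : T → Fin N ⊕ Fin N) (hθ : AlgebraicIndependent ℤ (fun t => ptf z (s t)))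
    (hs : ∀ᶠ v in (𝒱 : Filter ℕ), ∀ t, ptf (y v) (s t) = ptf z (s t)) :
    ∃ S : Finset (Fin k ⊕ Fin k), k + 1 ≤ S.card ∧ AlgebraicIndependent ℚ
      (Sum.elim (fun i : (S : Set (Fin k ⊕ Fin k)) => ptf z (Sum.map ι ι i))
        (fun t => ptf z (s t))) := by
  classical
  set z' : Fin k → ℂ := fun j => z (ι j) with hz'
  set 𝒰 : Ultrafilter (Fin k → ℂ) := 𝒱.map (fun v j => y v (ι j)) with h𝒰
  have hle : (𝒰 : Filter (Fin k → ℂ)) ≤ 𝓝 z' := by
    have h1 : Tendsto (fun v j => y v (ι j)) 𝒱 (𝓝 z') := by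
      rw [tendsto_pi_nhds] at hlim ⊢
      exact fun j => hlim (ι j)
    exact h1
  obtain ⟨F, _, _, ⟨G⟩⟩ := specArc_all k z' 𝒰 hle
  have hnc' : ∀ i, ∀ᶠ x in (𝒰 : Filter (Fin k → ℂ)), x i ≠ z' i := fun i => hnc i
  have hne' : ∀ i k, i ≠ k → ¬ ∃ a b c d : ℚ, 0 < a * d - b * c ∧
      z' k * ((c : ℂ) * z' i + (d : ℂ)) = (a : ℂ) * z' i + (b : ℂ) :=
    fun i k hik => hne _ _ (hι.ne hik)
  obtain ⟨S, hS, hAI⟩ := ax_schanuel specJ specRam specMahler_all specExt specDer0 specGour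
    specStepC_all specRicc specNoRicc_all specGauge specTwist specAut specLinkB_all specLinkC_all
    hk hle G (fun i => him _) hnc' hne'
  refine ⟨S, hS, ?_⟩
  apply algebraicIndependent_of_int
  intro P hP0 hP
  set g : (S : Set (Fin k ⊕ Fin k)) ⊕ T → Fin N ⊕ Fin N :=
    Sum.elim (fun i => Sum.map ι ι i) s with hg
  set Q : MvPolynomial (Fin N ⊕ Fin N) ℤ := MvPolynomial.rename g P with hQ
  have hQe : ∀ x : Fin N → ℂ, MvPolynomial.aeval (ptf x) Q =
      MvPolynomial.aeval (Sum.elim (fun i : (S : Set (Fin k ⊕ Fin k)) => ptf x (Sum.map ι ι i))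
        (fun t => ptf x (s t))) P := by
    intro x
    rw [hQ, MvPolynomial.aeval_rename]
    congr 2
    funext o
    cases o <;> rfl
  have h1 := hrel Q (by rw [hQe]; exact hP)
  apply inj_const hθ hP0
  rw [AlgebraicIndepOn, algebraicIndependent_iff] at hAI
  apply hAI
  have e : (fun i : (S : Set (Fin k ⊕ Fin k)) =>
      Sum.elim (fun i => G.T (fun x => x i)) (fun i => G.T (fun x => Jc (x i)))
        (i : Fin k ⊕ Fin k)) =
      fun i : (S : Set (Fin k ⊕ Fin k)) => G.T (fun x => ptf x i) := by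
    funext i
    rcases i with ⟨i | i, hi⟩ <;> rfl
  rw [e, G.aeval_eq_zero_iff]
  show ∀ᶠ v in (𝒱 : Filter ℕ), _
  filter_upwards [h1, hs] with v hv hsv
  rw [hQe] at hv
  rw [← hv]
  refine (eval_const (fun t => ptf z (s t))
    (fun j : (S : Set (Fin k ⊕ Fin k)) => ptf (fun j => y v (ι j)) j) P).trans ?_
  congr 2
  funext o
  rcases o with ⟨i | i, hi⟩ | t
  · rfl
  · rfl
  · exact (hsv t).symm

/-- Choosing members of an algebraically independent family. -/
lemma choose_fin {N M : ℕ} {z : Fin N → ℂ} {S T : Type} [Fintype S] [Fintype T]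
    (g : S ⊕ T → Fin N ⊕ Fin N) (hc : M ≤ Fintype.card S + Fintype.card T)
    (h : AlgebraicIndependent ℚ (fun o => ptf z (g o))) :
    ∃ w : Fin M → Fin N ⊕ Fin N, AlgebraicIndependent ℚ (fun m => ptf z (w m)) := by
  classical
  have h1 : Fintype.card (Fin M) ≤ Fintype.card (S ⊕ T) := by
    rw [Fintype.card_fin, Fintype.card_sum]
    exact hc
  obtain ⟨e⟩ := Function.Embedding.nonempty_of_card_le h1
  exact ⟨fun m => g (e m), h.comp _ e.injective⟩

/-- The main step: all relations persist along `y`, and at most one coordinate is constant. -/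
theorem main_step {n : ℕ} (hn : 0 < n) (𝒱 : Ultrafilter ℕ) (y : ℕ → Fin (n + 1) → ℂ)
    (z : Fin (n + 1) → ℂ) (him : ∀ i, 0 < (z i).im) (hlim : Tendsto y 𝒱 (𝓝 z))
    (hcm : ∀ i, ¬ ∃ a b c : ℤ, (a ≠ 0 ∨ b ≠ 0 ∨ c ≠ 0) ∧
      (a : ℂ) * z i ^ 2 + (b : ℂ) * z i + (c : ℂ) = 0)
    (hne : ∀ i k, i ≠ k → ¬ ∃ a b c d : ℚ, 0 < a * d - b * c ∧
      z k * ((c : ℂ) * z i + (d : ℂ)) = (a : ℂ) * z i + (b : ℂ))
    (hrel : ∀ P : MvPolynomial (Fin (n + 1) ⊕ Fin (n + 1)) ℤ, MvPolynomial.aeval (ptf z) P = 0 →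
      ∀ᶠ v in (𝒱 : Filter ℕ), MvPolynomial.aeval (ptf (y v)) P = 0)
    (hconst : ∀ i k, i ≠ k → ¬ ∀ᶠ v in (𝒱 : Filter ℕ), y v i = z i ∧ y v k = z k) :
    ∃ w : Fin (n + 2) → Fin (n + 1) ⊕ Fin (n + 1),
      AlgebraicIndependent ℚ (fun m => ptf z (w m)) := by
  classical
  by_cases h : ∃ l, ∀ᶠ v in (𝒱 : Filter ℕ), y v l = z l
  · obtain ⟨l, hl⟩ := h
    have hnc : ∀ j : Fin n, ∀ᶠ v in (𝒱 : Filter ℕ), y v (l.succAbove j) ≠ z (l.succAbove j) := by
      intro j
      by_contra hcon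
      have h1 : ∀ᶠ v in (𝒱 : Filter ℕ), y v (l.succAbove j) = z (l.succAbove j) := by
        have h2 := Ultrafilter.eventually_not.2 hcon
        filter_upwards [h2] with v hv
        exact not_not.1 hv
      exact hconst l (l.succAbove j) (Fin.succAbove_ne l j).symm (hl.and h1)
    obtain ⟨i, hi⟩ := Hk.exists_theta (him l) (hcm l)
    set s : Unit → Fin (n + 1) ⊕ Fin (n + 1) :=
      fun _ => Sum.map (fun _ => l) (fun _ => l) i with hs
    have hsv : ∀ x : Fin (n + 1) → ℂ, ptf x (s ()) = ptf (fun _ : Fin 1 => x l) i := by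
      intro x
      rcases i with i | i <;> rfl
    have hti : AlgebraicIndependent ℤ (fun t => ptf z (s t)) := by
      rw [algebraicIndependent_unique_type_iff]
      show Transcendental ℤ (ptf z (s ()))
      rw [hsv]
      exact fun h => hi ((IsFractionRing.isAlgebraic_iff ℤ ℚ ℂ).1 h)
    obtain ⟨S, hS, hAI⟩ := step hn 𝒱 y z him hlim hne hrel l.succAbove
      (Fin.succAbove_right_injective) hnc s hti (by
        filter_upwards [hl] with v hv t
        cases t
        rw [hsv, hsv, hv])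
    refine choose_fin (z := z) (S := (S : Set (Fin n ⊕ Fin n))) (T := Unit)
      (Sum.elim (fun i => Sum.map l.succAbove l.succAbove i) s) ?_ ?_
    · simp only [Fintype.card_unit, Finset.coe_sort_coe, Fintype.card_coe]
      omega
    · convert hAI using 1
      funext o
      cases o <;> rfl
  · push Not at h
    have hnc : ∀ j, ∀ᶠ v in (𝒱 : Filter ℕ), y v j ≠ z j := h
    obtain ⟨S, hS, hAI⟩ := step (Nat.succ_pos n) 𝒱 y z him hlim hne hrel id
      Function.injective_id hnc (T := Empty) (fun t => t.elim)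
      (by
        rw [algebraicIndependent_empty_type_iff]
        exact RingHom.injective_int (algebraMap ℤ ℂ)) (Eventually.of_forall fun v t => t.elim)
    refine choose_fin (z := z) (S := (S : Set (Fin (n + 1) ⊕ Fin (n + 1)))) (T := Empty)
      (Sum.elim (fun i => Sum.map id id i) (fun t => t.elim)) ?_ ?_
    · simp only [Fintype.card_empty, Finset.coe_sort_coe, Fintype.card_coe]
      omega
    · convert hAI using 1
      funext o
      cases o <;> rfl

end Pool.Agent.Lib.MP_47914d_nt.Hp.As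
end

section
/-!
Sequences of very good approximations along an ultrafilter (MP_47914d_nt).
-/
set_option autoImplicit false

open Complex Filter Topology Polynomial Finset

namespace Pool.Agent.Lib.MP_47914d_nt.Hp.As

/-- Diagonal choice along an ultrafilter on `ℕ`. -/
lemma diag {𝒱 : Filter ℕ} (h𝒱 : 𝒱 ≤ atTop) {β : Type*} [Nonempty β] (p : ℕ → ℕ → β → Prop)
    (hmono : ∀ v A B b, A ≤ B → p B v b → p A v b) (h : ∀ A, ∀ᶠ v in 𝒱, ∃ b, p A v b) :
    ∃ b : ℕ → β, ∀ A, ∀ᶠ v in 𝒱, p A v (b v) := by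
  classical
  have hex : ∀ v, ∃ b : β, (∃ b', p (Nat.findGreatest (fun A => ∃ b, p A v b) v) v b') →
      p (Nat.findGreatest (fun A => ∃ b, p A v b) v) v b := by
    intro v
    by_cases h1 : ∃ b', p (Nat.findGreatest (fun A => ∃ b, p A v b) v) v b'
    · obtain ⟨b, hb⟩ := h1
      exact ⟨b, fun _ => hb⟩
    · exact ⟨Classical.arbitrary β, fun h2 => absurd h2 h1⟩
  choose b hb using hex
  refine ⟨b, fun A => ?_⟩
  filter_upwards [h A, h𝒱 (eventually_ge_atTop A)] with v hv hA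
  have h2 : A ≤ Nat.findGreatest (fun A => ∃ b, p A v b) v := Nat.le_findGreatest hA hv
  have h3 : ∃ b', p (Nat.findGreatest (fun A => ∃ b, p A v b) v) v b' :=
    Nat.findGreatest_spec (P := fun A => ∃ b, p A v b) hA hv
  exact hmono v A _ _ h2 (hb v h3)

lemma exp_pow_mono {H : ℕ} (hH : 1 ≤ H) {A B : ℕ} (hAB : A ≤ B) :
    Real.exp (-(H : ℝ) ^ B) ≤ Real.exp (-(H : ℝ) ^ A) :=
  Real.exp_le_exp.mpr (neg_le_neg (pow_le_pow_right₀ (by exact_mod_cast hH) hAB))

/-- Moving the base point. -/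
lemma move {α : ℂ} (hα : 0 < α.im) : ∃ C : ℝ, 1 ≤ C ∧ ∀ (x κ : ℂ) (H : ℕ), ‖x - α‖ ≤ α.im / 2 →
    Hk.SpecialPt α κ H → ∃ κ' : ℂ, Hk.SpecialPt x κ' H ∧ ‖κ' - κ‖ ≤ C * (H : ℝ) ^ 2 * ‖x - α‖ := by
  set m : ℝ := min 1 (α.im / 2) with hm
  have hm0 : 0 < m := lt_min one_pos (by linarith)
  have hm1 : m ≤ 1 := min_le_left _ _
  have hm2 : m ≤ α.im / 2 := min_le_right _ _
  have hC : 1 ≤ 2 / m ^ 2 := by
    rw [le_div_iff₀ (by positivity)]
    nlinarith
  refine ⟨2 / m ^ 2, hC, ?_⟩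
  intro x κ H hx hs
  rcases hs with hs | ⟨a, b, c, d, ha, hb, hc, hd, hdet, hk⟩
  · refine ⟨κ, Or.inl hs, ?_⟩
    rw [sub_self, norm_zero]
    positivity
  · have hxim : α.im / 2 ≤ x.im := by
      have h1 : |(x - α).im| ≤ ‖x - α‖ := Complex.abs_im_le_norm _
      rw [Complex.sub_im] at h1
      have h2 := (abs_le.1 (h1.trans hx)).1
      linarith
    have hlow : ∀ w : ℂ, m ≤ w.im → m ≤ ‖(c : ℂ) * w + d‖ := by
      intro w hw
      by_cases hc0 : c = 0
      · have hd0 : d ≠ 0 := by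
          rintro rfl
          rw [hc0] at hdet
          simp at hdet
        rw [hc0]
        simp only [Int.cast_zero, zero_mul, zero_add]
        rw [Complex.norm_intCast]
        have h1 : (1 : ℤ) ≤ |d| := Int.one_le_abs hd0
        have h2 : (1 : ℝ) ≤ |(d : ℝ)| := by exact_mod_cast h1
        linarith
      · have h1 : |((c : ℂ) * w + d).im| ≤ ‖(c : ℂ) * w + d‖ := Complex.abs_im_le_norm _
        have h2 : ((c : ℂ) * w + d).im = c * w.im := by simp
        rw [h2, abs_mul] at h1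
        have h3 : (1 : ℤ) ≤ |c| := Int.one_le_abs hc0
        have h4 : (1 : ℝ) ≤ |(c : ℝ)| := by exact_mod_cast h3
        have h5 : m ≤ |w.im| := hw.trans (le_abs_self _)
        nlinarith [abs_nonneg w.im]
    have hx1 := hlow x (hm2.trans hxim)
    have hα1 := hlow α (by linarith)
    have hx0 : (c : ℂ) * x + d ≠ 0 := by
      intro h; rw [h, norm_zero] at hx1; linarith
    have hα0 : (c : ℂ) * α + d ≠ 0 := by
      intro h; rw [h, norm_zero] at hα1; linarith
    refine ⟨((a : ℂ) * x + b) / ((c : ℂ) * x + d), Or.inr ⟨a, b, c, d, ha, hb, hc, hd, hdet,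
      div_mul_cancel₀ _ hx0⟩, ?_⟩
    have hκ : κ = ((a : ℂ) * α + b) / ((c : ℂ) * α + d) := by
      rw [eq_div_iff hα0, hk]
    have e : ((a : ℂ) * x + b) / ((c : ℂ) * x + d) - κ =
        ((a * d - b * c : ℤ) : ℂ) * (x - α) / (((c : ℂ) * x + d) * ((c : ℂ) * α + d)) := by
      rw [hκ, div_sub_div _ _ hx0 hα0]
      congr 1
      push_cast
      ring
    rw [e, norm_div, norm_mul, norm_mul, Complex.norm_intCast]
    have hdet' : |((a * d - b * c : ℤ) : ℝ)| ≤ 2 * (H : ℝ) ^ 2 := by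
      have h1 : |a * d - b * c| ≤ 2 * (H : ℤ) ^ 2 := by
        have h2 : |a * d| ≤ (H : ℤ) * H := by
          rw [abs_mul]
          exact mul_le_mul ha hd (abs_nonneg _) (Int.natCast_nonneg _)
        have h3 : |b * c| ≤ (H : ℤ) * H := by
          rw [abs_mul]
          exact mul_le_mul hb hc (abs_nonneg _) (Int.natCast_nonneg _)
        have h4 := abs_sub (a * d) (b * c)
        nlinarith
      exact_mod_cast h1
    rw [div_le_iff₀ (by positivity)]
    have hprod : m ^ 2 ≤ ‖(c : ℂ) * x + d‖ * ‖(c : ℂ) * α + d‖ := by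
      rw [sq]
      exact mul_le_mul hx1 hα1 hm0.le (norm_nonneg _)
    calc |((a * d - b * c : ℤ) : ℝ)| * ‖x - α‖ ≤ 2 * (H : ℝ) ^ 2 * ‖x - α‖ :=
          mul_le_mul_of_nonneg_right hdet' (norm_nonneg _)
      _ = 2 / m ^ 2 * (H : ℝ) ^ 2 * ‖x - α‖ * m ^ 2 := by
          field_simp
      _ ≤ 2 / m ^ 2 * (H : ℝ) ^ 2 * ‖x - α‖ * (‖(c : ℂ) * x + d‖ * ‖(c : ℂ) * α + d‖) :=
          mul_le_mul_of_nonneg_left hprod (by positivity)

end Pool.Agent.Lib.MP_47914d_nt.Hp.As
end

section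
/-!
At most one coordinate of an approximating sequence is constant (MP_47914d_nt).
-/
set_option autoImplicit false

open Complex Filter Topology Polynomial Finset

namespace Pool.Agent.Lib.MP_47914d_nt.Hp.As

/-- Two images of one point are equivalent. -/
lemma hecke_two {x u w : ℂ} {a b c d a' b' c' d' : ℤ} (h1 : 0 < a * d - b * c)
    (h2 : 0 < a' * d' - b' * c') (hu : u * ((c : ℂ) * x + d) = (a : ℂ) * x + b)
    (hw : w * ((c' : ℂ) * x + d') = (a' : ℂ) * x + b') :
    ∃ a b c d : ℚ, 0 < a * d - b * c ∧ w * ((c : ℂ) * u + (d : ℂ)) = (a : ℂ) * u + (b : ℂ) := by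
  refine ⟨a' * d - b' * c, b' * a - a' * b, c' * d - d' * c, d' * a - c' * b, ?_, ?_⟩
  · have h3 : (0 : ℚ) < (a * d - b * c : ℤ) := by exact_mod_cast h1
    have h4 : (0 : ℚ) < (a' * d' - b' * c' : ℤ) := by exact_mod_cast h2
    have h5 := mul_pos h3 h4
    push_cast at h5
    nlinarith
  · push_cast
    linear_combination ((a : ℂ) - c * u) * hw + ((w : ℂ) * c' - a') * hu

lemma not_const {n : ℕ} {𝒱 : Ultrafilter ℕ} {H : ℕ → ℕ} {x : ℕ → ℂ} {κ : ℕ → Fin n → ℂ}
    {z : Fin (n + 1) → ℂ}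
    (hcm : ∀ i, ¬ ∃ a b c : ℤ, (a ≠ 0 ∨ b ≠ 0 ∨ c ≠ 0) ∧
      (a : ℂ) * z i ^ 2 + (b : ℂ) * z i + (c : ℂ) = 0)
    (hne : ∀ i k, i ≠ k → ¬ ∃ a b c d : ℚ, 0 < a * d - b * c ∧
      z k * ((c : ℂ) * z i + (d : ℂ)) = (a : ℂ) * z i + (b : ℂ))
    (hs : ∀ᶠ v in (𝒱 : Filter ℕ), ∀ i, Hk.SpecialPt (x v) (κ v i) (H v)) :
    ∀ i k : Fin (n + 1), i ≠ k → ¬ ∀ᶠ v in (𝒱 : Filter ℕ),
      (Fin.cons (x v) (κ v) : Fin (n + 1) → ℂ) i = z i ∧
        (Fin.cons (x v) (κ v) : Fin (n + 1) → ℂ) k = z k := by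
  intro i k hik hcon
  obtain ⟨v, ⟨hvi, hvk⟩, hv⟩ := (hcon.and hs).exists
  have key : ∀ j : Fin n, κ v j = z j.succ → ∃ a b c d : ℤ, 0 < a * d - b * c ∧
      z j.succ * ((c : ℂ) * x v + d) = (a : ℂ) * x v + b := by
    intro j hj
    rcases hv j with ⟨a, b, c, h0, -, -, -, hq⟩ | ⟨a, b, c, d, -, -, -, -, hdet, hq⟩
    · rw [hj] at hq
      exact absurd ⟨a, b, c, h0, hq⟩ (hcm j.succ)
    · rw [hj] at hq
      exact ⟨a, b, c, d, hdet, hq⟩
  induction i using Fin.cases with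
  | zero =>
    induction k using Fin.cases with
    | zero => exact hik rfl
    | succ k =>
      rw [Fin.cons_zero] at hvi
      rw [Fin.cons_succ] at hvk
      obtain ⟨a, b, c, d, hdet, hq⟩ := key k hvk
      rw [hvi] at hq
      refine hne 0 k.succ hik ⟨a, b, c, d, by exact_mod_cast hdet, ?_⟩
      push_cast
      exact hq
  | succ i =>
    rw [Fin.cons_succ] at hvi
    obtain ⟨a, b, c, d, hdet, hq⟩ := key i hvi
    induction k using Fin.cases with
    | zero =>
      rw [Fin.cons_zero] at hvk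
      rw [hvk] at hq
      refine hne 0 i.succ (Fin.succ_ne_zero i).symm ⟨a, b, c, d, by exact_mod_cast hdet, ?_⟩
      push_cast
      exact hq
    | succ k =>
      rw [Fin.cons_succ] at hvk
      obtain ⟨a', b', c', d', hdet', hq'⟩ := key k hvk
      exact hne i.succ k.succ hik (hecke_two hdet hdet' hq hq')

end Pool.Agent.Lib.MP_47914d_nt.Hp.As
end

section
/-!
MP_47914d_nt, H+, module ENG (helper4): sizes of the coefficients of characteristic polynomials.
-/
set_option autoImplicit false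

open Complex Filter Topology Polynomial Finset

namespace Pool.Agent.Lib.MP_47914d_nt.Hp

open Hk

section Size

variable {σ : Type}

lemma Sz.mono {P : MvPolynomial σ ℤ} {D D' : ℕ} (h : Sz P D) (hD : D ≤ D') : Sz P D' :=
  ⟨h.1.trans hD, h.2.trans (Real.exp_le_exp.2 (by exact_mod_cast hD))⟩

lemma Sz.neg {P : MvPolynomial σ ℤ} {D : ℕ} (h : Sz P D) : Sz (-P) D := by
  refine ⟨?_, ?_⟩
  · rw [MvPolynomial.totalDegree_neg]; exact h.1
  · rw [cSum_neg]; exact h.2

lemma sz_zero (D : ℕ) : Sz (0 : MvPolynomial σ ℤ) D := by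
  refine ⟨by simp, ?_⟩
  rw [cSum_zero]
  simpa using (Real.exp_pos _).le

lemma sz_C (a : ℤ) (D : ℕ) (h : |(a : ℝ)| ≤ Real.exp D) : Sz (MvPolynomial.C a : MvPolynomial σ ℤ) D := by
  refine ⟨by rw [MvPolynomial.totalDegree_C]; exact Nat.zero_le _, ?_⟩
  have h1 := cSum_C_le (σ := σ) a
  have h2 : ((a.natAbs : ℕ) : ℝ) = |(a : ℝ)| := by
    rw [← Int.cast_abs, Int.abs_eq_natAbs]; simp
  calc (L3.cSum (MvPolynomial.C a : MvPolynomial σ ℤ) : ℝ) ≤ ((a.natAbs : ℕ) : ℝ) := by
        exact_mod_cast h1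
    _ ≤ _ := by rw [h2]; exact h

lemma sz_one (D : ℕ) : Sz (1 : MvPolynomial σ ℤ) D := by
  have := sz_C (σ := σ) 1 D (by simp)
  simpa using this

lemma sz_X (i : σ) {D : ℕ} (hD : 1 ≤ D) : Sz (MvPolynomial.X i : MvPolynomial σ ℤ) D := by
  refine ⟨by rw [MvPolynomial.totalDegree_X]; exact hD, ?_⟩
  have h1 := cSum_X_le (σ := σ) i
  calc (L3.cSum (MvPolynomial.X i : MvPolynomial σ ℤ) : ℝ) ≤ 1 := by exact_mod_cast h1
    _ ≤ _ := Real.one_le_exp (by positivity)

/-- The sum of the absolute values of all coefficients of a polynomial over `ℤ[σ]`. -/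
noncomputable def wS (Q : (MvPolynomial σ ℤ)[X]) : ℕ := ∑ i ∈ Q.support, L3.cSum (Q.coeff i)

lemma wS_eq {Q : (MvPolynomial σ ℤ)[X]} {s : Finset ℕ} (h : Q.support ⊆ s) :
    wS Q = ∑ i ∈ s, L3.cSum (Q.coeff i) := by
  rw [wS]
  apply Finset.sum_subset h
  intro i _ hi
  rw [Polynomial.notMem_support_iff] at hi
  rw [hi, cSum_zero]

lemma cSum_coeff_le (Q : (MvPolynomial σ ℤ)[X]) (i : ℕ) : L3.cSum (Q.coeff i) ≤ wS Q := by
  by_cases h : i ∈ Q.support
  · exact Finset.single_le_sum (f := fun i => L3.cSum (Q.coeff i)) (fun _ _ => Nat.zero_le _) h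
  · rw [Polynomial.notMem_support_iff] at h
    rw [h, cSum_zero]
    exact Nat.zero_le _

lemma wS_zero : wS (0 : (MvPolynomial σ ℤ)[X]) = 0 := by simp [wS]

lemma wS_add_le (P Q : (MvPolynomial σ ℤ)[X]) : wS (P + Q) ≤ wS P + wS Q := by
  rw [wS_eq (Q := P + Q) (s := P.support ∪ Q.support) Polynomial.support_add,
    wS_eq (Q := P) (s := P.support ∪ Q.support) Finset.subset_union_left,
    wS_eq (Q := Q) (s := P.support ∪ Q.support) Finset.subset_union_right,
    ← Finset.sum_add_distrib]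
  apply Finset.sum_le_sum
  intro i _
  rw [Polynomial.coeff_add]
  exact cSum_add_le _ _

lemma wS_neg (P : (MvPolynomial σ ℤ)[X]) : wS (-P) = wS P := by
  rw [wS, wS, Polynomial.support_neg]
  apply Finset.sum_congr rfl
  intro i _
  rw [Polynomial.coeff_neg, cSum_neg]

lemma wS_sum_le {κ : Type*} (s : Finset κ) (f : κ → (MvPolynomial σ ℤ)[X]) :
    wS (∑ x ∈ s, f x) ≤ ∑ x ∈ s, wS (f x) := by
  classical
  induction s using Finset.induction_on with
  | empty => simp [wS_zero]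
  | insert a s ha ih =>
    rw [Finset.sum_insert ha, Finset.sum_insert ha]
    exact (wS_add_le _ _).trans (Nat.add_le_add_left ih _)

lemma wS_monomial (n : ℕ) (a : MvPolynomial σ ℤ) : wS (Polynomial.monomial n a) = L3.cSum a := by
  rw [wS_eq (s := {n}) (Polynomial.support_monomial_subset n a)]
  simp

lemma wS_C (a : MvPolynomial σ ℤ) : wS (Polynomial.C a) = L3.cSum a := wS_monomial 0 a

lemma cSum_one_le : L3.cSum (1 : MvPolynomial σ ℤ) ≤ 1 := by
  have := cSum_C_le (σ := σ) 1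
  simpa using this

lemma wS_X_le : wS (Polynomial.X : (MvPolynomial σ ℤ)[X]) ≤ 1 := by
  have : (Polynomial.X : (MvPolynomial σ ℤ)[X]) = Polynomial.monomial 1 1 := rfl
  rw [this, wS_monomial]
  exact cSum_one_le

lemma wS_one_le : wS (1 : (MvPolynomial σ ℤ)[X]) ≤ 1 := by
  have := wS_C (σ := σ) 1
  rw [map_one] at this
  rw [this]
  exact cSum_one_le

lemma wS_mul_le (P Q : (MvPolynomial σ ℤ)[X]) : wS (P * Q) ≤ wS P * wS Q := by
  rw [Polynomial.mul_eq_sum_sum]
  refine (wS_sum_le _ _).trans ?_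
  rw [wS, Finset.sum_mul]
  apply Finset.sum_le_sum
  intro i _
  rw [Polynomial.sum_def]
  refine (wS_sum_le _ _).trans ?_
  rw [wS, Finset.mul_sum]
  apply Finset.sum_le_sum
  intro j _
  rw [wS_monomial]
  exact cSum_mul_le _ _

lemma wS_prod_le {κ : Type*} (s : Finset κ) (f : κ → (MvPolynomial σ ℤ)[X]) :
    wS (∏ x ∈ s, f x) ≤ ∏ x ∈ s, wS (f x) := by
  classical
  induction s using Finset.induction_on with
  | empty => simpa using wS_one_le
  | insert a s ha ih =>
    rw [Finset.prod_insert ha, Finset.prod_insert ha]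
    exact (wS_mul_le _ _).trans (Nat.mul_le_mul_left _ ih)

/-- All coefficients have total degree at most `d`. -/
def TD (Q : (MvPolynomial σ ℤ)[X]) (d : ℕ) : Prop := ∀ i, (Q.coeff i).totalDegree ≤ d

lemma TD.mono {Q : (MvPolynomial σ ℤ)[X]} {d e : ℕ} (h : TD Q d) (hd : d ≤ e) : TD Q e :=
  fun i => (h i).trans hd

lemma td_zero (d : ℕ) : TD (0 : (MvPolynomial σ ℤ)[X]) d := fun i => by simp

lemma td_C {a : MvPolynomial σ ℤ} {d : ℕ} (h : a.totalDegree ≤ d) : TD (Polynomial.C a) d := by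
  intro i
  rw [Polynomial.coeff_C]
  split_ifs
  · exact h
  · simp

lemma td_one (d : ℕ) : TD (1 : (MvPolynomial σ ℤ)[X]) d := by
  have := td_C (a := (1 : MvPolynomial σ ℤ)) (d := d) (by simp)
  simpa using this

lemma td_X (d : ℕ) : TD (Polynomial.X : (MvPolynomial σ ℤ)[X]) d := by
  intro i
  rw [Polynomial.coeff_X]
  split_ifs <;> simp

lemma TD.add {P Q : (MvPolynomial σ ℤ)[X]} {d : ℕ} (h : TD P d) (h' : TD Q d) : TD (P + Q) d := by
  intro i
  rw [Polynomial.coeff_add]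
  exact (MvPolynomial.totalDegree_add _ _).trans (max_le (h i) (h' i))

lemma TD.neg {P : (MvPolynomial σ ℤ)[X]} {d : ℕ} (h : TD P d) : TD (-P) d := by
  intro i
  rw [Polynomial.coeff_neg, MvPolynomial.totalDegree_neg]
  exact h i

lemma TD.sum {κ : Type*} (s : Finset κ) (f : κ → (MvPolynomial σ ℤ)[X]) {d : ℕ}
    (h : ∀ x ∈ s, TD (f x) d) : TD (∑ x ∈ s, f x) d := by
  classical
  induction s using Finset.induction_on with
  | empty => simpa using td_zero d
  | insert a s ha ih =>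
    rw [Finset.sum_insert ha]
    exact (h a (Finset.mem_insert_self a s)).add (ih fun x hx => h x (Finset.mem_insert_of_mem hx))

lemma TD.mul {P Q : (MvPolynomial σ ℤ)[X]} {d e : ℕ} (h : TD P d) (h' : TD Q e) :
    TD (P * Q) (d + e) := by
  intro i
  rw [Polynomial.coeff_mul]
  refine (MvPolynomial.totalDegree_finsetSum _ _).trans ?_
  apply Finset.sup_le
  intro x _
  exact (MvPolynomial.totalDegree_mul _ _).trans (Nat.add_le_add (h _) (h' _))

lemma TD.prod {κ : Type*} (s : Finset κ) (f : κ → (MvPolynomial σ ℤ)[X]) {d : ℕ}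
    (h : ∀ x ∈ s, TD (f x) d) : TD (∏ x ∈ s, f x) (s.card * d) := by
  classical
  induction s using Finset.induction_on with
  | empty => simpa using td_one 0
  | insert a s ha ih =>
    rw [Finset.prod_insert ha, Finset.card_insert_of_notMem ha]
    refine ((h a (Finset.mem_insert_self a s)).mul
      (ih fun x hx => h x (Finset.mem_insert_of_mem hx))).mono ?_
    ring_nf
    exact le_rfl

lemma det_size {n : ℕ} (M : Matrix (Fin n) (Fin n) (MvPolynomial σ ℤ)[X]) (d B : ℕ)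
    (h1 : ∀ i j, TD (M i j) d) (h2 : ∀ i j, wS (M i j) ≤ B) :
    TD M.det (n * d) ∧ wS M.det ≤ n.factorial * B ^ n := by
  rw [Matrix.det_apply]
  have key : ∀ τ : Equiv.Perm (Fin n), TD (Equiv.Perm.sign τ • ∏ i, M (τ i) i) (n * d) ∧
      wS (Equiv.Perm.sign τ • ∏ i, M (τ i) i) ≤ B ^ n := by
    intro τ
    have e1 : TD (∏ i, M (τ i) i) (n * d) := by
      have := TD.prod (Finset.univ : Finset (Fin n)) (fun i => M (τ i) i) (d := d)
        (fun i _ => h1 _ _)
      rwa [Finset.card_univ, Fintype.card_fin] at this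
    have e2 : wS (∏ i, M (τ i) i) ≤ B ^ n := by
      refine (wS_prod_le _ _).trans ?_
      calc ∏ i, wS (M (τ i) i) ≤ ∏ _i : Fin n, B := Finset.prod_le_prod' fun i _ => h2 _ _
        _ = B ^ n := by rw [Finset.prod_const, Finset.card_univ, Fintype.card_fin]
    rcases Int.units_eq_one_or (Equiv.Perm.sign τ) with h | h
    · rw [h, one_smul]; exact ⟨e1, e2⟩
    · rw [h, Units.neg_smul, one_smul, wS_neg]; exact ⟨e1.neg, e2⟩
  refine ⟨TD.sum _ _ fun τ _ => (key τ).1, (wS_sum_le _ _).trans ?_⟩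
  calc ∑ τ : Equiv.Perm (Fin n), wS (Equiv.Perm.sign τ • ∏ i, M (τ i) i)
      ≤ ∑ _τ : Equiv.Perm (Fin n), B ^ n := Finset.sum_le_sum fun τ _ => (key τ).2
    _ = n.factorial * B ^ n := by
      rw [Finset.sum_const, Finset.card_univ, Fintype.card_perm, Fintype.card_fin, smul_eq_mul]

end Size

theorem specEng : SpecEng := by
  refine ⟨4, fun σ D n M hD hn hM i => ?_⟩
  classical
  -- a natural bound for the entries
  obtain ⟨B, hB⟩ : ∃ B : ℕ, B = ⌊Real.exp (D : ℝ)⌋₊ := ⟨_, rfl⟩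
  have hBle : (B : ℝ) ≤ Real.exp D := by
    rw [hB]; exact Nat.floor_le (Real.exp_pos _).le
  have hMB : ∀ i j, L3.cSum (M i j) ≤ B := by
    intro i j
    rw [hB]
    exact Nat.le_floor (hM i j).2
  have h1 : ∀ i j, TD (M.charmatrix i j) D := by
    intro i j
    rw [Matrix.charmatrix_apply]
    rw [sub_eq_add_neg]
    refine TD.add ?_ (td_C (hM i j).1).neg
    by_cases hij : i = j
    · subst hij
      rw [Matrix.diagonal_apply_eq]
      exact td_X D
    · rw [Matrix.diagonal_apply_ne _ hij]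
      exact td_zero D
  have h2 : ∀ i j, wS (M.charmatrix i j) ≤ 1 + B := by
    intro i j
    rw [Matrix.charmatrix_apply, sub_eq_add_neg]
    refine (wS_add_le _ _).trans ?_
    rw [wS_neg, wS_C]
    refine Nat.add_le_add ?_ (hMB i j)
    by_cases hij : i = j
    · subst hij
      rw [Matrix.diagonal_apply_eq]
      exact wS_X_le
    · rw [Matrix.diagonal_apply_ne _ hij, wS_zero]
      exact Nat.zero_le _
  obtain ⟨h3, h4⟩ := det_size M.charmatrix D (1 + B) h1 h2
  have hchar : M.charpoly = M.charmatrix.det := rfl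
  rw [hchar]
  have hDr : (2 : ℝ) ≤ D := by exact_mod_cast hD
  have hnr : (n : ℝ) ≤ D := by exact_mod_cast hn
  refine ⟨(h3 i).trans ?_, ?_⟩
  · calc n * D ≤ D * D := Nat.mul_le_mul_right _ hn
      _ = D ^ 2 := by ring
      _ ≤ D ^ 4 := Nat.pow_le_pow_right (by omega) (by omega)
  · have h5 : (L3.cSum (M.charmatrix.det.coeff i) : ℝ) ≤ ((n.factorial * (1 + B) ^ n : ℕ) : ℝ) := by
      exact_mod_cast (cSum_coeff_le _ i).trans h4
    refine h5.trans ?_
    have h6 : (n.factorial : ℝ) ≤ Real.exp (D * D) := by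
      calc (n.factorial : ℝ) ≤ (n : ℝ) ^ n := by exact_mod_cast Nat.factorial_le_pow n
        _ ≤ (Real.exp D) ^ n := by
            apply pow_le_pow_left₀ (by positivity)
            linarith [Real.add_one_le_exp (D : ℝ)]
        _ = Real.exp (n * D) := by rw [← Real.exp_nat_mul]
        _ ≤ _ := by
            apply Real.exp_le_exp.2
            nlinarith
    have h7 : (1 + (B : ℝ)) ^ n ≤ Real.exp (D * (D + 1)) := by
      calc (1 + (B : ℝ)) ^ n ≤ (Real.exp (D + 1)) ^ n := by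
            apply pow_le_pow_left₀ (by positivity)
            have e1 : (1 : ℝ) ≤ Real.exp D := Real.one_le_exp (by positivity)
            have e2 : (2 : ℝ) ≤ Real.exp 1 := by linarith [Real.add_one_le_exp (1 : ℝ)]
            rw [Real.exp_add]
            nlinarith
        _ = Real.exp (n * (D + 1)) := by rw [← Real.exp_nat_mul]
        _ ≤ _ := by
            apply Real.exp_le_exp.2
            nlinarith
    push_cast
    calc (n.factorial : ℝ) * (1 + (B : ℝ)) ^ n ≤ Real.exp (D * D) * Real.exp (D * (D + 1)) :=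
          mul_le_mul h6 h7 (by positivity) (by positivity)
      _ = Real.exp (D * D + D * (D + 1)) := by rw [← Real.exp_add]
      _ ≤ _ := by
          apply Real.exp_le_exp.2
          have : (D : ℝ) * D + D * (D + 1) ≤ 4 * D ^ 2 := by nlinarith
          have h8 : (4 : ℝ) * D ^ 2 ≤ D ^ 4 := by
            have : (4 : ℝ) ≤ D ^ 2 := by nlinarith
            nlinarith [sq_nonneg (D : ℝ)]
          linarith

end Pool.Agent.Lib.MP_47914d_nt.Hp
end

section
/-!
PER: persistence of algebraic relations (MP_47914d_nt).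
-/
set_option autoImplicit false

open Complex Filter Topology Polynomial Finset

namespace Pool.Agent.Lib.MP_47914d_nt.Hp.As

lemma algX_mono {x : Fin 2 → ℂ} {ξ : ℂ} {D E : ℕ} (h : AlgX x ξ D) (hDE : D ≤ E) : AlgX x ξ E := by
  obtain ⟨p, h1, ⟨i0, hi0, hne⟩, h3⟩ := h
  refine ⟨fun i => if i ≤ D then p i else 0, ?_, ⟨i0, hi0.trans hDE, ?_⟩, ?_⟩
  · intro i
    dsimp only
    split_ifs
    · exact (h1 i).mono hDE
    · exact sz_zero E
  · dsimp only
    rw [if_pos hi0]
    exact hne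
  · rw [← h3]
    symm
    refine Eq.trans ?_ (Finset.sum_subset (range_subset_range.2 (by omega : D + 1 ≤ E + 1)) ?_)
    · refine Finset.sum_congr rfl fun i hi => ?_
      rw [mem_range] at hi
      dsimp only
      rw [if_pos (by omega)]
    · intro i _ hi
      rw [mem_range] at hi
      dsimp only
      rw [if_neg (by omega)]
      simp

/-- The coordinates themselves. -/
lemma algX_coord (x : Fin 2 → ℂ) (k : Fin 2) : AlgX x (x k) 1 := by
  refine ⟨fun i => if i = 0 then -MvPolynomial.X k else if i = 1 then 1 else 0, ?_,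
    ⟨1, le_rfl, by simp⟩, ?_⟩
  · intro i
    dsimp only
    split_ifs
    · have h := sz_X (σ := Fin 2) k (D := 1) le_rfl
      refine ⟨?_, ?_⟩
      · rw [MvPolynomial.totalDegree_neg]; exact h.1
      · rw [Hk.cSum_neg]; exact h.2
    · exact sz_one 1
    · exact sz_zero 1
  · simp [Finset.sum_range_succ]

/-- Growth of exponentials. -/
lemma grow_exp (C : ℝ) (A : ℕ) : ∀ᶠ H : ℕ in atTop,
    C * (H : ℝ) ^ 2 * Real.exp (-(H : ℝ) ^ (A + 1)) + Real.exp (-(H : ℝ) ^ (A + 1)) <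
      Real.exp (-(H : ℝ) ^ A) := by
  obtain ⟨m, hm⟩ := exists_nat_gt (|C| + 1)
  filter_upwards [eventually_ge_atTop (48 * m + 48)] with H hH
  have hHr : (48 : ℝ) * m + 48 ≤ H := by exact_mod_cast hH
  have hm0 : (0 : ℝ) ≤ m := Nat.cast_nonneg _
  have hC : C ≤ |C| := le_abs_self C
  have hC0 : 0 ≤ |C| := abs_nonneg C
  have hH1 : (1 : ℝ) ≤ H := by linarith
  have h1 : (H : ℝ) ^ A + ((H : ℝ) - 1) ≤ (H : ℝ) ^ (A + 1) := by
    have h2 : 1 ≤ (H : ℝ) ^ A := one_le_pow₀ hH1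
    rw [pow_succ]
    nlinarith
  have h3 : C * (H : ℝ) ^ 2 + 1 < Real.exp ((H : ℝ) - 1) := by
    have h4 := Real.pow_div_factorial_le_exp ((H : ℝ) - 1) (by linarith) 3
    have h5 : ((Nat.factorial 3 : ℕ) : ℝ) = 6 := by norm_num [Nat.factorial]
    rw [h5] at h4
    have h6 : (H : ℝ) / 2 ≤ H - 1 := by linarith
    have h7 : ((H : ℝ) / 2) ^ 3 ≤ ((H : ℝ) - 1) ^ 3 := pow_le_pow_left₀ (by linarith) h6 3
    have h8 : (m : ℝ) * (H : ℝ) ^ 2 + (H : ℝ) ^ 2 ≤ (H : ℝ) ^ 3 / 48 := by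
      have : (m : ℝ) + 1 ≤ (H : ℝ) / 48 := by linarith
      nlinarith [sq_nonneg (H : ℝ)]
    have h9 : (1 : ℝ) ≤ (H : ℝ) ^ 2 := one_le_pow₀ hH1
    have h10 : C * (H : ℝ) ^ 2 < m * (H : ℝ) ^ 2 := by
      have : C < m := by linarith
      nlinarith
    nlinarith
  have h11 : Real.exp (-(H : ℝ) ^ (A + 1)) * Real.exp ((H : ℝ) - 1) ≤ Real.exp (-(H : ℝ) ^ A) := by
    rw [← Real.exp_add]
    exact Real.exp_le_exp.mpr (by linarith)
  have h12 : 0 < Real.exp (-(H : ℝ) ^ (A + 1)) := Real.exp_pos _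
  nlinarith

lemma exp_lt_one_div (C : ℝ) : ∀ᶠ H : ℕ in atTop, C * Real.exp (-(H : ℝ)) < 1 := by
  obtain ⟨m, hm⟩ := exists_nat_gt (|C| + 1)
  filter_upwards [eventually_ge_atTop m] with H hH
  have hHr : (m : ℝ) ≤ H := by exact_mod_cast hH
  have h1 := Real.add_one_le_exp (H : ℝ)
  have hC : C ≤ |C| := le_abs_self C
  have h2 : C < Real.exp (H : ℝ) := by linarith
  rw [Real.exp_neg, mul_inv_lt_iff₀ (Real.exp_pos _)]
  linarith

/-- The persistence of relations. -/
theorem per (hN : SpecNrm) (hPt : SpecPts) {n : ℕ} (z : Fin (n + 1) → ℂ)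
    (him : ∀ i, 0 < (z i).im) (Hs : ℕ → ℕ) (U : Ultrafilter ℕ) (b : ℕ → ℂ) (κ : ℕ → Fin n → ℂ)
    (hH : Tendsto Hs (U : Filter ℕ) atTop) (hb : KeySeq (z 0) Hs U b)
    (hs : ∀ v i, Hk.SpecialPt (z 0) (κ v i) (Hs v))
    (hκ : ∀ A : ℕ, ∀ᶠ v in (U : Filter ℕ), ∀ i, ‖κ v i - z i.succ‖ < Real.exp (-(Hs v : ℝ) ^ A)) :
    ∃ κ' : ℕ → Fin n → ℂ,
      (∀ᶠ v in (U : Filter ℕ), ∀ i, Hk.SpecialPt (b v) (κ' v i) (Hs v)) ∧
      Tendsto (fun v => (Fin.cons (b v) (κ' v) : Fin (n + 1) → ℂ)) (U : Filter ℕ) (𝓝 z) ∧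
      ∀ P : MvPolynomial (Fin (n + 1) ⊕ Fin (n + 1)) ℤ, MvPolynomial.aeval (ptf z) P = 0 →
        ∀ᶠ v in (U : Filter ℕ),
          MvPolynomial.aeval (ptf (Fin.cons (b v) (κ' v) : Fin (n + 1) → ℂ)) P = 0 := by
  classical
  obtain ⟨C, hC1, hC⟩ := move (him 0)
  have hex : ∀ v i, ∃ κ' : ℂ, ‖b v - z 0‖ ≤ (z 0).im / 2 → Hk.SpecialPt (b v) κ' (Hs v) ∧
      ‖κ' - κ v i‖ ≤ C * (Hs v : ℝ) ^ 2 * ‖b v - z 0‖ := by
    intro v i
    by_cases h : ‖b v - z 0‖ ≤ (z 0).im / 2
    · obtain ⟨κ', h1, h2⟩ := hC (b v) (κ v i) (Hs v) h (hs v i)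
      exact ⟨κ', fun _ => ⟨h1, h2⟩⟩
    · exact ⟨0, fun h' => absurd h' h⟩
  choose κ' hκ' using hex
  set y : ℕ → Fin (n + 1) → ℂ := fun v => Fin.cons (b v) (κ' v) with hy
  have hH2 : ∀ᶠ v in (U : Filter ℕ), 2 ≤ Hs v := hH.eventually (eventually_ge_atTop 2)
  have hnear : ∀ᶠ v in (U : Filter ℕ), ‖b v - z 0‖ ≤ (z 0).im / 2 := by
    have h1 := hH.eventually (exp_small (s := 1) one_pos (half_pos (him 0)))
    filter_upwards [h1, hb.near 1] with v h2 h3
    rw [Real.rpow_one] at h2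
    rw [pow_one] at h3
    linarith
  have hsp : ∀ᶠ v in (U : Filter ℕ), ∀ i, Hk.SpecialPt (b v) (κ' v i) (Hs v) := by
    filter_upwards [hnear] with v hv i
    exact (hκ' v i hv).1
  have hcl : ∀ A : ℕ, ∀ᶠ v in (U : Filter ℕ), ∀ i, ‖y v i - z i‖ < Real.exp (-(Hs v : ℝ) ^ A) := by
    intro A
    filter_upwards [hnear, hb.near (A + 1), hκ (A + 1), hH.eventually (grow_exp C A), hb.near A]
      with v h1 h2 h3 h4 h5 i
    induction i using Fin.cases with
    | zero => exact h5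
    | succ i =>
      have h6 := (hκ' v i h1).2
      have h7 : y v i.succ - z i.succ = (κ' v i - κ v i) + (κ v i - z i.succ) := by
        simp [hy]
      rw [h7]
      have h8 := norm_add_le (κ' v i - κ v i) (κ v i - z i.succ)
      have h9 := h3 i
      have h10 : C * (Hs v : ℝ) ^ 2 * ‖b v - z 0‖ ≤
          C * (Hs v : ℝ) ^ 2 * Real.exp (-(Hs v : ℝ) ^ (A + 1)) :=
        mul_le_mul_of_nonneg_left h2.le (by positivity)
      linarith
  have hlim : Tendsto y (U : Filter ℕ) (𝓝 z) := by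
    rw [Metric.tendsto_nhds]
    intro ε hε
    filter_upwards [hcl 1, hH.eventually (exp_small (s := 1) one_pos hε)] with v h1 h2
    rw [dist_pi_lt_iff hε]
    intro i
    rw [Complex.dist_eq]
    rw [Real.rpow_one] at h2
    have h3 := h1 i
    rw [pow_one] at h3
    exact h3.trans h2
  refine ⟨κ', hsp, hlim, fun P hP => ?_⟩
  -- the imaginary parts
  have himy : ∀ᶠ v in (U : Filter ℕ), ∀ i, 0 < (y v i).im := by
    rw [Filter.eventually_all]
    intro i
    have h1 : Tendsto (fun v => y v i) (U : Filter ℕ) (𝓝 (z i)) :=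
      ((continuous_apply i).tendsto z).comp hlim
    exact h1.eventually ((isOpen_lt continuous_const Complex.continuous_im).mem_nhds (him i))
  -- Lipschitz bound
  obtain ⟨L, hLip⟩ := ((ptf_diff specJ him P).isBigO_sub).bound
  simp only [hP, sub_zero] at hLip
  have hLv := hlim.eventually hLip
  -- bounds
  have hbd : ∀ᶠ v in (U : Filter ℕ), ∀ i, ‖(![b v, Jc (b v)] : Fin 2 → ℂ) i‖ ≤ Hs v := by
    have h0 : Tendsto b (U : Filter ℕ) (𝓝 (z 0)) := by
      have := ((continuous_apply (0 : Fin (n + 1))).tendsto z).comp hlim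
      exact this
    have hJ : Tendsto (fun v => Jc (b v)) (U : Filter ℕ) (𝓝 (Jc (z 0))) := by
      have h1 : ContinuousAt Jc (z 0) := (specJ.holo.differentiableAt
        ((isOpen_lt continuous_const Complex.continuous_im).mem_nhds (him 0))).continuousAt
      exact h1.tendsto.comp h0
    obtain ⟨m, hm⟩ := exists_nat_gt (‖z 0‖ + ‖Jc (z 0)‖ + 1)
    have h1 := (Metric.tendsto_nhds.1 h0) 1 one_pos
    have h2 := (Metric.tendsto_nhds.1 hJ) 1 one_pos
    filter_upwards [h1, h2, hH.eventually (eventually_ge_atTop m)] with v h3 h4 h5 i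
    have h6 : (m : ℝ) ≤ Hs v := by exact_mod_cast h5
    rw [dist_eq_norm] at h3 h4
    have h7 := norm_le_norm_add_norm_sub' (b v) (z 0)
    have h8 := norm_le_norm_add_norm_sub' (Jc (b v)) (Jc (z 0))
    have h9 := norm_nonneg (z 0)
    have h10 := norm_nonneg (Jc (z 0))
    fin_cases i
    · show ‖b v‖ ≤ Hs v
      linarith
    · show ‖Jc (b v)‖ ≤ Hs v
      linarith
  obtain ⟨cp, hcp⟩ := hPt
  have e : (Fin (n + 1) ⊕ Fin (n + 1)) ≃ Fin (Fintype.card (Fin (n + 1) ⊕ Fin (n + 1))) :=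
    Fintype.equivFin _
  obtain ⟨c, hc⟩ := hN (Fintype.card (Fin (n + 1) ⊕ Fin (n + 1)))
  obtain ⟨B, hB⟩ := hb.meas ((cp + 1) * c)
  have hszP : ∀ᶠ v in (U : Filter ℕ), Sz (MvPolynomial.rename e P) (Hs v ^ (cp + 1)) := by
    have h1 : Sz (MvPolynomial.rename e P) ((MvPolynomial.rename e P).totalDegree +
        L3.cSum (MvPolynomial.rename e P)) := by
      refine ⟨Nat.le_add_right _ _, ?_⟩
      have h2 := Real.add_one_le_exp ((((MvPolynomial.rename e P).totalDegree +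
        L3.cSum (MvPolynomial.rename e P) : ℕ)) : ℝ)
      push_cast at h2 ⊢
      have h3 : (0 : ℝ) ≤ (MvPolynomial.rename e P).totalDegree := Nat.cast_nonneg _
      linarith
    filter_upwards [hH.eventually (eventually_ge_atTop ((MvPolynomial.rename e P).totalDegree +
        L3.cSum (MvPolynomial.rename e P)))] with v hv
    exact h1.mono (hv.trans (Nat.le_self_pow (by omega) _))
  filter_upwards [hH2, hsp, himy, hLv, hbd, hB, hszP, hcl (max B ((cp + 1) * c) + 2),
    hH.eventually (grow_exp |L| (max B ((cp + 1) * c) + 1)), hH.eventually (eventually_ge_atTop 3)]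
    with v h1 h2 h3 h4 h5 h6 h7 h8 h9 hH3
  have hHv0 : 0 < Hs v := by omega
  have hHr : (3 : ℝ) ≤ (Hs v : ℝ) := by exact_mod_cast hH3
  have hH1' : 2 ≤ Hs v ^ (cp + 1) := h1.trans (Nat.le_self_pow (by omega) _)
  have hcc : Hs v ^ cp ≤ Hs v ^ (cp + 1) := Nat.pow_le_pow_right hHv0 (by omega)
  have hone : 1 ≤ Hs v ^ (cp + 1) := by omega
  have hall : ∀ o : Fin (n + 1) ⊕ Fin (n + 1), AlgX ![b v, Jc (b v)] (ptf (y v) o)
      (Hs v ^ (cp + 1)) := by
    rintro (i | i)
    · induction i using Fin.cases with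
      | zero => exact algX_mono (algX_coord ![b v, Jc (b v)] 0) hone
      | succ i =>
        exact algX_mono ((hcp (Hs v) h1 (b v) (κ' v i) (h3 0) (h3 i.succ) (h2 i)).1) hcc
    · induction i using Fin.cases with
      | zero => exact algX_mono (algX_coord ![b v, Jc (b v)] 1) hone
      | succ i =>
        exact algX_mono ((hcp (Hs v) h1 (b v) (κ' v i) (h3 0) (h3 i.succ) (h2 i)).2) hcc
  have hren : MvPolynomial.aeval (fun k => ptf (y v) (e.symm k)) (MvPolynomial.rename e P) =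
      MvPolynomial.aeval (ptf (y v)) P := by
    rw [MvPolynomial.aeval_rename]
    congr 2
    funext o
    simp
  have hδ : Real.exp (-(Hs v : ℝ) ^ B) ≤ 1 := by
    rw [Real.exp_le_one_iff]
    have : (0 : ℝ) ≤ (Hs v : ℝ) ^ B := by positivity
    linarith
  rcases hc (Hs v ^ (cp + 1)) hH1' ![b v, Jc (b v)]
    (fun i => (h5 i).trans (by exact_mod_cast Nat.le_self_pow (by omega : cp + 1 ≠ 0) (Hs v)))
    (fun k => ptf (y v) (e.symm k)) (fun k => hall (e.symm k)) (MvPolynomial.rename e P) h7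
    (Real.exp (-(Hs v : ℝ) ^ B)) (Real.exp_pos _) hδ
    (fun R hR => h6 R (by rw [pow_mul]; exact hR)) with h10 | h10
  · rw [hren] at h10
    exact h10
  · rw [hren] at h10
    exfalso
    have hnorm : ‖y v - z‖ ≤ Real.exp (-(Hs v : ℝ) ^ (max B ((cp + 1) * c) + 2)) := by
      rw [pi_norm_le_iff_of_nonneg (Real.exp_pos _).le]
      intro i
      exact (h8 i).le
    set M := max B ((cp + 1) * c) with hM
    have h11 : Real.exp (-(Hs v : ℝ) ^ (M + 1)) ≤
        Real.exp (-(Hs v : ℝ) ^ B) * Real.exp (-(((Hs v ^ (cp + 1) : ℕ) : ℝ)) ^ c) := by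
      rw [← Real.exp_add]
      apply Real.exp_le_exp.mpr
      have e1 : (((Hs v ^ (cp + 1) : ℕ) : ℝ)) ^ c = (Hs v : ℝ) ^ ((cp + 1) * c) := by
        push_cast; rw [← pow_mul]
      rw [e1]
      have e2 : (Hs v : ℝ) ^ B ≤ (Hs v : ℝ) ^ M := pow_le_pow_right₀ (by linarith) (le_max_left _ _)
      have e3 : (Hs v : ℝ) ^ ((cp + 1) * c) ≤ (Hs v : ℝ) ^ M :=
        pow_le_pow_right₀ (by linarith) (le_max_right _ _)
      have e4 : (Hs v : ℝ) ^ (M + 1) = (Hs v : ℝ) ^ M * Hs v := pow_succ _ _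
      have e5 : 0 < (Hs v : ℝ) ^ M := by positivity
      rw [e4]
      nlinarith
    have h12 : ‖MvPolynomial.aeval (ptf (y v)) P‖ ≤
        |L| * Real.exp (-(Hs v : ℝ) ^ (M + 2)) := by
      refine h4.trans ?_
      have h13 : L * ‖y v - z‖ ≤ |L| * ‖y v - z‖ :=
        mul_le_mul_of_nonneg_right (le_abs_self L) (norm_nonneg _)
      exact h13.trans (mul_le_mul_of_nonneg_left hnorm (abs_nonneg _))
    have h14 : |L| * Real.exp (-(Hs v : ℝ) ^ (M + 2)) ≤
        |L| * (Hs v : ℝ) ^ 2 * Real.exp (-(Hs v : ℝ) ^ (M + 1 + 1)) := by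
      have h15 : (1 : ℝ) ≤ (Hs v : ℝ) ^ 2 := one_le_pow₀ (by linarith)
      have h16 : |L| ≤ |L| * (Hs v : ℝ) ^ 2 := le_mul_of_one_le_right (abs_nonneg _) h15
      exact mul_le_mul_of_nonneg_right h16 (Real.exp_pos _).le
    have h17 := Real.exp_pos (-(Hs v : ℝ) ^ (M + 1 + 1))
    linarith

end Pool.Agent.Lib.MP_47914d_nt.Hp.As
end

section
/-!
The modular Schanuel conjecture near the Hecke orbit of an arbitrary point: assembly
(MP_47914d_nt).
-/
set_option autoImplicit false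

open Complex Filter Topology Polynomial Finset

namespace Pool.Agent.Lib.MP_47914d_nt.Hp.As

theorem main (hN : SpecNrm) (hPt : SpecPts) (hK : SpecKey) {n : ℕ} (hn : 0 < n)
    (z : Fin (n + 1) → ℂ) (him : ∀ i, 0 < (z i).im)
    (hcm : ∀ i, ¬ ∃ a b c : ℤ, (a ≠ 0 ∨ b ≠ 0 ∨ c ≠ 0) ∧
      (a : ℂ) * z i ^ 2 + (b : ℂ) * z i + (c : ℂ) = 0)
    (hne : ∀ i k, i ≠ k → ¬ ∃ a b c d : ℚ, 0 < a * d - b * c ∧
      z k * ((c : ℂ) * z i + (d : ℂ)) = (a : ℂ) * z i + (b : ℂ))
    (happ : ∀ A H₀ : ℕ, ∃ H : ℕ, H₀ ≤ H ∧ ∃ κ : Fin n → ℂ, ∀ i, Hk.SpecialPt (z 0) (κ i) H ∧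
      ‖κ i - z i.succ‖ < Real.exp (-(H : ℝ) ^ A)) :
    ∃ w : Fin (n + 2) → Fin (n + 1) ⊕ Fin (n + 1),
      AlgebraicIndependent ℚ (fun m => ptf z (w m)) := by
  choose Hs hHs κ hκ using fun v : ℕ => happ v (v + 1)
  set U : Ultrafilter ℕ := Filter.hyperfilter ℕ with hU
  have hUle : (U : Filter ℕ) ≤ atTop := by
    rw [← Nat.cofinite_eq_atTop]
    exact Filter.hyperfilter_le_cofinite
  have hH : Tendsto Hs (U : Filter ℕ) atTop := by
    have h1 : Tendsto Hs atTop atTop :=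
      tendsto_atTop_mono (fun m => (Nat.le_succ m).trans (hHs m)) tendsto_id
    exact h1.mono_left hUle
  obtain ⟨b, hb⟩ := hK (z 0) Hs U (him 0) (hcm 0) hH
  have hnear : ∀ A : ℕ, ∀ᶠ v in (U : Filter ℕ), ∀ i,
      ‖κ v i - z i.succ‖ < Real.exp (-(Hs v : ℝ) ^ A) := by
    intro A
    filter_upwards [hUle (eventually_ge_atTop A)] with v hv i
    exact ((hκ v i).2).trans_le (exp_pow_mono (by have := hHs v; omega) hv)
  obtain ⟨κ', h1, h2, h3⟩ := per hN hPt z him Hs U b κ hH hb (fun v i => (hκ v i).1) hnear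
  exact main_step hn U (fun v => Fin.cons (b v) (κ' v)) z him h2 hcm hne h3
    (not_const hcm hne h1)

end Pool.Agent.Lib.MP_47914d_nt.Hp.As
end

section
/-!
H+ (MP_47914d_nt), module KEY: a sequence very close to `a` along which the points `(b, j(b))`
have a measure.
-/
set_option autoImplicit false

open Complex Filter Topology Polynomial Finset

namespace Pool.Agent.Lib.MP_47914d_nt.Hp

lemma Sz.monoK {σ : Type} {P : MvPolynomial σ ℤ} {D E : ℕ} (h : Sz P D) (hDE : D ≤ E) : Sz P E :=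
  ⟨h.1.trans hDE, h.2.trans (Real.exp_le_exp.mpr (by exact_mod_cast hDE))⟩

lemma quadHeight_mono' {κ : ℂ} {H K : ℕ} (h : QuadHeight κ H) (hHK : H ≤ K) : QuadHeight κ K := by
  obtain ⟨a, b, c, h1, h2, h3, h4, h5⟩ := h
  have h6 : (H : ℤ) ≤ K := by exact_mod_cast hHK
  exact ⟨a, b, c, h1, h2.trans h6, h3.trans h6, h4.trans h6, h5⟩

/-- A diagonal argument along an ultrafilter. -/
lemma diag {α : Type} [Nonempty α] {U : Ultrafilter ℕ}
    (hge : ∀ m : ℕ, ∀ᶠ v in (U : Filter ℕ), m ≤ v) {P : ℕ → α → ℕ → Prop}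
    (hanti : ∀ v b A B, A ≤ B → P v b B → P v b A)
    (h : ∀ A, ∀ᶠ v in (U : Filter ℕ), ∃ b, P v b A) :
    ∃ b : ℕ → α, ∀ A, ∀ᶠ v in (U : Filter ℕ), P v (b v) A := by
  classical
  have hex : ∀ v, ∃ b : α, ∀ A ≤ v, (∃ b', P v b' A) → P v b A := by
    intro v
    by_cases hv : ∃ A ≤ v, ∃ b', P v b' A
    · obtain ⟨A₀, hA₀, hb₀⟩ := hv
      have hA : ∃ b', P v b' (Nat.findGreatest (fun A => ∃ b', P v b' A) v) :=
        Nat.findGreatest_spec (P := fun A => ∃ b', P v b' A) hA₀ hb₀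
      obtain ⟨b, hb⟩ := hA
      exact ⟨b, fun B hB hB' => hanti v b B _ (Nat.le_findGreatest hB hB') hb⟩
    · exact ⟨Classical.arbitrary α, fun A hA hb => (hv ⟨A, hA, hb⟩).elim⟩
  choose b hb using hex
  exact ⟨b, fun A => by filter_upwards [hge A, h A] with v h1 h2; exact hb v A h1 h2⟩

lemma grow2 (K : ℝ) (M A : ℕ) :
    ∀ᶠ H : ℕ in atTop, K + (H : ℝ) ^ M + (H : ℝ) ^ A < (H : ℝ) ^ (M + A + 2) := by
  filter_upwards [Hk.growS K (M + A + 1), eventually_ge_atTop 2] with H h1 h2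
  have h3 : (2 : ℝ) ≤ H := by exact_mod_cast h2
  have h4 : (H : ℝ) ^ M ≤ (H : ℝ) ^ (M + A) := pow_le_pow_right₀ (by linarith) (by omega)
  have h5 : (H : ℝ) ^ A ≤ (H : ℝ) ^ (M + A) := pow_le_pow_right₀ (by linarith) (by omega)
  have h6 : 2 * (H : ℝ) ^ (M + A) ≤ (H : ℝ) ^ (M + A + 1) := by
    rw [pow_succ]
    have : 0 ≤ (H : ℝ) ^ (M + A) := by positivity
    nlinarith
  have h7 : M + A + 1 + 1 = M + A + 2 := by omega
  rw [h7] at h1
  linarith

/-- The measure of a CM point of bounded height. -/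
lemma cm_meas (C A : ℕ) : ∃ B : ℕ, ∀ H : ℕ, 2 ≤ H → ∀ b : ℂ, 0 < b.im → QuadHeight b (H ^ C) →
    ∀ R : MvPolynomial (Fin 2) ℤ, Sz R (H ^ A) → vj R b = 0 ∨
      Real.exp (-(H : ℝ) ^ B) ≤ ‖vj R b‖ := by
  obtain ⟨c, hc⟩ := Hk.specCMB
  obtain ⟨c₁, hc₁⟩ := Sn.specLiou
  refine ⟨(C + 1) * (c + 1) * c₁ + (A + 2), fun H hH b hb hq R hR => ?_⟩
  have hH1 : 1 ≤ H := by omega
  have hHr : (2 : ℝ) ≤ H := by exact_mod_cast hH
  have h2 : 2 ≤ H ^ (C + 1) := hH.trans (Nat.le_self_pow (by omega) H)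
  obtain ⟨h3, h4⟩ := hc _ h2 b hb (quadHeight_mono' hq (Nat.pow_le_pow_right hH1 (by omega)))
  have h5 : (H ^ (C + 1)) ^ c ≤ H ^ ((C + 1) * (c + 1)) := by
    rw [← pow_mul]
    exact Nat.pow_le_pow_right hH1 (Nat.mul_le_mul_left _ (by omega))
  have h6 : 2 ≤ H ^ ((C + 1) * (c + 1)) :=
    hH.trans (Nat.le_self_pow (Nat.mul_ne_zero (by omega) (by omega)) H)
  have h7 := hc₁ (H ^ ((C + 1) * (c + 1))) (H ^ A) ((H ^ A : ℕ) : ℝ) h6 (by positivity) b (Jc b)
    (Hk.CMB.algB_mono h3 h5) (Hk.CMB.algB_mono h4 h5) R hR.1 hR.2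
  rcases h7 with h7 | h7
  · exact Or.inl h7
  · refine Or.inr (le_trans (Real.exp_le_exp.mpr (neg_le_neg ?_)) h7)
    push_cast
    have h8 : 1 ≤ (H : ℝ) ^ A := one_le_pow₀ (by linarith)
    have h9 : (H : ℝ) ^ A + (H : ℝ) ^ A + 1 ≤ (H : ℝ) ^ (A + 2) := by
      have h10 : (4 : ℝ) ≤ (H : ℝ) ^ 2 := by nlinarith
      rw [pow_add]
      nlinarith [mul_le_mul_of_nonneg_left h10 (show (0 : ℝ) ≤ (H : ℝ) ^ A by positivity)]
    calc ((H : ℝ) ^ ((C + 1) * (c + 1))) ^ c₁ * ((H : ℝ) ^ A + (H : ℝ) ^ A + 1)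
        ≤ ((H : ℝ) ^ ((C + 1) * (c + 1))) ^ c₁ * (H : ℝ) ^ (A + 2) :=
          mul_le_mul_of_nonneg_left h9 (by positivity)
      _ = (H : ℝ) ^ ((C + 1) * (c + 1) * c₁ + (A + 2)) := by
          rw [← pow_mul, ← pow_add]

/-- `j` is Lipschitz near `a`. -/
lemma lipJ {a : ℂ} (ha : 0 < a.im) :
    ∃ L : ℝ, 0 ≤ L ∧ ∀ᶠ b in 𝓝 a, ‖Jc b - Jc a‖ ≤ L * ‖b - a‖ := by
  have h1 : DifferentiableAt ℂ Jc a := (specJ.holo).differentiableAt
    ((isOpen_lt continuous_const Complex.continuous_im).mem_nhds ha)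
  obtain ⟨L, hL⟩ := h1.isBigO_sub.bound
  refine ⟨max L 0, le_max_right _ _, ?_⟩
  filter_upwards [hL] with b hb
  exact hb.trans (mul_le_mul_of_nonneg_right (le_max_left _ _) (norm_nonneg _))

theorem specKey (hZj : SpecZj) (hRes : SpecRes) : SpecKey := by
  intro a Hs U ha hcm hHs
  have hH2 : ∀ᶠ v in (U : Filter ℕ), 2 ≤ Hs v := hHs.eventually (eventually_ge_atTop 2)
  have hge : ∀ m : ℕ, ∀ᶠ v in (U : Filter ℕ), m ≤ v := by
    intro m
    filter_upwards [hHs.eventually (eventually_gt_atTop ((Finset.range m).sup Hs))] with v hv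
    by_contra hlt
    have h1 : Hs v ≤ (Finset.range m).sup Hs :=
      Finset.le_sup (Finset.mem_range.2 (by omega))
    omega
  have : Nonempty {b : ℂ // 0 < b.im} := ⟨⟨a, ha⟩⟩
  have hexp : ∀ {H A B : ℕ}, 2 ≤ H → A ≤ B →
      Real.exp (-(H : ℝ) ^ B) ≤ Real.exp (-(H : ℝ) ^ A) := by
    intro H A B hH hAB
    refine Real.exp_le_exp.mpr (neg_le_neg (pow_le_pow_right₀ ?_ hAB))
    have : (2 : ℝ) ≤ H := by exact_mod_cast hH
    linarith
  by_cases h0 : ∃ C : ℕ, ∀ A : ℕ, ∀ᶠ v in (U : Filter ℕ), ∃ b : ℂ, 0 < b.im ∧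
      QuadHeight b (Hs v ^ C) ∧ ‖b - a‖ < Real.exp (-(Hs v : ℝ) ^ A)
  · -- case 0: CM points very close to `a`
    obtain ⟨C, hC⟩ := h0
    obtain ⟨b, hb⟩ := diag (α := {b : ℂ // 0 < b.im}) hge
      (P := fun v b A => 2 ≤ Hs v ∧ QuadHeight b.1 (Hs v ^ C) ∧
        ‖b.1 - a‖ < Real.exp (-(Hs v : ℝ) ^ A))
      (fun v b A B hAB h => ⟨h.1, h.2.1, h.2.2.trans_le (hexp h.1 hAB)⟩)
      (fun A => by
        filter_upwards [hH2, hC A] with v h1 h2
        obtain ⟨b, h3, h4, h5⟩ := h2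
        exact ⟨⟨b, h3⟩, h1, h4, h5⟩)
    refine ⟨fun v => (b v).1, fun v => (b v).2, fun A => (hb A).mono fun v h => h.2.2, fun A => ?_⟩
    obtain ⟨B, hB⟩ := cm_meas C A
    exact ⟨B, (hb 0).mono fun v h R hR => hB (Hs v) h.1 _ (b v).2 h.2.1 R hR⟩
  by_cases h2 : ∀ A : ℕ, ∃ B : ℕ, ∀ᶠ v in (U : Filter ℕ), ∀ R : MvPolynomial (Fin 2) ℤ,
      Sz R (Hs v ^ A) → vj R a = 0 ∨ Real.exp (-(Hs v : ℝ) ^ B) ≤ ‖vj R a‖
  · -- case 2: `a` itself
    refine ⟨fun _ => a, fun _ => ha, fun A => Eventually.of_forall fun v => ?_, h2⟩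
    rw [sub_self, norm_zero]
    exact Real.exp_pos _
  · -- case 1: zeros of small polynomials
    push Not at h2
    obtain ⟨A₀, hA₀⟩ := h2
    have hA₁ : ∀ B : ℕ, ∀ᶠ v in (U : Filter ℕ), ∃ R : MvPolynomial (Fin 2) ℤ,
        Sz R (Hs v ^ A₀) ∧ vj R a ≠ 0 ∧ ‖vj R a‖ < Real.exp (-(Hs v : ℝ) ^ B) := by
      intro B
      exact hA₀ B
    obtain ⟨p, hp⟩ := diag (α := MvPolynomial (Fin 2) ℤ × {b : ℂ // 0 < b.im}) hge
      (P := fun v p A => 2 ≤ Hs v ∧ p.1 ≠ 0 ∧ Sz p.1 (Hs v ^ A₀) ∧ vj p.1 p.2.1 = 0 ∧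
        ‖p.2.1 - a‖ < Real.exp (-(Hs v : ℝ) ^ A))
      (fun v b A B hAB h => ⟨h.1, h.2.1, h.2.2.1, h.2.2.2.1, h.2.2.2.2.trans_le (hexp h.1 hAB)⟩)
      (fun A => by
        obtain ⟨B, hB⟩ := hZj a ha (A + 1)
        filter_upwards [hH2, hA₁ ((A₀ + 1) * B)] with v hv hR
        obtain ⟨R, hR1, hR2, hR3⟩ := hR
        have hHr : (2 : ℝ) ≤ Hs v := by exact_mod_cast hv
        have hR0 : R ≠ 0 := by
          rintro rfl
          exact hR2 (by rw [vj, map_zero])
        obtain ⟨b, hb1, hb2, hb3⟩ := hB (Hs v ^ (A₀ + 1))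
          (hv.trans (Nat.le_self_pow (by omega) _)) R hR0
          (hR1.monoK (Nat.pow_le_pow_right (by omega) (by omega)))
          (hR3.le.trans (le_of_eq (by rw [pow_mul]; push_cast; rfl)))
        refine ⟨⟨R, ⟨b, hb1⟩⟩, hv, hR0, hR1, hb2, hb3.trans_lt (Real.exp_lt_exp.mpr
          (neg_lt_neg ?_))⟩
        push_cast
        rw [← pow_mul]
        refine pow_lt_pow_right₀ (by linarith) ?_
        nlinarith)
    refine ⟨fun v => (p v).2.1, fun v => (p v).2.2, fun A => (hp A).mono fun v h => h.2.2.2.2, ?_⟩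
    by_contra h4
    push Not at h4
    obtain ⟨A, hA⟩ := h4
    apply h0
    obtain ⟨c, hc⟩ := hRes
    obtain ⟨c₂, hc₂⟩ := Sn.specQS_all a ha hcm
    obtain ⟨L, hL0, hL⟩ := lipJ ha
    have hA' : ∀ B : ℕ, ∀ᶠ v in (U : Filter ℕ), ∃ R : MvPolynomial (Fin 2) ℤ,
        Sz R (Hs v ^ A) ∧ vj R (p v).2.1 ≠ 0 ∧
          ‖vj R (p v).2.1‖ < Real.exp (-(Hs v : ℝ) ^ B) := by
      intro B
      exact hA B
    -- convergence
    have hexp0 : Tendsto (fun v => Real.exp (-(Hs v : ℝ))) (U : Filter ℕ) (𝓝 0) :=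
      Real.tendsto_exp_neg_atTop_nhds_zero.comp (tendsto_natCast_atTop_atTop.comp hHs)
    have hlim : Tendsto (fun v => ((p v).2.1 : ℂ)) (U : Filter ℕ) (𝓝 a) := by
      rw [tendsto_iff_norm_sub_tendsto_zero]
      refine squeeze_zero' (Eventually.of_forall fun v => norm_nonneg _) ?_ hexp0
      filter_upwards [hp 1] with v hv
      have := hv.2.2.2.2.le
      rwa [pow_one] at this
    have hJc : ContinuousAt Jc a := ((specJ.holo).differentiableAt
      ((isOpen_lt continuous_const Complex.continuous_im).mem_nhds ha)).continuousAt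
    have hlimJ : Tendsto (fun v => Jc (p v).2.1) (U : Filter ℕ) (𝓝 (Jc a)) := hJc.tendsto.comp hlim
    obtain ⟨m, hm⟩ := exists_nat_gt (‖a‖ + ‖Jc a‖ + 1)
    have hb1 : ∀ᶠ v in (U : Filter ℕ), ‖((p v).2.1 : ℂ)‖ < m := by
      refine (hlim.norm).eventually (gt_mem_nhds ?_)
      have := norm_nonneg (Jc a)
      linarith
    have hb2 : ∀ᶠ v in (U : Filter ℕ), ‖Jc (p v).2.1‖ < m := by
      refine (hlimJ.norm).eventually (gt_mem_nhds ?_)
      have := norm_nonneg a
      linarith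
    set M := (A + A₀ + 1) * (c + 1) * c₂ with hM
    refine ⟨M, fun A' => ?_⟩
    obtain ⟨B, hB⟩ := hc (M + (A' + 1) + 2)
    have hexpa : ∀ᶠ v in (U : Filter ℕ), Real.exp (-(Hs v : ℝ)) < a.im :=
      hexp0.eventually (gt_mem_nhds ha)
    filter_upwards [hA' ((A + A₀ + 1) * B), hp (M + (A' + 1) + 2), hb1, hb2,
      hHs.eventually (eventually_ge_atTop m), hlim.eventually hL, hexpa,
      hHs.eventually (grow2 (Real.log (L + 2)) M (A' + 1))] with v hR hv h5 h6 h7 h8 h9 h10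
    obtain ⟨R, hR1, hR2, hR3⟩ := hR
    obtain ⟨hH, hf0, hf1, hf2, hf3⟩ := hv
    have hHr : (2 : ℝ) ≤ Hs v := by exact_mod_cast hH
    have hH1 : 1 ≤ Hs v := by omega
    set H := Hs v with hHdef
    set b : ℂ := (p v).2.1 with hbdef
    set D := H ^ (A + A₀ + 1) with hD
    have hD2 : 2 ≤ D := hH.trans (Nat.le_self_pow (by omega) _)
    have hHD : (H : ℝ) ≤ D := by
      rw [hD]
      exact_mod_cast Nat.le_self_pow (by omega : A + A₀ + 1 ≠ 0) H
    have hmH : (m : ℝ) ≤ H := by exact_mod_cast h7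
    obtain ⟨ξ, η, hξ, hη, h11, h12⟩ := hB D hD2 b (Jc b) (h5.le.trans (hmH.trans hHD))
      (h6.le.trans (hmH.trans hHD)) (p v).1 R hf0
      (hf1.monoK (Nat.pow_le_pow_right hH1 (by omega)))
      (hR1.monoK (Nat.pow_le_pow_right hH1 (by omega))) hf2 hR2
      (hR3.le.trans (le_of_eq (by rw [hD, pow_mul]; push_cast; rfl)))
    set E := M + (A' + 1) + 2 with hE
    have h13 : Real.exp (-(D : ℝ) ^ E) ≤ Real.exp (-(H : ℝ) ^ E) :=
      Real.exp_le_exp.mpr (neg_le_neg (pow_le_pow_left₀ (by positivity) hHD E))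
    set ε := (L + 2) * Real.exp (-(H : ℝ) ^ E) with hε
    have he0 : 0 ≤ Real.exp (-(H : ℝ) ^ E) := (Real.exp_pos _).le
    have hε1 : ‖a - ξ‖ ≤ ε := by
      have h14 : ‖a - ξ‖ ≤ ‖b - a‖ + ‖b - ξ‖ := by
        have : a - ξ = (b - ξ) - (b - a) := by ring
        rw [this]
        refine (norm_sub_le _ _).trans ?_
        linarith
      have h15 : ‖a - ξ‖ ≤ 2 * Real.exp (-(H : ℝ) ^ E) := by linarith
      refine h15.trans ?_
      rw [hε]
      nlinarith
    have hε2 : ‖Jc a - η‖ ≤ ε := by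
      have h14 : ‖Jc a - η‖ ≤ ‖Jc b - Jc a‖ + ‖Jc b - η‖ := by
        have : Jc a - η = (Jc b - η) - (Jc b - Jc a) := by ring
        rw [this]
        refine (norm_sub_le _ _).trans ?_
        linarith
      have h15 : L * ‖b - a‖ ≤ L * Real.exp (-(H : ℝ) ^ E) :=
        mul_le_mul_of_nonneg_left hf3.le hL0
      rw [hε]
      nlinarith
    have hlog : L + 2 = Real.exp (Real.log (L + 2)) := (Real.exp_log (by linarith)).symm
    have hε3 : ε = Real.exp (Real.log (L + 2) - (H : ℝ) ^ E) := by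
      rw [hε, sub_eq_add_neg, Real.exp_add, Real.exp_log (by linarith)]
    have hEp : (H : ℝ) ^ E = (H : ℝ) ^ (M + (A' + 1) + 2) := rfl
    have hMn : 0 ≤ (H : ℝ) ^ (A' + 1) := by positivity
    have hDM : ((H ^ ((A + A₀ + 1) * (c + 1)) : ℕ) : ℝ) ^ c₂ = (H : ℝ) ^ M := by
      push_cast
      rw [← pow_mul]
    have hD' : D ^ c ≤ H ^ ((A + A₀ + 1) * (c + 1)) := by
      rw [hD, ← pow_mul]
      exact Nat.pow_le_pow_right hH1 (Nat.mul_le_mul_left _ (by omega))
    have hD'2 : 2 ≤ H ^ ((A + A₀ + 1) * (c + 1)) :=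
      hH.trans (Nat.le_self_pow (Nat.mul_ne_zero (by omega) (by omega)) H)
    obtain ⟨τ, h16, h17⟩ := hc₂ (H ^ ((A + A₀ + 1) * (c + 1))) hD'2 ξ η
      (Hk.CMB.algB_mono hξ hD') (Hk.CMB.algB_mono hη hD') ε
      (by
        rw [hDM, hε3]
        refine Real.exp_le_exp.mpr ?_
        rw [hEp]
        linarith) hε1 hε2
    rw [hDM] at h16
    have h18 : ‖τ - a‖ < Real.exp (-(H : ℝ) ^ (A' + 1)) := by
      refine h16.trans_lt ?_
      have h19 : (H : ℝ) ^ M ≤ Real.exp ((H : ℝ) ^ M) := by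
        have := Real.add_one_le_exp ((H : ℝ) ^ M)
        linarith
      calc (H : ℝ) ^ M * ε ≤ Real.exp ((H : ℝ) ^ M) * ε :=
            mul_le_mul_of_nonneg_right h19 (by rw [hε3]; exact (Real.exp_pos _).le)
        _ = Real.exp ((H : ℝ) ^ M + (Real.log (L + 2) - (H : ℝ) ^ E)) := by
            rw [hε3, ← Real.exp_add]
        _ < Real.exp (-(H : ℝ) ^ (A' + 1)) := by
            refine Real.exp_lt_exp.mpr ?_
            rw [hEp]
            linarith
    refine ⟨τ, ?_, ?_, h18.trans_le (hexp hH (by omega))⟩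
    · have h20 : |(τ - a).im| ≤ ‖τ - a‖ := Complex.abs_im_le_norm _
      have h21 : Real.exp (-(H : ℝ) ^ (A' + 1)) ≤ Real.exp (-(H : ℝ)) := by
        have := hexp hH (show 1 ≤ A' + 1 by omega)
        rwa [pow_one] at this
      rw [Complex.sub_im, abs_le] at h20
      linarith [h20.1]
    · have h22 : (H ^ ((A + A₀ + 1) * (c + 1))) ^ c₂ = H ^ M := by rw [← pow_mul]
      rw [h22] at h17
      exact h17

end Pool.Agent.Lib.MP_47914d_nt.Hp
end

section
/-!
MP_47914d_nt, H+, module CORE (helper4): values of polynomials at numbers algebraic over the field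
generated by a point `x`, with bounded size, are zeros of monic polynomials with coefficients of
bounded size, up to a denominator. Adaptation of Hk/Root.lean (helper40, helper42).
-/
set_option autoImplicit false

open Complex Polynomial Finset

namespace Pool.Agent.Lib.MP_47914d_nt.Hp

open Hk

/-- `ξ` is a zero of a polynomial of degree at most `D` whose coefficients are the values at `x` of
integral polynomials of size at most `D`, and are not all zero. -/
def AlgS {σ : Type} (x : σ → ℂ) (ξ : ℂ) (D : ℕ) : Prop :=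
  ∃ p : ℕ → MvPolynomial σ ℤ, (∀ i, Sz (p i) D) ∧
    (∃ i ≤ D, MvPolynomial.aeval x (p i) ≠ 0) ∧
    ∑ i ∈ range (D + 1), MvPolynomial.aeval x (p i) * ξ ^ i = 0

lemma algX_iff (x : Fin 2 → ℂ) (ξ : ℂ) (D : ℕ) : AlgX x ξ D ↔ AlgS x ξ D := Iff.rfl

namespace Core

/-- The sum of the absolute values of the coefficients, as a real number. -/
noncomputable def l {σ : Type} (p : MvPolynomial σ ℤ) : ℝ := (L3.cSum p : ℝ)

section Basic

variable {σ ι : Type} [Fintype ι] {x : σ → ℂ} {u : ι → ℂ} {B B' : ℝ} {e e' : ℕ} {z z' : ℂ}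

lemma l_nonneg (p : MvPolynomial σ ℤ) : 0 ≤ l p := Nat.cast_nonneg _

lemma l_zero : l (0 : MvPolynomial σ ℤ) = 0 := by simp [l, cSum_zero]

lemma l_one : l (1 : MvPolynomial σ ℤ) ≤ 1 := by
  unfold l; exact_mod_cast cSum_one_le

lemma l_neg (p : MvPolynomial σ ℤ) : l (-p) = l p := by simp [l, cSum_neg]

lemma l_add_le (p q : MvPolynomial σ ℤ) : l (p + q) ≤ l p + l q := by
  unfold l; exact_mod_cast cSum_add_le p q

lemma l_mul_le (p q : MvPolynomial σ ℤ) : l (p * q) ≤ l p * l q := by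
  unfold l; exact_mod_cast cSum_mul_le p q

lemma l_sum_le {κ : Type*} (s : Finset κ) (f : κ → MvPolynomial σ ℤ) :
    l (∑ y ∈ s, f y) ≤ ∑ y ∈ s, l (f y) := by
  unfold l; exact_mod_cast cSum_sum_le s f

lemma l_C_le (g : ℤ) : l (MvPolynomial.C g : MvPolynomial σ ℤ) ≤ |(g : ℝ)| := by
  have h1 := cSum_C_le (σ := σ) g
  have h2 : ((g.natAbs : ℕ) : ℝ) = |(g : ℝ)| := by
    rw [← Int.cast_abs, Int.abs_eq_natAbs]; simp
  unfold l
  rw [← h2]
  exact_mod_cast h1

lemma l_pow_le (p : MvPolynomial σ ℤ) (k : ℕ) : l (p ^ k) ≤ l p ^ k := by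
  induction k with
  | zero => rw [pow_zero, pow_zero]; exact l_one
  | succ k ih =>
    rw [pow_succ, pow_succ]
    exact (l_mul_le _ _).trans (mul_le_mul_of_nonneg_right ih (l_nonneg p))

/-- `z * u i` is a combination of the `u j` with coefficients `c j (x)`, `c j` of total degree at
most `e` and `l (c j) ≤ B`. -/
def IBX {σ ι : Type} [Fintype ι] (x : σ → ℂ) (u : ι → ℂ) (B : ℝ) (e : ℕ) (z : ℂ) : Prop :=
  ∀ i, ∃ c : ι → MvPolynomial σ ℤ, (∀ j, (c j).totalDegree ≤ e) ∧ (∀ j, l (c j) ≤ B) ∧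
    z * u i = ∑ j, MvPolynomial.aeval x (c j) * u j

lemma IBX.mono (h : IBX x u B e z) (hB : B ≤ B') (he : e ≤ e') : IBX x u B' e' z := by
  intro i
  obtain ⟨c, h0, h1, h2⟩ := h i
  exact ⟨c, fun j => (h0 j).trans he, fun j => (h1 j).trans hB, h2⟩

lemma IBX.const (a : MvPolynomial σ ℤ) (ha : a.totalDegree ≤ e) (hB : l a ≤ B) :
    IBX x u B e (MvPolynomial.aeval x a) := by
  classical
  intro i
  refine ⟨Pi.single i a, ?_, ?_, ?_⟩
  · intro j
    by_cases h : j = i
    · subst h; simpa using ha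
    · rw [Pi.single_eq_of_ne h]; simp
  · intro j
    by_cases h : j = i
    · subst h; simpa using hB
    · rw [Pi.single_eq_of_ne h, l_zero]
      exact (l_nonneg a).trans hB
  · rw [Finset.sum_eq_single i]
    · simp
    · intro j _ hj
      rw [Pi.single_eq_of_ne hj]; simp
    · intro h; exact absurd (Finset.mem_univ i) h

lemma IBX.add (h : IBX x u B e z) (h' : IBX x u B' e z') : IBX x u (B + B') e (z + z') := by
  intro i
  obtain ⟨c, h0, h1, h2⟩ := h i
  obtain ⟨c', h0', h1', h2'⟩ := h' i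
  refine ⟨fun j => c j + c' j, ?_, ?_, ?_⟩
  · intro j
    exact (MvPolynomial.totalDegree_add _ _).trans (max_le (h0 j) (h0' j))
  · intro j
    exact (l_add_le _ _).trans (add_le_add (h1 j) (h1' j))
  · rw [add_mul, h2, h2', ← Finset.sum_add_distrib]
    apply Finset.sum_congr rfl
    intro j _
    rw [map_add]; ring

lemma IBX.mul (h : IBX x u B e z) (h' : IBX x u B' e' z') (_hB : 0 ≤ B) (hB' : 0 ≤ B') :
    IBX x u (Fintype.card ι * B * B') (e + e') (z * z') := by
  classical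
  intro i
  obtain ⟨c', h0', h1', h2'⟩ := h' i
  choose c h0 h1 h2 using h
  refine ⟨fun k => ∑ j, c' j * c j k, ?_, ?_, ?_⟩
  · intro k
    refine (MvPolynomial.totalDegree_finsetSum _ _).trans ?_
    apply Finset.sup_le
    intro j _
    refine (MvPolynomial.totalDegree_mul _ _).trans ?_
    have := h0 j k
    have := h0' j
    omega
  · intro k
    refine (l_sum_le _ _).trans ?_
    calc ∑ j, l (c' j * c j k) ≤ ∑ _j : ι, B' * B := by
          apply Finset.sum_le_sum
          intro j _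
          exact (l_mul_le _ _).trans (mul_le_mul (h1' j) (h1 j k) (l_nonneg _) hB')
      _ = Fintype.card ι * B * B' := by
          rw [Finset.sum_const, Finset.card_univ, nsmul_eq_mul]; ring
  · rw [mul_assoc, h2', Finset.mul_sum]
    have : ∀ j, z * (MvPolynomial.aeval x (c' j) * u j) =
        ∑ k, MvPolynomial.aeval x (c' j) * MvPolynomial.aeval x (c j k) * u k := by
      intro j
      rw [mul_left_comm, h2 j, Finset.mul_sum]
      apply Finset.sum_congr rfl
      intro k _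
      ring
    rw [Finset.sum_congr rfl (fun j _ => this j), Finset.sum_comm]
    apply Finset.sum_congr rfl
    intro k _
    rw [map_sum, Finset.sum_mul]
    apply Finset.sum_congr rfl
    intro j _
    rw [map_mul]

lemma IBX.pow (h : IBX x u B e z) (hB : 0 ≤ B) (k : ℕ) :
    IBX x u ((Fintype.card ι * B) ^ k) (e * k) (z ^ k) := by
  induction k with
  | zero =>
    rw [pow_zero, pow_zero]
    have := IBX.const (x := x) (u := u) (e := e * 0) (B := 1) 1 (by simp) l_one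
    simpa using this
  | succ k ih =>
    rw [pow_succ, pow_succ]
    have := ih.mul h (by positivity) hB
    have e1 : e * k + e = e * (k + 1) := by ring
    rw [e1] at this
    convert this using 1
    ring

lemma IBX.smul (h : IBX x u B e z) (g : ℤ) : IBX x u (|(g : ℝ)| * B) e ((g : ℂ) * z) := by
  intro i
  obtain ⟨c, h0, h1, h2⟩ := h i
  refine ⟨fun j => MvPolynomial.C g * c j, ?_, ?_, ?_⟩
  · intro j
    refine (MvPolynomial.totalDegree_mul _ _).trans ?_
    rw [MvPolynomial.totalDegree_C, zero_add]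
    exact h0 j
  · intro j
    refine (l_mul_le _ _).trans ?_
    exact mul_le_mul (l_C_le g) (h1 j) (l_nonneg _) (abs_nonneg _)
  · rw [mul_assoc, h2, Finset.mul_sum]
    apply Finset.sum_congr rfl
    intro j _
    rw [map_mul, MvPolynomial.aeval_C]
    simp
    ring

lemma IBX.zsum {κ : Type*} (s : Finset κ) (g : κ → ℤ) (z : κ → ℂ)
    (h : ∀ y ∈ s, IBX x u B e (z y)) :
    IBX x u ((∑ y ∈ s, |(g y : ℝ)|) * B) e (∑ y ∈ s, (g y : ℂ) * z y) := by
  classical
  induction s using Finset.induction_on with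
  | empty =>
    rw [Finset.sum_empty, Finset.sum_empty, zero_mul]
    have := IBX.const (x := x) (u := u) (e := e) (B := 0) 0 (by simp) (by rw [l_zero])
    simpa using this
  | insert a s ha ih =>
    rw [Finset.sum_insert ha, Finset.sum_insert ha, add_mul]
    exact ((h a (Finset.mem_insert_self a s)).smul (g a)).add
      (ih fun y hy => h y (Finset.mem_insert_of_mem hy))

lemma IBX.tensor {κ : Type} [Fintype κ] (v : κ → ℂ) (h : IBX x u B e z) (hB : 0 ≤ B) :
    IBX x (fun y : ι × κ => u y.1 * v y.2) B e z := by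
  classical
  rintro ⟨i, k⟩
  obtain ⟨c, h0, h1, h2⟩ := h i
  refine ⟨fun y => if y.2 = k then c y.1 else 0, ?_, ?_, ?_⟩
  · rintro ⟨j, l⟩
    dsimp only
    split_ifs
    · exact h0 j
    · simp
  · rintro ⟨j, l⟩
    dsimp only
    split_ifs
    · exact h1 j
    · rw [l_zero]; exact hB
  · dsimp only
    rw [← mul_assoc, h2, Fintype.sum_prod_type, Finset.sum_mul]
    apply Finset.sum_congr rfl
    intro j _
    rw [Finset.sum_eq_single k]
    · simp; ring
    · intro l _ hl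
      rw [if_neg hl]; simp
    · intro h; exact absurd (Finset.mem_univ k) h

lemma IBX.tensor' {κ : Type} [Fintype κ] (v : κ → ℂ) (h : IBX x u B e z) (hB : 0 ≤ B) :
    IBX x (fun y : κ × ι => v y.1 * u y.2) B e z := by
  classical
  rintro ⟨k, i⟩
  obtain ⟨c, h0, h1, h2⟩ := h i
  refine ⟨fun y => if y.1 = k then c y.2 else 0, ?_, ?_, ?_⟩
  · rintro ⟨l, j⟩
    dsimp only
    split_ifs
    · exact h0 j
    · simp
  · rintro ⟨l, j⟩
    dsimp only
    split_ifs
    · exact h1 j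
    · rw [l_zero]; exact hB
  · dsimp only
    rw [mul_left_comm, h2, Fintype.sum_prod_type, Finset.mul_sum, Finset.sum_eq_single k]
    · apply Finset.sum_congr rfl
      intro j _
      simp; ring
    · intro l _ hl
      apply Finset.sum_eq_zero
      intro j _
      rw [if_neg hl]; simp
    · intro h; exact absurd (Finset.mem_univ k) h

end Basic

/-- The relation of exact degree `H` satisfied by a number with `AlgS x ξ H`. -/
lemma algS_rel {σ : Type} {x : σ → ℂ} {ξ : ℂ} {H : ℕ} (h : AlgS x ξ H) :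
    ∃ (a : MvPolynomial σ ℤ) (g : Fin H → MvPolynomial σ ℤ), MvPolynomial.aeval x a ≠ 0 ∧
      Sz a H ∧ (∀ j, Sz (g j) H) ∧
      MvPolynomial.aeval x a * ξ ^ H = ∑ j, MvPolynomial.aeval x (g j) * ξ ^ (j : ℕ) := by
  classical
  obtain ⟨p, hp, ⟨i0, hi0, hne⟩, hrel⟩ := h
  -- the largest index with a nonzero value
  obtain ⟨d, hdmem, hdmax⟩ := Finset.exists_max_image
    ((range (H + 1)).filter fun i => MvPolynomial.aeval x (p i) ≠ 0) id
    ⟨i0, by rw [Finset.mem_filter, Finset.mem_range]; exact ⟨by omega, hne⟩⟩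
  rw [Finset.mem_filter, Finset.mem_range] at hdmem
  obtain ⟨hdH, hd0⟩ := hdmem
  have hbig : ∀ i, d < i → i ≤ H → MvPolynomial.aeval x (p i) = 0 := by
    intro i hi hiH
    by_contra hcon
    have := hdmax i (by rw [Finset.mem_filter, Finset.mem_range]; exact ⟨by omega, hcon⟩)
    simp only [id] at this
    omega
  have hrel2 : ∑ i ∈ range (d + 1), MvPolynomial.aeval x (p i) * ξ ^ i = 0 := by
    rw [← hrel]
    apply Finset.sum_subset (Finset.range_mono (by omega))
    intro i hi hi'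
    rw [Finset.mem_range] at hi hi'
    rw [hbig i (by omega) (by omega), zero_mul]
  refine ⟨p d, fun j => if H - d ≤ (j : ℕ) then -p (j - (H - d)) else 0, hd0, hp d, ?_, ?_⟩
  · intro j
    dsimp only
    split_ifs
    · exact (hp _).neg
    · exact sz_zero H
  · have e1 : MvPolynomial.aeval x (p d) * ξ ^ H =
        -∑ i ∈ range d, MvPolynomial.aeval x (p i) * ξ ^ (i + (H - d)) := by
      rw [Finset.sum_range_succ] at hrel2
      have h1 : MvPolynomial.aeval x (p d) * ξ ^ d =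
          -∑ i ∈ range d, MvPolynomial.aeval x (p i) * ξ ^ i := by linear_combination hrel2
      have h2 : ξ ^ H = ξ ^ d * ξ ^ (H - d) := by rw [← pow_add]; congr 1; omega
      rw [h2, ← mul_assoc, h1, neg_mul, Finset.sum_mul]
      congr 1
      apply Finset.sum_congr rfl
      intro i _
      rw [pow_add]; ring
    rw [e1]
    have e2 : ∑ j : Fin H, MvPolynomial.aeval x
        (if H - d ≤ (j : ℕ) then -p (j - (H - d)) else 0) * ξ ^ (j : ℕ) =
        ∑ j ∈ range H, MvPolynomial.aeval x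
        (if H - d ≤ j then -p (j - (H - d)) else 0) * ξ ^ j :=
      Fin.sum_univ_eq_sum_range (fun j => MvPolynomial.aeval x
        (if H - d ≤ j then -p (j - (H - d)) else 0) * ξ ^ j) H
    rw [e2]
    obtain ⟨k, hk⟩ : ∃ k, H = k + d := ⟨H - d, by omega⟩
    have hk' : H - d = k := by omega
    rw [hk', hk, Finset.sum_range_add, Finset.sum_eq_zero (s := range k), zero_add,
      ← Finset.sum_neg_distrib]
    · apply Finset.sum_congr rfl
      intro i _
      rw [if_pos (by omega), Nat.add_sub_cancel_left, map_neg, add_comm i k]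
      ring
    · intro j hj
      rw [Finset.mem_range] at hj
      rw [if_neg (by omega), map_zero, zero_mul]

lemma ibx_powers {σ : Type} {x : σ → ℂ} {ξ : ℂ} {H : ℕ} (h : AlgS x ξ H) :
    ∃ a : MvPolynomial σ ℤ, MvPolynomial.aeval x a ≠ 0 ∧ Sz a H ∧
    IBX x (fun j : Fin H => ξ ^ (j : ℕ)) (Real.exp H) H (MvPolynomial.aeval x a * ξ) := by
  classical
  obtain ⟨a, g, h1, h2, h4, h6⟩ := algS_rel h
  refine ⟨a, h1, h2, ?_⟩
  intro i
  by_cases hi : (i : ℕ) + 1 < H
  · refine ⟨Pi.single ⟨i + 1, hi⟩ a, ?_, ?_, ?_⟩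
    · intro j
      by_cases hj : j = ⟨i + 1, hi⟩
      · subst hj; simpa using h2.1
      · rw [Pi.single_eq_of_ne hj]; simp
    · intro j
      by_cases hj : j = ⟨i + 1, hi⟩
      · subst hj
        simp only [Pi.single_eq_same]
        exact h2.2
      · rw [Pi.single_eq_of_ne hj, l_zero]
        positivity
    · rw [Finset.sum_eq_single ⟨i + 1, hi⟩]
      · simp only [Pi.single_eq_same]
        ring
      · intro j _ hj
        rw [Pi.single_eq_of_ne hj]; simp
      · intro h; exact absurd (Finset.mem_univ _) h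
  · refine ⟨g, fun j => (h4 j).1, fun j => (h4 j).2, ?_⟩
    have hi' : (i : ℕ) + 1 = H := by have := i.isLt; omega
    rw [← h6]
    conv_rhs => rw [← hi', pow_succ]
    ring

/-- The vector of monomials. -/
lemma exists_u {σ : Type} {x : σ → ℂ} (H : ℕ) (hH : 1 ≤ H) (B : ℝ) (hB : 0 ≤ B) :
    ∀ (N : ℕ) (ξ : Fin N → ℂ) (a : Fin N → MvPolynomial σ ℤ),
    (∀ k, IBX x (fun j : Fin H => ξ k ^ (j : ℕ)) B H (MvPolynomial.aeval x (a k) * ξ k)) →
    ∃ (ι : Type) (_ : Fintype ι) (u : ι → ℂ) (i0 : ι), u i0 = 1 ∧ Fintype.card ι = H ^ N ∧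
      ∀ k, IBX x u B H (MvPolynomial.aeval x (a k) * ξ k) := by
  intro N
  induction N with
  | zero =>
    intro ξ a _
    exact ⟨Unit, inferInstance, fun _ => 1, (), rfl, by simp, fun k => k.elim0⟩
  | succ N ih =>
    intro ξ a h
    obtain ⟨ι, hι, u, i0, h1, h2, h3⟩ := ih (fun k => ξ k.succ) (fun k => a k.succ)
      (fun k => h k.succ)
    refine ⟨ι × Fin H, inferInstance, fun y => u y.1 * ξ 0 ^ (y.2 : ℕ), (i0, ⟨0, hH⟩), ?_, ?_, ?_⟩
    · simp [h1]
    · rw [Fintype.card_prod, h2, Fintype.card_fin, pow_succ]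
    · intro k
      refine Fin.cases ?_ ?_ k
      · exact (h 0).tensor' u hB
      · intro k
        exact (h3 k).tensor (fun j : Fin H => ξ 0 ^ (j : ℕ)) hB

/-- monomials with a denominator -/
lemma ibx_mon {σ : Type} {x : σ → ℂ} {ι : Type} [Fintype ι] [Nonempty ι] {u : ι → ℂ} {N H : ℕ}
    {B : ℝ} (hB : 1 ≤ B) {ξ : Fin N → ℂ} {a : Fin N → MvPolynomial σ ℤ}
    (ha : ∀ k, (a k).totalDegree ≤ H)
    (hl : ∀ k, l (a k) ≤ B) (hu : ∀ k, IBX x u B H (MvPolynomial.aeval x (a k) * ξ k))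
    (m : Fin N → ℕ) (hm : ∀ k, m k ≤ H) (s : Finset (Fin N)) :
    IBX x u ((Fintype.card ι * B) ^ ((H + 2) * s.card)) (H * H * s.card)
      (∏ k ∈ s, (MvPolynomial.aeval x (a k) ^ H * ξ k ^ m k)) := by
  classical
  have hn0 : 0 < Fintype.card ι := Fintype.card_pos
  have hnR : (1 : ℝ) ≤ Fintype.card ι := by exact_mod_cast hn0
  have hnB : (Fintype.card ι : ℝ) ≤ Fintype.card ι * B := by nlinarith
  have hnB1 : (1 : ℝ) ≤ Fintype.card ι * B := by nlinarith
  have hB0 : 0 ≤ B := by linarith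
  induction s using Finset.induction_on with
  | empty =>
    rw [Finset.prod_empty, Finset.card_empty, mul_zero, mul_zero, pow_zero]
    have := IBX.const (x := x) (u := u) (e := 0) (B := 1) 1 (by simp) l_one
    simpa using this
  | insert k s hk ih =>
    rw [Finset.prod_insert hk, Finset.card_insert_of_notMem hk]
    have h1 : IBX x u B H (MvPolynomial.aeval x (a k)) := IBX.const (a k) (ha k) (hl k)
    have h2 := (h1.pow hB0 (H - m k)).mul ((hu k).pow hB0 (m k)) (by positivity) (by positivity)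
    have e1 : MvPolynomial.aeval x (a k) ^ (H - m k) * (MvPolynomial.aeval x (a k) * ξ k) ^ m k =
        MvPolynomial.aeval x (a k) ^ H * ξ k ^ m k := by
      rw [mul_pow, ← mul_assoc, ← pow_add, Nat.sub_add_cancel (hm k)]
    rw [e1] at h2
    have h3 := h2.mul ih (by positivity) (by positivity)
    refine h3.mono ?_ ?_
    · have e2 : (Fintype.card ι : ℝ) * (Fintype.card ι * (Fintype.card ι * B) ^ (H - m k) *
          (Fintype.card ι * B) ^ m k) * (Fintype.card ι * B) ^ ((H + 2) * s.card) =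
          (Fintype.card ι * Fintype.card ι) * (Fintype.card ι * B) ^ (H + (H + 2) * s.card) := by
        have : H + (H + 2) * s.card = (H - m k) + m k + (H + 2) * s.card := by
          rw [Nat.sub_add_cancel (hm k)]
        rw [this, pow_add, pow_add]
        ring
      rw [e2]
      calc (Fintype.card ι * Fintype.card ι : ℝ) * (Fintype.card ι * B) ^ (H + (H + 2) * s.card)
          ≤ ((Fintype.card ι * B) * (Fintype.card ι * B)) *
            (Fintype.card ι * B) ^ (H + (H + 2) * s.card) := by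
            apply mul_le_mul_of_nonneg_right _ (by positivity)
            exact mul_le_mul hnB hnB (by positivity) (by positivity)
        _ = (Fintype.card ι * B) ^ ((H + 2) * (s.card + 1)) := by
            rw [← pow_two, ← pow_add]
            congr 1
            ring
    · have : H * (H - m k) + H * m k = H * H := by
        rw [← mul_add, Nat.sub_add_cancel (hm k)]
      rw [this]
      ring_nf
      exact le_rfl

/-- An eigenvector with eigenvalue `z` gives a zero of the characteristic polynomial. -/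
lemma charpoly_rel {σ : Type} {x : σ → ℂ} {ι : Type} [Fintype ι] {u : ι → ℂ} (i0 : ι)
    (hu : u i0 = 1) {B : ℝ} {e : ℕ} {z : ℂ} (h : IBX x u B e z) {D : ℕ} (hD : 2 ≤ D)
    (hcard : Fintype.card ι ≤ D) (hB : B ≤ Real.exp D) (he : e ≤ D) {c : ℕ}
    (hc : ∀ (σ : Type) (D n : ℕ) (M : Matrix (Fin n) (Fin n) (MvPolynomial σ ℤ)), 2 ≤ D → n ≤ D →
    (∀ i j, Sz (M i j) D) → ∀ i, Sz (M.charpoly.coeff i) (D ^ c)) :
    ∃ q : ℕ → MvPolynomial σ ℤ, (∀ i, Sz (q i) (D ^ c)) ∧
      z ^ Fintype.card ι + ∑ i ∈ range (Fintype.card ι), MvPolynomial.aeval x (q i) * z ^ i = 0 := by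
  classical
  set n := Fintype.card ι with hn
  let f : ι ≃ Fin n := Fintype.equivFin ι
  choose c' h0 h1 h2 using h
  let M : Matrix (Fin n) (Fin n) (MvPolynomial σ ℤ) := fun i j => c' (f.symm i) (f.symm j)
  have hM : ∀ i j, Sz (M i j) D := fun i j =>
    ⟨(h0 _ _).trans he, (h1 _ _).trans hB⟩
  have hq := hc σ D n M hD hcard hM
  refine ⟨fun i => M.charpoly.coeff i, hq, ?_⟩
  -- the complex matrix
  let φ : MvPolynomial σ ℤ →+* ℂ := (MvPolynomial.aeval x : MvPolynomial σ ℤ →ₐ[ℤ] ℂ).toRingHom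
  have hφ : ∀ p, φ p = MvPolynomial.aeval x p := fun _ => rfl
  let Mc : Matrix (Fin n) (Fin n) ℂ := M.map φ
  let v : Fin n → ℂ := fun i => u (f.symm i)
  have hv : Mc.mulVec v = z • v := by
    funext i
    simp only [Matrix.mulVec, dotProduct, Mc, M, v, Pi.smul_apply, smul_eq_mul]
    rw [h2 (f.symm i)]
    exact (Equiv.sum_comp f.symm (fun j => MvPolynomial.aeval x (c' (f.symm i) j) * u j))
  have hv0 : v ≠ 0 := by
    intro h
    have := congrFun h (f i0)
    simp only [v, Equiv.symm_apply_apply, Pi.zero_apply] at this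
    rw [hu] at this
    exact one_ne_zero this
  have hroot : Mc.charpoly.eval z = 0 := by
    rw [Matrix.eval_charpoly]
    rw [← Matrix.exists_mulVec_eq_zero_iff]
    refine ⟨v, hv0, ?_⟩
    rw [Matrix.sub_mulVec, hv]
    funext i
    simp [Matrix.scalar_apply]
  have hmap : Mc.charpoly = M.charpoly.map φ := Matrix.charpoly_map M φ
  have hmon : Mc.charpoly.Monic := Matrix.charpoly_monic Mc
  have hdeg : Mc.charpoly.natDegree = n := by
    rw [Matrix.charpoly_natDegree_eq_dim, Fintype.card_fin]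
  rw [Polynomial.eval_eq_sum_range, hdeg, Finset.sum_range_succ] at hroot
  have hlead : Mc.charpoly.coeff n = 1 := by
    have := hmon.coeff_natDegree
    rwa [hdeg] at this
  rw [hlead, one_mul] at hroot
  rw [add_comm]
  rw [← hroot]
  congr 1
  apply Finset.sum_congr rfl
  intro i _
  rw [hmap, Polynomial.coeff_map, hφ]

/-! ### growth -/

lemma le_two_pow (n : ℕ) : n ≤ 2 ^ n := Nat.lt_two_pow_self.le

lemma le_pow {H : ℕ} (hH : 2 ≤ H) (N : ℕ) : N ≤ H ^ N :=
  (le_two_pow N).trans (Nat.pow_le_pow_left hH N)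

lemma add_pow_le {H : ℕ} (hH : 2 ≤ H) {a b c : ℕ} (ha : a < c) (hb : b < c) :
    H ^ a + H ^ b ≤ H ^ c := by
  obtain ⟨c, rfl⟩ : ∃ c', c = c' + 1 := ⟨c - 1, by omega⟩
  have h1 : H ^ a ≤ H ^ c := Nat.pow_le_pow_right (by omega) (by omega)
  have h2 : H ^ b ≤ H ^ c := Nat.pow_le_pow_right (by omega) (by omega)
  calc H ^ a + H ^ b ≤ H ^ c + H ^ c := Nat.add_le_add h1 h2
    _ = H ^ c * 2 := by ring
    _ ≤ H ^ c * H := Nat.mul_le_mul_left _ hH
    _ = H ^ (c + 1) := (pow_succ H c).symm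

lemma le_exp_of_le {x : ℝ} {y : ℝ} (h : x ≤ y) : x ≤ Real.exp y := by
  have := Real.add_one_le_exp y
  linarith

lemma growth (N H : ℕ) (hH : 2 ≤ H) :
    Real.exp H * (((H ^ N : ℕ) : ℝ) * Real.exp H) ^ ((H + 2) * N) ≤
      Real.exp ((H ^ (2 * N + 6) : ℕ) : ℝ) := by
  have hH0 : 0 < H := by omega
  have hB1 : Real.exp (H : ℝ) ≤ Real.exp ((H ^ 2 : ℕ) : ℝ) := by
    apply Real.exp_le_exp.2
    exact_mod_cast Nat.le_self_pow (by omega) H
  have hnB : ((H ^ N : ℕ) : ℝ) * Real.exp H ≤ Real.exp ((H ^ (N + 3) : ℕ) : ℝ) := by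
    calc ((H ^ N : ℕ) : ℝ) * Real.exp H
        ≤ Real.exp ((H ^ N : ℕ) : ℝ) * Real.exp ((H ^ 2 : ℕ) : ℝ) :=
          mul_le_mul (le_exp_of_le le_rfl) hB1 (by positivity) (by positivity)
      _ = Real.exp (((H ^ N + H ^ 2 : ℕ) : ℝ)) := by rw [← Real.exp_add]; push_cast; rfl
      _ ≤ _ := by
          apply Real.exp_le_exp.2
          exact_mod_cast add_pow_le hH (by omega) (by omega)
  calc Real.exp H * (((H ^ N : ℕ) : ℝ) * Real.exp H) ^ ((H + 2) * N)
      ≤ Real.exp H * Real.exp ((H ^ (N + 3) : ℕ) : ℝ) ^ ((H + 2) * N) := by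
        apply mul_le_mul_of_nonneg_left _ (by positivity)
        exact pow_le_pow_left₀ (by positivity) hnB _
    _ = Real.exp ((H + (H + 2) * N * H ^ (N + 3) : ℕ) : ℝ) := by
        rw [← Real.exp_nat_mul, ← Real.exp_add]
        push_cast; rfl
    _ ≤ _ := by
        apply Real.exp_le_exp.2
        have e1 : (H + 2) * N * H ^ (N + 3) ≤ H ^ (2 * N + 5) := by
          calc (H + 2) * N * H ^ (N + 3) ≤ (H * H) * H ^ N * H ^ (N + 3) := by
                apply Nat.mul_le_mul_right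
                apply Nat.mul_le_mul _ (le_pow hH N)
                nlinarith
            _ = H ^ (2 * N + 5) := by
                rw [show 2 * N + 5 = 2 + N + (N + 3) by ring, pow_add, pow_add]; ring
        have e2 : H + (H + 2) * N * H ^ (N + 3) ≤ H ^ (2 * N + 6) := by
          calc H + (H + 2) * N * H ^ (N + 3) ≤ H ^ 1 + H ^ (2 * N + 5) := by
                rw [pow_one]; omega
            _ ≤ _ := add_pow_le hH (by omega) (by omega)
        exact_mod_cast e2

lemma sz_prod {σ : Type} {N H : ℕ} (a : Fin N → MvPolynomial σ ℤ) (ha : ∀ k, Sz (a k) H) :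
    Sz (∏ k, a k ^ H) (N * (H * H)) := by
  classical
  constructor
  · refine (MvPolynomial.totalDegree_finsetProd _ _).trans ?_
    calc ∑ k : Fin N, (a k ^ H).totalDegree ≤ ∑ _k : Fin N, H * H := by
          apply Finset.sum_le_sum
          intro k _
          exact (MvPolynomial.totalDegree_pow _ _).trans (Nat.mul_le_mul_left _ (ha k).1)
      _ = N * (H * H) := by
          rw [Finset.sum_const, Finset.card_univ, Fintype.card_fin, smul_eq_mul]
  · have h1 : ∀ s : Finset (Fin N), l (∏ k ∈ s, a k ^ H) ≤ Real.exp (H * H) ^ s.card := by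
      intro s
      induction s using Finset.induction_on with
      | empty =>
        rw [Finset.prod_empty, Finset.card_empty, pow_zero]
        exact l_one
      | insert k s hk ih =>
        rw [Finset.prod_insert hk, Finset.card_insert_of_notMem hk, pow_succ']
        refine (l_mul_le _ _).trans (mul_le_mul ?_ ih (l_nonneg _) (by positivity))
        refine (l_pow_le _ _).trans ?_
        calc l (a k) ^ H ≤ Real.exp H ^ H := pow_le_pow_left₀ (l_nonneg _) (ha k).2 _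
          _ = Real.exp (H * H) := by rw [← Real.exp_nat_mul]
    have h2 := h1 Finset.univ
    rw [Finset.card_univ, Fintype.card_fin, ← Real.exp_nat_mul] at h2
    push_cast
    exact h2

end Core

open Core in
/-- Values of polynomials at numbers algebraic over the field generated by `x`. -/
theorem core (N : ℕ) : ∃ c : ℕ, ∀ (σ : Type) (H : ℕ), 2 ≤ H → ∀ (x : σ → ℂ) (ξ : Fin N → ℂ),
    (∀ k, AlgS x (ξ k) H) → ∀ P : MvPolynomial (Fin N) ℤ, Sz P H →
    ∃ (A : MvPolynomial σ ℤ) (n : ℕ) (q : ℕ → MvPolynomial σ ℤ), Sz A (H ^ c) ∧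
      MvPolynomial.aeval x A ≠ 0 ∧ 1 ≤ n ∧ n ≤ H ^ c ∧ (∀ i, Sz (q i) (H ^ c)) ∧
      (MvPolynomial.aeval x A * MvPolynomial.aeval ξ P) ^ n +
        ∑ i ∈ range n, MvPolynomial.aeval x (q i) *
          (MvPolynomial.aeval x A * MvPolynomial.aeval ξ P) ^ i = 0 := by
  classical
  obtain ⟨cE, hcE⟩ := specEng
  refine ⟨(2 * N + 6) * cE + (2 * N + 6), fun σ H hH x ξ hξ P hP => ?_⟩
  have hH0 : 0 < H := by omega
  have pr : ∀ {a b : ℕ}, a ≤ b → H ^ a ≤ H ^ b := fun h => Nat.pow_le_pow_right hH0 h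
  have hexp : ∀ m ∈ P.support, ∀ o, m o ≤ H := by
    intro m hm o
    exact ((MvPolynomial.monomial_le_degreeOf o hm).trans
      (MvPolynomial.degreeOf_le_totalDegree P o)).trans hP.1
  choose a ha0 ha1 ha3 using fun k => ibx_powers (hξ k)
  have hB1 : 1 ≤ Real.exp (H : ℝ) := Real.one_le_exp (by positivity)
  obtain ⟨ι, hι, u, i0, hu1, hcard, hu2⟩ :=
    exists_u H (by omega) (Real.exp H) (by positivity) N ξ a ha3
  have : Nonempty ι := ⟨i0⟩
  let A : MvPolynomial σ ℤ := ∏ k, a k ^ H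
  have hAe : MvPolynomial.aeval x A = ∏ k, MvPolynomial.aeval x (a k) ^ H := by
    simp only [A, map_prod, map_pow]
  have hA0 : MvPolynomial.aeval x A ≠ 0 := by
    rw [hAe]
    exact Finset.prod_ne_zero_iff.2 fun k _ => pow_ne_zero _ (ha0 k)
  have hAsz : Sz A (H ^ ((2 * N + 6) * cE + (2 * N + 6))) := by
    refine (sz_prod a ha1).mono ?_
    calc N * (H * H) ≤ H ^ N * (H * H) := Nat.mul_le_mul_right _ (le_pow hH N)
      _ = H ^ (N + 2) := by rw [pow_add]; ring
      _ ≤ _ := pr (by omega)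
  have hmain : IBX x u (Real.exp H * (((H ^ N : ℕ) : ℝ) * Real.exp H) ^ ((H + 2) * N)) (H * H * N)
      (MvPolynomial.aeval x A * MvPolynomial.aeval ξ P) := by
    have h1 : MvPolynomial.aeval x A * MvPolynomial.aeval ξ P = ∑ m ∈ P.support,
        ((P.coeff m : ℤ) : ℂ) *
          ∏ k ∈ Finset.univ, (MvPolynomial.aeval x (a k) ^ H * ξ k ^ m k) := by
      rw [hAe, MvPolynomial.aeval_def, MvPolynomial.eval₂_eq', Finset.mul_sum]
      apply Finset.sum_congr rfl
      intro m _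
      rw [Finset.prod_mul_distrib]
      simp only [eq_intCast]
      ring
    rw [h1]
    refine (IBX.zsum (x := x) (u := u)
      (B := (Fintype.card ι * Real.exp H) ^ ((H + 2) * (Finset.univ : Finset (Fin N)).card))
      (e := H * H * (Finset.univ : Finset (Fin N)).card) _ (fun m => P.coeff m)
      (fun m => ∏ k ∈ Finset.univ, (MvPolynomial.aeval x (a k) ^ H * ξ k ^ m k)) ?_).mono ?_ ?_
    · intro m hm
      exact ibx_mon hB1 (fun k => (ha1 k).1) (fun k => (ha1 k).2) hu2 (fun k => m k)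
        (fun k => hexp m hm _) _
    · rw [Finset.card_univ, Fintype.card_fin, hcard]
      apply mul_le_mul_of_nonneg_right _ (by positivity)
      refine le_trans ?_ hP.2
      rw [L3.cSum, Nat.cast_sum]
      apply Finset.sum_le_sum
      intro m _
      rw [← Int.cast_abs, Int.abs_eq_natAbs]; simp
    · rw [Finset.card_univ, Fintype.card_fin]
  set D := H ^ (2 * N + 6) with hD
  have hD2 : 2 ≤ D := hH.trans (Nat.le_self_pow (by omega) H)
  have hcardD : Fintype.card ι ≤ D := by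
    rw [hcard]; exact pr (by omega)
  have heD : H * H * N ≤ D := by
    calc H * H * N ≤ H * H * H ^ N := Nat.mul_le_mul_left _ (le_pow hH N)
      _ = H ^ (N + 2) := by rw [pow_add]; ring
      _ ≤ _ := pr (by omega)
  obtain ⟨q, hq1, hq2⟩ := charpoly_rel i0 hu1 hmain hD2 hcardD (growth N H hH) heD hcE
  have hDc : D ^ cE ≤ H ^ ((2 * N + 6) * cE + (2 * N + 6)) := by
    rw [hD, ← pow_mul]; exact pr (by omega)
  exact ⟨A, Fintype.card ι, q, hAsz, hA0, Fintype.card_pos, hcardD.trans (pr (by omega)),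
    fun i => (hq1 i).mono hDc, hq2⟩

end Pool.Agent.Lib.MP_47914d_nt.Hp
end

section
/-!
MP_47914d_nt, H+, module NRM (helper4): Liouville inequality over the field generated by a point
with a measure.
-/
set_option autoImplicit false

open Complex Polynomial Finset

namespace Pool.Agent.Lib.MP_47914d_nt.Hp

open Hk

/-- The lowest coefficient of a monic polynomial with a small zero is small. -/
lemma low_bound {n m : ℕ} {q : ℕ → ℂ} {lam : ℂ} {K : ℝ}
    (h : lam ^ n + ∑ i ∈ range n, q i * lam ^ i = 0) (h0 : lam ≠ 0) (h1 : ‖lam‖ ≤ 1)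
    (hm : m < n) (hz : ∀ i < m, q i = 0) (hK : ∀ i, ‖q i‖ ≤ K) (hK1 : 1 ≤ K) :
    ‖q m‖ ≤ (n + 1) * K * ‖lam‖ := by
  obtain ⟨k, rfl⟩ : ∃ k, n = m + (k + 1) := ⟨n - m - 1, by omega⟩
  rw [Finset.sum_range_add, Finset.sum_eq_zero (s := range m), zero_add,
    Finset.sum_range_succ'] at h
  · have e1 : lam ^ (m + (k + 1)) + (∑ j ∈ range k, q (m + (j + 1)) * lam ^ (m + (j + 1)) +
        q (m + 0) * lam ^ (m + 0)) =
        lam ^ m * (lam ^ (k + 1) + ∑ j ∈ range k, q (m + (j + 1)) * lam ^ (j + 1) + q m) := by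
      rw [mul_add, mul_add, Finset.mul_sum, ← pow_add, add_zero]
      have : ∀ j ∈ range k, q (m + (j + 1)) * lam ^ (m + (j + 1)) =
          lam ^ m * (q (m + (j + 1)) * lam ^ (j + 1)) := by
        intro j _
        rw [pow_add]; ring
      rw [Finset.sum_congr rfl this]
      ring
    rw [e1] at h
    have h2 := (mul_eq_zero.1 h).resolve_left (pow_ne_zero _ h0)
    have h3 : q m = -(lam ^ (k + 1) + ∑ j ∈ range k, q (m + (j + 1)) * lam ^ (j + 1)) := by
      linear_combination h2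
    have hl0 : 0 ≤ ‖lam‖ := norm_nonneg _
    have hp : ∀ j : ℕ, ‖lam‖ ^ (j + 1) ≤ ‖lam‖ := by
      intro j
      rw [pow_succ]
      calc ‖lam‖ ^ j * ‖lam‖ ≤ 1 * ‖lam‖ :=
            mul_le_mul_of_nonneg_right (pow_le_one₀ hl0 h1) hl0
        _ = _ := one_mul _
    rw [h3, norm_neg]
    calc ‖lam ^ (k + 1) + ∑ j ∈ range k, q (m + (j + 1)) * lam ^ (j + 1)‖
        ≤ ‖lam ^ (k + 1)‖ + ‖∑ j ∈ range k, q (m + (j + 1)) * lam ^ (j + 1)‖ := norm_add_le _ _
      _ ≤ ‖lam‖ + ∑ j ∈ range k, K * ‖lam‖ := by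
          apply add_le_add
          · rw [norm_pow]; exact hp k
          · refine (norm_sum_le _ _).trans (Finset.sum_le_sum fun j _ => ?_)
            rw [norm_mul, norm_pow]
            exact mul_le_mul (hK _) (hp j) (by positivity) (by linarith)
      _ = (1 + k * K) * ‖lam‖ := by
          rw [Finset.sum_const, Finset.card_range, nsmul_eq_mul]; ring
      _ ≤ _ := by
          apply mul_le_mul_of_nonneg_right _ hl0
          push_cast
          have hm0 : (0 : ℝ) ≤ m := Nat.cast_nonneg _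
          have hk0 : (0 : ℝ) ≤ k := Nat.cast_nonneg _
          nlinarith [mul_nonneg hm0 (by linarith : (0 : ℝ) ≤ K)]
  · intro i hi
    rw [Finset.mem_range] at hi
    rw [hz i hi, zero_mul]

lemma aeval_le {σ : Type} {x : σ → ℂ} {K : ℝ} (hK : 1 ≤ K) (hx : ∀ i, ‖x i‖ ≤ K)
    (Q : MvPolynomial σ ℤ) :
    ‖MvPolynomial.aeval x Q‖ ≤ (L3.cSum Q : ℝ) * K ^ Q.totalDegree := by
  classical
  rw [MvPolynomial.aeval_def, MvPolynomial.eval₂_eq, L3.cSum, Nat.cast_sum, Finset.sum_mul]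
  refine (norm_sum_le _ _).trans (Finset.sum_le_sum fun m hm => ?_)
  rw [norm_mul]
  have e1 : ‖(algebraMap ℤ ℂ) (Q.coeff m)‖ = (((Q.coeff m).natAbs : ℕ) : ℝ) := by
    rw [eq_intCast, Complex.norm_intCast, ← Int.cast_abs, Int.abs_eq_natAbs]; simp
  rw [e1]
  apply mul_le_mul_of_nonneg_left _ (by positivity)
  rw [norm_prod]
  calc ∏ i ∈ m.support, ‖x i ^ m i‖ ≤ ∏ i ∈ m.support, K ^ m i := by
        apply Finset.prod_le_prod
        · intro i _; positivity
        · intro i _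
          rw [norm_pow]
          exact pow_le_pow_left₀ (norm_nonneg _) (hx i) _
    _ = K ^ (∑ i ∈ m.support, m i) := by rw [Finset.prod_pow_eq_pow_sum]
    _ ≤ _ := by
        apply pow_le_pow_right₀ hK
        exact MvPolynomial.le_totalDegree hm

lemma Sz.aeval_le {σ : Type} {x : σ → ℂ} {H D : ℕ} (hH : 1 ≤ H) (hx : ∀ i, ‖x i‖ ≤ H)
    {Q : MvPolynomial σ ℤ} (hQ : Sz Q D) :
    ‖MvPolynomial.aeval x Q‖ ≤ Real.exp ((H + 1) * D) := by
  have hH' : (1 : ℝ) ≤ H := by exact_mod_cast hH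
  refine (Hp.aeval_le hH' hx Q).trans ?_
  calc (L3.cSum Q : ℝ) * (H : ℝ) ^ Q.totalDegree ≤ Real.exp D * (Real.exp H) ^ D := by
        apply mul_le_mul hQ.2 _ (by positivity) (by positivity)
        calc (H : ℝ) ^ Q.totalDegree ≤ (H : ℝ) ^ D := pow_le_pow_right₀ hH' hQ.1
          _ ≤ _ := by
            apply pow_le_pow_left₀ (by positivity)
            linarith [Real.add_one_le_exp (H : ℝ)]
    _ = Real.exp ((H + 1) * D) := by
        rw [← Real.exp_nat_mul, ← Real.exp_add]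
        congr 1; ring

theorem specNrm : SpecNrm := by
  classical
  intro N
  obtain ⟨c, hc⟩ := core N
  refine ⟨c + 3, fun H hH x hx ξ hξ P hP δ hδ0 hδ1 hR => ?_⟩
  by_cases hP0 : MvPolynomial.aeval ξ P = 0
  · exact Or.inl hP0
  right
  have hH' : (2 : ℝ) ≤ H := by exact_mod_cast hH
  obtain ⟨A, n, q, hA, hA0, hn1, hn, hq, hrel⟩ := hc (Fin 2) H hH x ξ hξ P hP
  set Av := MvPolynomial.aeval x A with hAv
  set pv := MvPolynomial.aeval ξ P with hpv
  have hlam : Av * pv ≠ 0 := mul_ne_zero hA0 hP0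
  have hAb : ‖Av‖ ≤ Real.exp ((H + 1) * (H : ℝ) ^ c) := by
    have := hA.aeval_le (x := x) (H := H) (by omega) hx
    push_cast at this
    exact this
  have hApos : 0 < ‖Av‖ := norm_pos_iff.2 hA0
  have hqb : ∀ i, ‖MvPolynomial.aeval x (q i)‖ ≤ Real.exp ((H + 1) * (H : ℝ) ^ c) := by
    intro i
    have := (hq i).aeval_le (x := x) (H := H) (by omega) hx
    push_cast at this
    exact this
  have hHc : (0 : ℝ) < (H : ℝ) ^ c := by positivity
  have hnum : (2 * (H : ℝ) + 3) * (H : ℝ) ^ c ≤ (H : ℝ) ^ (c + 3) := by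
    rw [pow_add, mul_comm]
    apply mul_le_mul_of_nonneg_left _ hHc.le
    nlinarith [mul_nonneg (by linarith : (0 : ℝ) ≤ H) (by linarith : (0 : ℝ) ≤ (H : ℝ) - 2)]
  have hK1 : 1 ≤ Real.exp ((H + 1) * (H : ℝ) ^ c) := Real.one_le_exp (by positivity)
  rcases le_or_gt ‖Av * pv‖ 1 with hl | hl
  · -- the lowest nonzero coefficient
    have hex : ∃ m, m < n ∧ MvPolynomial.aeval x (q m) ≠ 0 := by
      by_contra hcon
      push Not at hcon
      rw [Finset.sum_eq_zero, add_zero] at hrel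
      · exact hlam (pow_eq_zero_iff (by omega) |>.1 hrel)
      · intro i hi
        rw [Finset.mem_range] at hi
        rw [hcon i hi, zero_mul]
    obtain ⟨m, ⟨hmn, hm0⟩, hmin⟩ : ∃ m, (m < n ∧ MvPolynomial.aeval x (q m) ≠ 0) ∧
        ∀ i < m, ¬ (i < n ∧ MvPolynomial.aeval x (q i) ≠ 0) :=
      ⟨Nat.find hex, Nat.find_spec hex, fun i hi => Nat.find_min hex hi⟩
    have hz : ∀ i < m, MvPolynomial.aeval x (q i) = 0 := by
      intro i hi
      by_contra hcon
      exact hmin i hi ⟨by omega, hcon⟩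
    have hb := low_bound (q := fun i => MvPolynomial.aeval x (q i)) hrel hlam hl hmn hz hqb hK1
    have hδ : δ ≤ ‖MvPolynomial.aeval x (q m)‖ := by
      rcases hR (q m) ((hq m).mono (Nat.pow_le_pow_right (by omega) (by omega))) with h | h
      · exact absurd h hm0
      · exact h
    have hn' : ((n : ℝ) + 1) ≤ Real.exp ((H : ℝ) ^ c) := by
      have h1 : (n : ℝ) ≤ (H : ℝ) ^ c := by exact_mod_cast hn
      linarith [Real.add_one_le_exp ((H : ℝ) ^ c)]
    have h2 : δ ≤ Real.exp ((H : ℝ) ^ (c + 3)) * ‖pv‖ := by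
      calc δ ≤ (n + 1) * Real.exp ((H + 1) * (H : ℝ) ^ c) * ‖Av * pv‖ := hδ.trans hb
        _ ≤ Real.exp ((H : ℝ) ^ c) * Real.exp ((H + 1) * (H : ℝ) ^ c) *
            (Real.exp ((H + 1) * (H : ℝ) ^ c) * ‖pv‖) := by
            rw [norm_mul]
            gcongr
        _ = Real.exp ((2 * (H : ℝ) + 3) * (H : ℝ) ^ c) * ‖pv‖ := by
            rw [← mul_assoc, ← Real.exp_add, ← Real.exp_add]
            congr 2
            ring
        _ ≤ _ := by
            apply mul_le_mul_of_nonneg_right _ (norm_nonneg _)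
            exact Real.exp_le_exp.2 hnum
    calc δ * Real.exp (-(H : ℝ) ^ (c + 3))
        ≤ (Real.exp ((H : ℝ) ^ (c + 3)) * ‖pv‖) * Real.exp (-(H : ℝ) ^ (c + 3)) :=
          mul_le_mul_of_nonneg_right h2 (by positivity)
      _ = ‖pv‖ * Real.exp ((H : ℝ) ^ (c + 3) + -(H : ℝ) ^ (c + 3)) := by
          rw [Real.exp_add]; ring
      _ = ‖pv‖ := by rw [add_neg_cancel, Real.exp_zero, mul_one]
  · -- a large value
    have h1 : 1 ≤ Real.exp ((H + 1) * (H : ℝ) ^ c) * ‖pv‖ := by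
      rw [norm_mul] at hl
      have := mul_le_mul_of_nonneg_right hAb (norm_nonneg pv)
      linarith
    have h2 : 1 ≤ Real.exp ((H : ℝ) ^ (c + 3)) * ‖pv‖ := by
      refine h1.trans (mul_le_mul_of_nonneg_right (Real.exp_le_exp.2 ?_) (norm_nonneg _))
      refine le_trans ?_ hnum
      apply mul_le_mul_of_nonneg_right _ hHc.le
      linarith
    calc δ * Real.exp (-(H : ℝ) ^ (c + 3)) ≤ 1 * Real.exp (-(H : ℝ) ^ (c + 3)) :=
          mul_le_mul_of_nonneg_right hδ1 (by positivity)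
      _ ≤ (Real.exp ((H : ℝ) ^ (c + 3)) * ‖pv‖) * Real.exp (-(H : ℝ) ^ (c + 3)) :=
          mul_le_mul_of_nonneg_right h2 (by positivity)
      _ = ‖pv‖ * Real.exp ((H : ℝ) ^ (c + 3) + -(H : ℝ) ^ (c + 3)) := by
          rw [Real.exp_add]; ring
      _ = ‖pv‖ := by rw [add_neg_cancel, Real.exp_zero, mul_one]

end Pool.Agent.Lib.MP_47914d_nt.Hp
end

section
/-!
PTS: special points of `b` and their Klein invariants are algebraic over `ℚ(b, j(b))`, of bounded
size (MP_47914d_nt).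
-/
set_option autoImplicit false

open Complex Filter Topology Polynomial Finset

namespace Pool.Agent.Lib.MP_47914d_nt.Hp

open Hk

/-- Constructor. -/
lemma algX_mk {x : Fin 2 → ℂ} {ξ : ℂ} {D : ℕ} {s : ℕ} (p : ℕ → MvPolynomial (Fin 2) ℤ)
    (hs : s ≤ D) (h1 : ∀ i, Sz (p i) D) (h2 : ∀ i, s < i → p i = 0)
    (h3 : ∃ i, MvPolynomial.aeval x (p i) ≠ 0)
    (h4 : ∑ i ∈ range (s + 1), MvPolynomial.aeval x (p i) * ξ ^ i = 0) : AlgX x ξ D := by
  obtain ⟨i, hi⟩ := h3
  have his : i ≤ s := by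
    by_contra hc
    rw [h2 i (by omega), map_zero] at hi
    exact hi rfl
  refine ⟨p, h1, ⟨i, his.trans hs, hi⟩, ?_⟩
  rw [← h4]
  symm
  apply Finset.sum_subset (by intro a; simp only [mem_range]; omega)
  intro k _ hk
  rw [mem_range] at hk
  rw [h2 k (by omega), map_zero, zero_mul]

lemma algB_toX {x : Fin 2 → ℂ} {ξ : ℂ} {D : ℕ} (h : Sn.AlgB ξ D) : AlgX x ξ D := by
  obtain ⟨F, hF, h0, hd, hc⟩ := h
  refine algX_mk (s := F.natDegree) (fun i => MvPolynomial.C (F.coeff i)) hd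
    (fun i => sz_C _ _ (hc i)) ?_ ⟨F.natDegree, ?_⟩ ?_
  · intro i hi
    rw [Polynomial.coeff_eq_zero_of_natDegree_lt hi, map_zero]
  · rw [MvPolynomial.aeval_C]
    simpa using hF
  · rw [← h0, aeval_eq_sum_range]
    refine Finset.sum_congr rfl fun i _ => ?_
    rw [MvPolynomial.aeval_C, zsmul_eq_mul]
    rfl

/-- The coefficients of `P (u, v)` with respect to `u`. -/
noncomputable def cf (P : MvPolynomial (Fin 2) ℤ) (i : ℕ) : MvPolynomial (Fin 2) ℤ :=
  ∑ m ∈ P.support.filter (fun m => m 0 = i), MvPolynomial.monomial (Finsupp.single 1 (m 1)) (P.coeff m)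

lemma le_td {P : MvPolynomial (Fin 2) ℤ} {m : Fin 2 →₀ ℕ} (hm : m ∈ P.support) (i : Fin 2) :
    m i ≤ P.totalDegree := by
  have h := MvPolynomial.le_totalDegree hm
  have h2 : m i ≤ m.sum fun _ e => e := by
    by_cases hi : i ∈ m.support
    · exact Finset.single_le_sum (f := fun j => m j) (fun _ _ => Nat.zero_le _) hi
    · rw [Finsupp.notMem_support_iff.mp hi]
      exact Nat.zero_le _
  exact h2.trans h

lemma sz_cf {P : MvPolynomial (Fin 2) ℤ} {D : ℕ} (h : Sz P D) (i : ℕ) : Sz (cf P i) D := by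
  classical
  refine ⟨?_, le_trans ?_ h.2⟩
  · refine (MvPolynomial.totalDegree_finsetSum _ _).trans (Finset.sup_le fun m hm => ?_)
    refine (MvPolynomial.totalDegree_monomial_le _ _).trans ?_
    rw [Finsupp.sum_single_index rfl]
    exact (le_td (Finset.mem_filter.1 hm).1 1).trans h.1
  · have h1 : L3.cSum (cf P i) ≤ L3.cSum P := by
      refine (cSum_sum_le _ _).trans ?_
      rw [L3.cSum]
      refine (Finset.sum_le_sum fun m _ => cSum_monomial_le _ _).trans ?_
      exact Finset.sum_le_sum_of_subset (Finset.filter_subset _ _)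
    exact_mod_cast h1

lemma cf_zero {P : MvPolynomial (Fin 2) ℤ} {i : ℕ} (h : P.totalDegree < i) : cf P i = 0 := by
  rw [cf, Finset.filter_false_of_mem, Finset.sum_empty]
  intro m hm hmi
  have := le_td hm 0
  omega

lemma sum_cf (P : MvPolynomial (Fin 2) ℤ) (x : Fin 2 → ℂ) (u : ℂ) :
    ∑ i ∈ range (P.totalDegree + 1), MvPolynomial.aeval x (cf P i) * u ^ i =
      MvPolynomial.aeval ![u, x 1] P := by
  classical
  have h1 : ∀ i, MvPolynomial.aeval x (cf P i) * u ^ i =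
      ∑ m ∈ P.support.filter (fun m => m 0 = i), ((P.coeff m : ℤ) : ℂ) * (u ^ (m 0) * x 1 ^ (m 1)) := by
    intro i
    rw [cf, map_sum, Finset.sum_mul]
    refine Finset.sum_congr rfl fun m hm => ?_
    rw [MvPolynomial.aeval_monomial, Finsupp.prod_single_index (by simp), (Finset.mem_filter.1 hm).2]
    simp only [algebraMap_int_eq, eq_intCast]
    ring
  rw [Finset.sum_congr rfl fun i _ => h1 i]
  rw [Finset.sum_fiberwise_of_maps_to (g := fun m : Fin 2 →₀ ℕ => m 0) (t := range (P.totalDegree + 1))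
    (fun m hm => by rw [mem_range]; have := le_td hm 0; omega)
    (fun m => ((P.coeff m : ℤ) : ℂ) * (u ^ (m 0) * x 1 ^ (m 1)))]
  rw [MvPolynomial.aeval_def, MvPolynomial.eval₂_eq']
  refine Finset.sum_congr rfl fun m _ => ?_
  rw [Fin.prod_univ_two]
  simp

/-- PTS. -/
theorem specPts : SpecPts := by
  obtain ⟨c1, hc1⟩ := specModP
  obtain ⟨c2, hc2⟩ := specCMB
  refine ⟨max (max c1 c2) 3, ?_⟩
  intro H hH b κ hb hκ hsp
  have hH1 : 1 ≤ H := by omega
  set c := max (max c1 c2) 3 with hc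
  have hc1c : H ^ c1 ≤ H ^ c := Nat.pow_le_pow_right hH1 ((le_max_left _ _).trans (le_max_left _ _))
  have hc2c : H ^ c2 ≤ H ^ c := Nat.pow_le_pow_right hH1 ((le_max_right _ _).trans (le_max_left _ _))
  have hc3c : H ^ 3 ≤ H ^ c := Nat.pow_le_pow_right hH1 (le_max_right _ _)
  have hmono : ∀ {ξ : ℂ} {D E : ℕ}, Sn.AlgB ξ D → D ≤ E → Sn.AlgB ξ E := by
    rintro ξ D E ⟨F, hF, h0, hd, hcf⟩ hDE
    exact ⟨F, hF, h0, hd.trans hDE, fun i => (hcf i).trans (Real.exp_le_exp.2 (by exact_mod_cast hDE))⟩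
  rcases hsp with hq | ⟨a, b', c', d, ha, hb', hc', hd, hdet, hrel⟩
  · obtain ⟨h1, h2⟩ := hc2 H hH κ hκ hq
    exact ⟨algB_toX (hmono h1 hc2c), algB_toX (hmono h2 hc2c)⟩
  · have hcd : (c' : ℂ) * b + d ≠ 0 := by
      intro h0
      have him := congrArg Complex.im h0
      have hre := congrArg Complex.re h0
      simp at him hre
      rcases him with h | h
      · rw [h] at hre hdet
        simp at hre
        rw [hre] at hdet
        simp at hdet
      · exact hb.ne' h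
    have hsz : ∀ u v : ℤ, |u| ≤ H → |v| ≤ H →
        Sz (MvPolynomial.C u * MvPolynomial.X 0 + MvPolynomial.C v : MvPolynomial (Fin 2) ℤ) (H ^ c) := by
      intro u v hu hv
      have hu' : u.natAbs ≤ H := by
        rw [Int.abs_eq_natAbs] at hu
        exact_mod_cast hu
      have hv' : v.natAbs ≤ H := by
        rw [Int.abs_eq_natAbs] at hv
        exact_mod_cast hv
      refine ⟨?_, ?_⟩
      · have h1 : (MvPolynomial.C u * MvPolynomial.X 0 + MvPolynomial.C v :
            MvPolynomial (Fin 2) ℤ).totalDegree ≤ 1 := by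
          refine (MvPolynomial.totalDegree_add _ _).trans (max_le ?_ ?_)
          · refine (MvPolynomial.totalDegree_mul _ _).trans ?_
            rw [MvPolynomial.totalDegree_C, MvPolynomial.totalDegree_X]
          · rw [MvPolynomial.totalDegree_C]
            exact Nat.zero_le _
        exact h1.trans (Nat.one_le_pow _ _ hH1)
      · have h1 : L3.cSum (MvPolynomial.C u * MvPolynomial.X 0 + MvPolynomial.C v :
            MvPolynomial (Fin 2) ℤ) ≤ H + H := by
          refine (cSum_add_le _ _).trans (Nat.add_le_add ?_ ?_)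
          · refine (cSum_mul_le _ _).trans ?_
            calc _ ≤ u.natAbs * 1 := Nat.mul_le_mul (cSum_C_le _) (cSum_X_le _)
              _ ≤ H := by rw [mul_one]; omega
          · exact (cSum_C_le _).trans (by omega)
        have h2 : H + H ≤ H ^ c := by
          calc H + H = 2 * H := by ring
            _ ≤ H ^ 2 * H := Nat.mul_le_mul_right _ (hH.trans (Nat.le_self_pow (by norm_num) H))
            _ = H ^ 3 := by ring
            _ ≤ H ^ c := hc3c
        have h3 : ((H ^ c : ℕ) : ℝ) ≤ Real.exp ((H ^ c : ℕ) : ℝ) := by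
          have := Real.add_one_le_exp ((H ^ c : ℕ) : ℝ)
          linarith
        calc _ ≤ ((H ^ c : ℕ) : ℝ) := by exact_mod_cast h1.trans h2
          _ ≤ _ := h3
    refine ⟨?_, ?_⟩
    · -- κ
      refine algX_mk (s := 1) (fun i => if i = 0 then
        MvPolynomial.C a * MvPolynomial.X 0 + MvPolynomial.C b' else if i = 1 then
        -(MvPolynomial.C c' * MvPolynomial.X 0 + MvPolynomial.C d) else 0)
        (Nat.one_le_pow _ _ hH1) ?_ ?_ ⟨1, ?_⟩ ?_
      · intro i
        split_ifs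
        · exact hsz a b' ha hb'
        · exact (hsz c' d hc' hd).neg
        · exact sz_zero _
      · intro i hi
        rw [if_neg (by omega), if_neg (by omega)]
      · simp only [if_neg one_ne_zero, if_true]
        intro h0
        apply hcd
        simp at h0
        linear_combination -h0
      · rw [Finset.sum_range_succ, Finset.sum_range_one]
        simp
        linear_combination -hrel
    · -- j κ
      obtain ⟨P, hP1, hP2, hP3, hP4⟩ := hc1 H hH a b' c' d ha hb' hc' hd hdet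
      have hκe : κ = ((a : ℂ) * b + b') / ((c' : ℂ) * b + d) := by
        rw [eq_div_iff hcd, hrel]
      have hPz : MvPolynomial.aeval ![Jc κ, Jc b] P = 0 := by
        rw [hκe]
        exact hP4 b hb
      have hPS : Sz P (H ^ c) := by
        refine ⟨hP1.trans hc1c, hP2.trans (Real.exp_le_exp.2 ?_)⟩
        have : ((H ^ c1 : ℕ) : ℝ) ≤ ((H ^ c : ℕ) : ℝ) := by exact_mod_cast hc1c
        push_cast at this ⊢
        exact this
      refine algX_mk (s := P.totalDegree) (cf P) hPS.1 (fun i => sz_cf hPS i)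
        (fun i hi => cf_zero hi) ?_ ?_
      · by_contra hcon
        push Not at hcon
        obtain ⟨u, hu⟩ := hP3 (Jc b)
        apply hu
        have := sum_cf P ![b, Jc b] u
        simp only [Matrix.cons_val_one, Matrix.cons_val_fin_one] at this
        rw [← this]
        exact Finset.sum_eq_zero fun i _ => by rw [hcon i, zero_mul]
      · rw [sum_cf]
        exact hPz

end Pool.Agent.Lib.MP_47914d_nt.Hp
end
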