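import Mathlib.Analysis.Polynomial.MahlerMeasure
import Mathlib.Algebra.Polynomial.Bivariate
import Mathlib.RingTheory.Polynomial.UniqueFactorization
import Mathlib.RingTheory.Polynomial.Resultant.Basic
import Mathlib.RingTheory.Polynomial.GaussLemma
import Pool.Agent.Lib.MP_47914d_nt.Hp.Spec
import Pool.Agent.Lib.MP_47914d_nt.Sn.Root
import Mathlib.LinearAlgebra.Matrix.AbsoluteValue

section
/-!
Integral polynomials in two variables: size, evaluation, Kronecker substitution, size of factors,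
a factor with a small value (MP_47914d_nt).
-/
set_option autoImplicit false

open Polynomial Finset

namespace Pool.Agent.Lib.MP_47914d_nt.Hp

/-- Degrees at most `D` and coefficients at most `exp D`. -/
def BSz (f : ℤ[X][X]) (D : ℕ) : Prop :=
  f.natDegree ≤ D ∧ (∀ k, (f.coeff k).natDegree ≤ D) ∧
    ∀ k i, |((f.coeff k).coeff i : ℝ)| ≤ Real.exp D

/-- Evaluation at `(x, y)`; the outer variable goes to `y`. -/
noncomputable def ev (x y : ℂ) : ℤ[X][X] →+* ℂ :=
  eval₂RingHom ((aeval x : ℤ[X] →ₐ[ℤ] ℂ) : ℤ[X] →+* ℂ) y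

lemma ev_C (x y : ℂ) (p : ℤ[X]) : ev x y (C p) = aeval x p := by
  simp [ev]

lemma ev_eq_sum (x y : ℂ) (f : ℤ[X][X]) {n : ℕ} (hn : f.natDegree < n) :
    ev x y f = ∑ k ∈ range n, aeval x (f.coeff k) * y ^ k := by
  simp only [ev, coe_eval₂RingHom]
  rw [eval₂_eq_sum_range' _ hn]
  rfl

lemma coeff_swap (f : ℤ[X][X]) (i k : ℕ) :
    ((Bivariate.swap f).coeff i).coeff k = (f.coeff k).coeff i := by
  induction f using Polynomial.induction_on' with
  | add p q hp hq => simp only [map_add, coeff_add, hp, hq]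
  | monomial n a =>
    induction a using Polynomial.induction_on' with
    | add p q hp hq =>
      simp only [map_add, coeff_add, hp, hq]
    | monomial m r =>
      rw [Bivariate.swap_monomial_monomial]
      simp only [coeff_monomial]
      by_cases h1 : m = i <;> by_cases h2 : n = k <;> simp [h1, h2, coeff_monomial]

lemma ev_swap (x y : ℂ) (f : ℤ[X][X]) : ev x y (Bivariate.swap f) = ev y x f := by
  induction f using Polynomial.induction_on' with
  | add p q hp hq => simp only [map_add, hp, hq]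
  | monomial n a =>
    induction a using Polynomial.induction_on' with
    | add p q hp hq => simp only [map_add, hp, hq]
    | monomial m r =>
      rw [Bivariate.swap_monomial_monomial]
      simp [ev]
      ring

lemma natDegree_swap_le {f : ℤ[X][X]} {D : ℕ} (h : ∀ k, (f.coeff k).natDegree ≤ D) :
    (Bivariate.swap f).natDegree ≤ D := by
  rw [natDegree_le_iff_coeff_eq_zero]
  intro i hi
  ext k
  rw [coeff_swap, coeff_zero]
  exact coeff_eq_zero_of_natDegree_lt ((h k).trans_lt hi)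

lemma coeff_natDegree_le_of_swap {f : ℤ[X][X]} {D : ℕ} (h : (Bivariate.swap f).natDegree ≤ D)
    (k : ℕ) : (f.coeff k).natDegree ≤ D := by
  rw [natDegree_le_iff_coeff_eq_zero]
  intro i hi
  rw [← coeff_swap, coeff_eq_zero_of_natDegree_lt (h.trans_lt hi), coeff_zero]

lemma BSz.swap {f : ℤ[X][X]} {D : ℕ} (h : BSz f D) : BSz (Bivariate.swap f) D := by
  refine ⟨natDegree_swap_le h.2.1, ?_, ?_⟩
  · intro k
    rw [natDegree_le_iff_coeff_eq_zero]
    intro i hi
    rw [coeff_swap, coeff_eq_zero_of_natDegree_lt (h.1.trans_lt hi), coeff_zero]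
  · intro k i
    rw [coeff_swap]
    exact h.2.2 i k

lemma BSz.mono {f : ℤ[X][X]} {D E : ℕ} (h : BSz f D) (hDE : D ≤ E) : BSz f E :=
  ⟨h.1.trans hDE, fun k => (h.2.1 k).trans hDE, fun k i => (h.2.2 k i).trans
    (Real.exp_le_exp.2 (by exact_mod_cast hDE))⟩

/-- Kronecker substitution. -/
noncomputable def kr (N : ℕ) : ℤ[X][X] →+* ℤ[X] := evalRingHom (X ^ N)

lemma coeff_kr {f : ℤ[X][X]} {N : ℕ} (h : ∀ k, (f.coeff k).natDegree < N) (k i : ℕ) (hi : i < N) :
    (kr N f).coeff (i + N * k) = (f.coeff k).coeff i := by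
  simp only [kr, coe_evalRingHom]
  rw [eval_eq_sum_range' (n := f.natDegree + k + 1) (by omega), finsetSum_coeff]
  rw [Finset.sum_eq_single k]
  · rw [← pow_mul, coeff_mul_X_pow]
  · intro b _ hbk
    rw [← pow_mul, coeff_mul_X_pow']
    split_ifs with hc
    · apply coeff_eq_zero_of_natDegree_lt
      have hb : b < k := by
        by_contra hb
        have : k + 1 ≤ b := by omega
        have := Nat.mul_le_mul_left N this
        rw [Nat.mul_add, Nat.mul_one] at this
        omega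
      have h1 : N * b + N ≤ N * k := by
        have := Nat.mul_le_mul_left N (show b + 1 ≤ k by omega)
        rwa [Nat.mul_add, Nat.mul_one] at this
      have := h b
      omega
    · rfl
  · intro hk
    exfalso
    apply hk
    rw [mem_range]
    omega

lemma kr_ne_zero {f : ℤ[X][X]} {N : ℕ} (h : ∀ k, (f.coeff k).natDegree < N) (hf : f ≠ 0) :
    kr N f ≠ 0 := by
  intro h0
  apply hf
  ext k i
  by_cases hi : i < N
  · rw [← coeff_kr h k i hi, h0]
    simp
  · rw [coeff_eq_zero_of_natDegree_lt (by have := h k; omega)]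
    simp

lemma natDegree_kr_le {f : ℤ[X][X]} {D N : ℕ} (h1 : f.natDegree ≤ D)
    (h2 : ∀ k, (f.coeff k).natDegree ≤ D) : (kr N f).natDegree ≤ D + N * D := by
  simp only [kr, coe_evalRingHom]
  rw [eval_eq_sum_range]
  apply natDegree_sum_le_of_forall_le
  intro k hk
  rw [mem_range] at hk
  rw [← pow_mul]
  refine (natDegree_mul_le).trans ?_
  rw [natDegree_X_pow]
  exact Nat.add_le_add (h2 k) (Nat.mul_le_mul_left N (by omega))

lemma coeff_CC (a : ℤ) (k i : ℕ) :
    ((C (C a) : ℤ[X][X]).coeff k).coeff i = if k = 0 ∧ i = 0 then a else 0 := by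
  rw [coeff_C]
  by_cases hk : k = 0
  · rw [if_pos hk, coeff_C]
    by_cases hi : i = 0
    · rw [if_pos hi, if_pos ⟨hk, hi⟩]
    · rw [if_neg hi, if_neg fun h => hi h.2]
  · rw [if_neg hk, if_neg fun h => hk h.1, coeff_zero]

/-- Constant `f` if `kr N f` is constant. -/
lemma eq_const {f : ℤ[X][X]} {N : ℕ} (h : ∀ k, (f.coeff k).natDegree < N)
    (h0 : (kr N f).natDegree = 0) : f = C (C ((f.coeff 0).coeff 0)) := by
  have hN : 0 < N := (Nat.zero_le _).trans_lt (h 0)
  ext k i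
  rw [coeff_CC]
  by_cases hi : i < N
  · by_cases hz : i + N * k = 0
    · have hi0 : i = 0 := by omega
      have hk0 : k = 0 := by
        by_contra hk
        have : N * 1 ≤ N * k := Nat.mul_le_mul_left N (Nat.one_le_iff_ne_zero.2 hk)
        omega
      rw [if_pos ⟨hk0, hi0⟩, hi0, hk0]
    · rw [← coeff_kr h k i hi, coeff_eq_zero_of_natDegree_lt (by omega), if_neg]
      rintro ⟨rfl, rfl⟩
      simp at hz
  · rw [coeff_eq_zero_of_natDegree_lt (by have := h k; omega), if_neg]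
    rintro ⟨_, rfl⟩
    omega

lemma natDegree_le_of_dvd' {f F : ℤ[X][X]} (hF : F ≠ 0) (h : f ∣ F) :
    f.natDegree ≤ F.natDegree := natDegree_le_of_dvd h hF

lemma swap_ne_zero {F : ℤ[X][X]} (hF : F ≠ 0) : Bivariate.swap F ≠ 0 := by
  intro h0
  apply hF
  have h1 := Bivariate.swap_swap_apply F
  rw [h0, map_zero] at h1
  exact h1.symm

lemma swap_dvd {f F : ℤ[X][X]} (h : f ∣ F) : Bivariate.swap f ∣ Bivariate.swap F := by
  obtain ⟨g, hg⟩ := h
  exact ⟨Bivariate.swap g, by rw [hg]; exact map_mul Bivariate.swap f g⟩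

lemma coeff_natDegree_of_dvd {f F : ℤ[X][X]} {D : ℕ} (hF : F ≠ 0) (h : f ∣ F)
    (h2 : ∀ k, (F.coeff k).natDegree ≤ D) (k : ℕ) : (f.coeff k).natDegree ≤ D :=
  coeff_natDegree_le_of_swap
    (le_trans (natDegree_le_of_dvd (swap_dvd h) (swap_ne_zero hF)) (natDegree_swap_le h2)) k

/-- Size of a divisor, one variable. -/
lemma coeff_le_of_dvd {p q : ℤ[X]} (hq : q ≠ 0) (h : p ∣ q) (n : ℕ) :
    |(p.coeff n : ℝ)| ≤ 2 ^ q.natDegree * ∑ i ∈ range (q.natDegree + 1), |(q.coeff i : ℝ)| := by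
  obtain ⟨r, rfl⟩ := h
  have hr : r ≠ 0 := right_ne_zero_of_mul hq
  have hp : p ≠ 0 := left_ne_zero_of_mul hq
  set φ : ℤ →+* ℂ := Int.castRingHom ℂ with hφ
  have hinj : Function.Injective φ := Int.cast_injective
  have h1 : (1 : ℝ) ≤ (r.map φ).mahlerMeasure := by
    apply one_le_mahlerMeasure_of_one_le_norm_leadingCoeff
    rw [leadingCoeff_map_of_injective hinj]
    have : (r.leadingCoeff) ≠ 0 := leadingCoeff_ne_zero.2 hr
    have h2 : (1 : ℤ) ≤ |r.leadingCoeff| := Int.one_le_abs this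
    rw [hφ, eq_intCast, Complex.norm_intCast]
    exact_mod_cast h2
  have h2 := norm_coeff_le_choose_mul_mahlerMeasure_of_one_le_mahlerMeasure n (p.map φ)
    (r.map φ) h1
  rw [coeff_map, hφ, eq_intCast, Complex.norm_intCast, ← hφ, ← Polynomial.map_mul] at h2
  refine h2.trans ?_
  refine mul_le_mul ?_ ?_ (mahlerMeasure_nonneg _) (by positivity)
  · have h3 : (p.map φ).natDegree.choose n ≤ 2 ^ (p.map φ).natDegree := Nat.choose_le_two_pow _ _
    have h4 : (p.map φ).natDegree ≤ (p * r).natDegree := by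
      rw [natDegree_map_eq_of_injective hinj, natDegree_mul hp hr]
      omega
    have h5 : (p.map φ).natDegree.choose n ≤ 2 ^ (p * r).natDegree :=
      h3.trans (Nat.pow_le_pow_right (by norm_num) h4)
    exact_mod_cast h5
  · refine (mahlerMeasure_le_sum_norm_coeff _).trans (le_of_eq ?_)
    rw [sum_over_range _ (by simp), natDegree_map_eq_of_injective hinj]
    refine Finset.sum_congr rfl fun i _ => ?_
    rw [coeff_map, hφ, eq_intCast, Complex.norm_intCast]

end Pool.Agent.Lib.MP_47914d_nt.Hp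
end

section
/-!
FAC: an irreducible factor of moderate size with a small value (MP_47914d_nt).
-/
set_option autoImplicit false

open Polynomial Finset

namespace Pool.Agent.Lib.MP_47914d_nt.Hp

lemma sum_coeff_kr {f : ℤ[X][X]} {D : ℕ} (h : BSz f D) :
    ∑ i ∈ range ((kr (D + 1) f).natDegree + 1), |((kr (D + 1) f).coeff i : ℝ)| ≤
      (D + (D + 1) * D + 1) * Real.exp D := by
  have h1 : ∀ i, |((kr (D + 1) f).coeff i : ℝ)| ≤ Real.exp D := by
    intro i
    have hi : i = i % (D + 1) + (D + 1) * (i / (D + 1)) := (Nat.mod_add_div i (D + 1)).symm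
    rw [hi, coeff_kr (fun k => Nat.lt_succ_of_le (h.2.1 k)) _ _ (Nat.mod_lt _ (by omega))]
    exact h.2.2 _ _
  refine (Finset.sum_le_sum fun i _ => h1 i).trans ?_
  rw [Finset.sum_const, card_range, nsmul_eq_mul]
  refine mul_le_mul_of_nonneg_right ?_ (Real.exp_pos _).le
  have h2 := natDegree_kr_le (N := D + 1) h.1 h.2.1
  have : ((((kr (D + 1) f).natDegree + 1 : ℕ)) : ℝ) ≤ ((D + (D + 1) * D + 1 : ℕ) : ℝ) := by
    exact_mod_cast Nat.add_le_add_right h2 1
  refine this.trans (le_of_eq ?_)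
  push_cast
  ring

lemma exp_aux {D : ℕ} (hD : 2 ≤ D) :
    (2 : ℝ) ^ (D + (D + 1) * D) * ((D + (D + 1) * D + 1) * Real.exp D) ≤
      Real.exp ((D ^ 5 : ℕ) : ℝ) := by
  have h1 : (2 : ℝ) ≤ Real.exp 1 := by
    have := Real.add_one_le_exp (1 : ℝ)
    linarith
  have h2 : (2 : ℝ) ^ (D + (D + 1) * D) ≤ Real.exp ((D + (D + 1) * D : ℕ) : ℝ) := by
    calc (2 : ℝ) ^ (D + (D + 1) * D) ≤ Real.exp 1 ^ (D + (D + 1) * D) :=
          pow_le_pow_left₀ (by norm_num) h1 _
      _ = Real.exp ((D + (D + 1) * D : ℕ) : ℝ) := by rw [← Real.exp_nat_mul, mul_one]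
  have h3 : ((D : ℝ) + (D + 1) * D + 1) ≤ Real.exp ((D + (D + 1) * D : ℕ) : ℝ) := by
    have := Real.add_one_le_exp (((D + (D + 1) * D : ℕ) : ℝ))
    refine le_trans (le_of_eq ?_) this
    push_cast
    ring
  calc (2 : ℝ) ^ (D + (D + 1) * D) * ((D + (D + 1) * D + 1) * Real.exp D)
      ≤ Real.exp ((D + (D + 1) * D : ℕ) : ℝ) * (Real.exp ((D + (D + 1) * D : ℕ) : ℝ) * Real.exp D) := by
        gcongr
    _ = Real.exp (((D + (D + 1) * D) + ((D + (D + 1) * D) + D) : ℕ) : ℝ) := by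
        rw [← Real.exp_add, ← Real.exp_add]
        push_cast
        ring_nf
    _ ≤ Real.exp ((D ^ 5 : ℕ) : ℝ) := by
        apply Real.exp_le_exp.2
        have : (D + (D + 1) * D) + ((D + (D + 1) * D) + D) ≤ D ^ 5 := by
          have e : (D + (D + 1) * D) + ((D + (D + 1) * D) + D) = 2 * D ^ 2 + 5 * D := by ring
          rw [e]
          have h4 : 2 ^ 3 * D ^ 2 ≤ D ^ 3 * D ^ 2 :=
            Nat.mul_le_mul_right _ (Nat.pow_le_pow_left hD 3)
          have h5 : 2 * D ≤ D * D := Nat.mul_le_mul_right _ hD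
          have e2 : D ^ 3 * D ^ 2 = D ^ 5 := by ring
          have e3 : D * D = D ^ 2 := by ring
          rw [e2] at h4
          rw [e3] at h5
          omega
        exact_mod_cast this

/-- Size of factors. -/
theorem BSz.of_dvd {f F : ℤ[X][X]} {D : ℕ} (hD : 2 ≤ D) (hF : F ≠ 0) (h : BSz F D) (hf : f ∣ F) :
    BSz f (D ^ 5) := by
  have hD5 : D ≤ D ^ 5 := Nat.le_self_pow (by norm_num) D
  have h2 : ∀ k, (f.coeff k).natDegree ≤ D := coeff_natDegree_of_dvd hF hf h.2.1
  refine ⟨((natDegree_le_of_dvd hf hF).trans h.1).trans hD5, fun k => (h2 k).trans hD5, ?_⟩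
  intro k i
  by_cases hi : i < D + 1
  · rw [← coeff_kr (N := D + 1) (fun k => Nat.lt_succ_of_le (h2 k)) k i hi]
    have h3 := coeff_le_of_dvd (kr_ne_zero (N := D + 1) (fun k => Nat.lt_succ_of_le (h.2.1 k)) hF)
      (map_dvd (kr (D + 1)) hf) (i + (D + 1) * k)
    refine h3.trans (le_trans ?_ (exp_aux hD))
    refine mul_le_mul ?_ (sum_coeff_kr h) (Finset.sum_nonneg fun _ _ => abs_nonneg _)
      (by positivity)
    exact pow_le_pow_right₀ (by norm_num) (natDegree_kr_le h.1 h.2.1)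
  · rw [coeff_eq_zero_of_natDegree_lt (by have := h2 k; omega)]
    simp only [Int.cast_zero, abs_zero]
    positivity

lemma exists_small_factor (s : Multiset ℝ) (h0 : s ≠ 0) (h : ∀ a ∈ s, 0 ≤ a ∧ a ≤ 1) :
    ∃ a ∈ s, a ^ Multiset.card s ≤ s.prod := by
  induction s using Multiset.induction_on with
  | empty => exact absurd rfl h0
  | cons a s ih =>
    by_cases hs : s = 0
    · subst hs
      exact ⟨a, by simp, by simp⟩
    · obtain ⟨b, hb, hb2⟩ := ih hs fun c hc => h c (Multiset.mem_cons_of_mem hc)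
      obtain ⟨ha0, ha1⟩ := h a (Multiset.mem_cons_self a s)
      obtain ⟨hb0, hb1⟩ := h b (Multiset.mem_cons_of_mem hb)
      rw [Multiset.card_cons, Multiset.prod_cons]
      by_cases hab : a ≤ b
      · refine ⟨a, Multiset.mem_cons_self a s, ?_⟩
        rw [pow_succ, mul_comm]
        exact mul_le_mul_of_nonneg_left ((pow_le_pow_left₀ ha0 hab _).trans hb2) ha0
      · push Not at hab
        refine ⟨b, Multiset.mem_cons_of_mem hb, ?_⟩
        rw [pow_succ, mul_comm]
        exact mul_le_mul hab.le hb2 (pow_nonneg hb0 _) ha0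

lemma norm_ev_unit (x y : ℂ) {u : ℤ[X][X]} (hu : IsUnit u) : ‖ev x y u‖ = 1 := by
  obtain ⟨r, hr, rfl⟩ := Polynomial.isUnit_iff.1 hu
  obtain ⟨s, hs, rfl⟩ := Polynomial.isUnit_iff.1 hr
  rw [ev_C, aeval_C]
  rcases Int.isUnit_iff.1 hs with rfl | rfl <;> simp

lemma prod_filter_le (s : Multiset ℤ[X][X]) (g : ℤ[X][X] → ℝ) (h : ∀ a ∈ s, 0 ≤ g a) :
    ((s.filter fun a => g a < 1).map g).prod ≤ (s.map g).prod := by
  classical
  induction s using Multiset.induction_on with
  | empty => simp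
  | cons a s ih =>
    have ih' := ih fun b hb => h b (Multiset.mem_cons_of_mem hb)
    have ha := h a (Multiset.mem_cons_self a s)
    have hp : 0 ≤ ((s.filter fun a => g a < 1).map g).prod := by
      apply Multiset.prod_nonneg
      intro b hb
      obtain ⟨c, hc, rfl⟩ := Multiset.mem_map.1 hb
      exact h c (Multiset.mem_cons_of_mem (Multiset.mem_of_mem_filter hc))
    by_cases hc : g a < 1
    · rw [Multiset.filter_cons_of_pos (s := s) (p := fun a => g a < 1) hc, Multiset.map_cons,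
        Multiset.map_cons, Multiset.prod_cons, Multiset.prod_cons]
      exact mul_le_mul_of_nonneg_left ih' ha
    · rw [Multiset.filter_cons_of_neg (s := s) (p := fun a => g a < 1) hc, Multiset.map_cons,
        Multiset.prod_cons]
      push Not at hc
      calc _ ≤ 1 * ((s.filter fun a => g a < 1).map g).prod := by rw [one_mul]
        _ ≤ g a * (s.map g).prod := mul_le_mul hc ih' hp ha

/-- FAC: an irreducible factor with a small value. -/
theorem fac : ∃ c : ℕ, ∀ D : ℕ, 2 ≤ D → ∀ F : ℤ[X][X], F ≠ 0 → BSz F D → ∀ x y : ℂ,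
    ‖ev x y F‖ < 1 → ∃ f : ℤ[X][X], Irreducible f ∧ f ∣ F ∧ BSz f (D ^ c) ∧ ‖ev x y f‖ < 1 ∧
      ‖ev x y f‖ ^ (D ^ c) ≤ ‖ev x y F‖ := by
  classical
  refine ⟨5, ?_⟩
  intro D hD F hF hSz x y hlt
  obtain ⟨s, hs, hsF⟩ := WfDvdMonoid.exists_factors F hF
  obtain ⟨u, hu⟩ := hsF
  set g : ℤ[X][X] → ℝ := fun a => ‖ev x y a‖ with hg
  have hprod : (s.map g).prod = ‖ev x y F‖ := by
    rw [← hu, map_mul, norm_mul, norm_ev_unit x y u.isUnit, mul_one]
    have : ∀ t : Multiset ℤ[X][X], (t.map g).prod = ‖ev x y t.prod‖ := by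
      intro t
      induction t using Multiset.induction_on with
      | empty => simp
      | cons a t ih =>
        rw [Multiset.map_cons, Multiset.prod_cons, Multiset.prod_cons, map_mul, norm_mul, ih]
    exact this s
  set s1 := s.filter fun a => g a < 1 with hs1
  have h1 : (s1.map g).prod ≤ ‖ev x y F‖ := by
    rw [← hprod]
    exact prod_filter_le s g fun a _ => norm_nonneg _
  have hne : s1.map g ≠ 0 := by
    intro h0
    rw [h0, Multiset.prod_zero] at h1
    linarith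
  obtain ⟨a, ha, ha2⟩ := exists_small_factor (s1.map g) hne (by
    intro a ha
    obtain ⟨b, hb, rfl⟩ := Multiset.mem_map.1 ha
    exact ⟨norm_nonneg _, ((Multiset.mem_filter.1 hb).2).le⟩)
  obtain ⟨f, hf, rfl⟩ := Multiset.mem_map.1 ha
  have hfs : f ∈ s := Multiset.mem_of_mem_filter hf
  have hdvd : ∀ b ∈ s, b ∣ F := by
    intro b hb
    rw [← hu]
    exact (Multiset.dvd_prod hb).mul_right _
  refine ⟨f, hs f hfs, hdvd f hfs, BSz.of_dvd hD hF hSz (hdvd f hfs), (Multiset.mem_filter.1 hf).2,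
    le_trans ?_ (ha2.trans h1)⟩
  refine pow_le_pow_of_le_one (norm_nonneg _) ((Multiset.mem_filter.1 hf).2).le ?_
  rw [Multiset.card_map]
  -- number of factors
  have hc : ∀ b ∈ s1, 1 ≤ (kr (D + 1) b).natDegree := by
    intro b hb
    have hbs : b ∈ s := Multiset.mem_of_mem_filter hb
    by_contra hcon
    have h0 : (kr (D + 1) b).natDegree = 0 := by omega
    have hb2 := eq_const (N := D + 1) (fun k => Nat.lt_succ_of_le
      (coeff_natDegree_of_dvd hF (hdvd b hbs) hSz.2.1 k)) h0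
    have hb3 : ‖ev x y b‖ < 1 := (Multiset.mem_filter.1 hb).2
    rw [hb2, ev_C, aeval_C] at hb3
    have hz : (b.coeff 0).coeff 0 ≠ 0 := by
      intro h0
      have hb0 : b = 0 := by
        rw [hb2, h0, C_0, C_0]
      exact (hs b hbs).ne_zero hb0
    have h5 : (1 : ℤ) ≤ |(b.coeff 0).coeff 0| := Int.one_le_abs hz
    rw [eq_intCast, Complex.norm_intCast] at hb3
    have h6 : (1 : ℝ) ≤ |(((b.coeff 0).coeff 0 : ℤ) : ℝ)| := by exact_mod_cast h5
    linarith
  have hne0 : ∀ b ∈ s, kr (D + 1) b ≠ 0 := fun b hb => kr_ne_zero (fun k => Nat.lt_succ_of_le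
      (coeff_natDegree_of_dvd hF (hdvd b hb) hSz.2.1 k)) (hs b hb).ne_zero
  have hcard : Multiset.card s1 ≤ (s.map fun b => (kr (D + 1) b).natDegree).sum := by
    have h7 : Multiset.card s1 ≤ (s1.map fun b => (kr (D + 1) b).natDegree).sum := by
      have : ∀ t : Multiset ℤ[X][X], (∀ b ∈ t, 1 ≤ (kr (D + 1) b).natDegree) →
          Multiset.card t ≤ (t.map fun b => (kr (D + 1) b).natDegree).sum := by
        intro t
        induction t using Multiset.induction_on with
        | empty => simp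
        | cons b t ih =>
          intro h
          rw [Multiset.card_cons, Multiset.map_cons, Multiset.sum_cons]
          have h8 := ih fun c hc => h c (Multiset.mem_cons_of_mem hc)
          have h9 := h b (Multiset.mem_cons_self b t)
          omega
      exact this s1 hc
    refine h7.trans ?_
    have h8 : s1 ≤ s := Multiset.filter_le _ _
    obtain ⟨t, ht⟩ := Multiset.le_iff_exists_add.1 h8
    rw [ht, Multiset.map_add, Multiset.sum_add]
    omega
  have hsum : (s.map fun b => (kr (D + 1) b).natDegree).sum = (kr (D + 1) s.prod).natDegree := by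
    have : ∀ t : Multiset ℤ[X][X], (∀ b ∈ t, kr (D + 1) b ≠ 0) →
        kr (D + 1) t.prod ≠ 0 ∧
        (t.map fun b => (kr (D + 1) b).natDegree).sum = (kr (D + 1) t.prod).natDegree := by
      intro t
      induction t using Multiset.induction_on with
      | empty => simp
      | cons b t ih =>
        intro h
        obtain ⟨h8, h9⟩ := ih fun c hc => h c (Multiset.mem_cons_of_mem hc)
        have h10 := h b (Multiset.mem_cons_self b t)
        rw [Multiset.prod_cons, map_mul, Multiset.map_cons, Multiset.sum_cons, h9,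
          natDegree_mul h10 h8]
        exact ⟨mul_ne_zero h10 h8, rfl⟩
    exact (this s hne0).2
  have hle : (kr (D + 1) s.prod).natDegree ≤ (kr (D + 1) F).natDegree := by
    have hd1 : s.prod ∣ F := ⟨(u : ℤ[X][X]), hu.symm⟩
    have hd2 : kr (D + 1) s.prod ∣ kr (D + 1) F := map_dvd (kr (D + 1)) hd1
    exact natDegree_le_of_dvd hd2 (kr_ne_zero (fun k => Nat.lt_succ_of_le (hSz.2.1 k)) hF)
  have hfin := natDegree_kr_le (N := D + 1) hSz.1 hSz.2.1
  have hD5 : D + (D + 1) * D ≤ D ^ 5 := by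
    have e : D + (D + 1) * D = D ^ 2 + 2 * D := by ring
    rw [e]
    have h4 : 2 ^ 3 * D ^ 2 ≤ D ^ 3 * D ^ 2 :=
      Nat.mul_le_mul_right _ (Nat.pow_le_pow_left hD 3)
    have h5 : 2 * D ≤ D * D := Nat.mul_le_mul_right _ hD
    have e2 : D ^ 3 * D ^ 2 = D ^ 5 := by ring
    have e3 : D * D = D ^ 2 := by ring
    rw [e2] at h4
    rw [e3] at h5
    omega
  rw [hsum] at hcard
  omega

end Pool.Agent.Lib.MP_47914d_nt.Hp
end

section
/-!
RES: a point on a curve at which another polynomial is very small but not zero is very close to an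
algebraic point (MP_47914d_nt).
-/
set_option autoImplicit false

open Polynomial Finset

namespace Pool.Agent.Lib.MP_47914d_nt.Hp

open Hk.Root (l1 l1_mul_le l1_sum_le l1_nonneg l1_zero l1_one l1_neg l1_le_of abs_coeff_le)

lemma l1_prod_le {κ : Type*} (s : Finset κ) (f : κ → ℤ[X]) : l1 (∏ k ∈ s, f k) ≤ ∏ k ∈ s, l1 (f k) := by
  classical
  induction s using Finset.induction_on with
  | empty => simp [l1_one]
  | insert a s ha ih =>
    rw [Finset.prod_insert ha, Finset.prod_insert ha]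
    exact (l1_mul_le _ _).trans (mul_le_mul_of_nonneg_left ih (l1_nonneg _))

/-- The determinant, coefficients. -/
lemma l1_det_le {n : ℕ} (M : Matrix (Fin n) (Fin n) ℤ[X]) (B : ℝ) (h : ∀ i j, l1 (M i j) ≤ B) :
    l1 M.det ≤ n.factorial * B ^ n := by
  rw [Matrix.det_apply]
  refine (l1_sum_le _ _).trans ?_
  have h1 : ∀ σ : Equiv.Perm (Fin n), l1 (Equiv.Perm.sign σ • ∏ i, M (σ i) i) ≤ B ^ n := by
    intro σ
    have h2 : l1 (∏ i, M (σ i) i) ≤ B ^ n := by
      refine (l1_prod_le _ _).trans ?_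
      refine (Finset.prod_le_prod (fun i _ => l1_nonneg _) fun i _ => h (σ i) i).trans ?_
      simp
    rcases Int.units_eq_one_or (Equiv.Perm.sign σ) with h3 | h3 <;> rw [h3]
    · simpa using h2
    · rw [Units.neg_smul, one_smul, l1_neg]
      exact h2
  refine (Finset.sum_le_sum fun σ _ => h1 σ).trans ?_
  rw [Finset.sum_const, Finset.card_univ, Fintype.card_perm, Fintype.card_fin, nsmul_eq_mul]

/-- The determinant, value. -/
lemma norm_det_le {n : ℕ} (M : Matrix (Fin (n + 1)) (Fin (n + 1)) ℂ) (B ε : ℝ) (hB : 1 ≤ B)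
    (h : ∀ i j, ‖M i j‖ ≤ B) (w : Fin (n + 1) → ℂ) (hw : w 0 = 1)
    (hε : ∀ j, ‖∑ i, w i * M i j‖ ≤ ε) :
    ‖M.det‖ ≤ (n + 1) * ((n + 1).factorial * B ^ (n + 1)) * ε := by
  have h1 : Matrix.vecMul (Matrix.vecMul w M) M.adjugate = M.det • w := by
    rw [Matrix.vecMul_vecMul, Matrix.mul_adjugate, Matrix.vecMul_smul, Matrix.vecMul_one]
  have h2 := congrFun h1 0
  simp only [Matrix.vecMul, dotProduct, Pi.smul_apply, smul_eq_mul, hw, mul_one] at h2
  rw [← h2]
  refine (norm_sum_le _ _).trans ?_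
  have h3 : ∀ i : Fin (n + 1), ‖(∑ j, w j * M j i) * M.adjugate i 0‖ ≤
      ((n + 1).factorial * B ^ (n + 1)) * ε := by
    intro i
    rw [norm_mul, mul_comm]
    refine mul_le_mul ?_ (hε i) (norm_nonneg _) (by positivity)
    rw [Matrix.adjugate_apply]
    have h4 := Matrix.det_le (A := M.updateRow 0 (Pi.single i 1))
      (abv := AbsoluteValue.mk ⟨fun z : ℂ => ‖z‖, fun a b => norm_mul a b⟩ (fun a => norm_nonneg a)
        (fun a => norm_eq_zero) (fun a b => norm_add_le a b)) (x := B) (by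
        intro k l
        show ‖(M.updateRow 0 (Pi.single i 1)) k l‖ ≤ B
        rw [Matrix.updateRow_apply]
        split_ifs
        · rw [Pi.single_apply]
          split_ifs <;> simp <;> linarith
        · exact h k l)
    simpa [nsmul_eq_mul] using h4
  refine (Finset.sum_le_sum fun i _ => h3 i).trans ?_
  rw [Finset.sum_const, Finset.card_univ, Fintype.card_fin, nsmul_eq_mul]
  push_cast
  ring_nf
  rfl

/-! ### the resultant -/

lemma natDegree_resultant_le (f g : ℤ[X][X]) (m n a b : ℕ) (hf : ∀ k, (f.coeff k).natDegree ≤ a)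
    (hg : ∀ k, (g.coeff k).natDegree ≤ b) :
    (resultant f g m n).natDegree ≤ m * b + n * a := by
  rw [resultant, Matrix.det_apply]
  apply Polynomial.natDegree_sum_le_of_forall_le
  intro σ _
  have h1 : (∏ i, sylvester f g m n (σ i) i).natDegree ≤ m * b + n * a := by
    refine (Polynomial.natDegree_prod_le _ _).trans ?_
    rw [Fin.sum_univ_add]
    have h2 : ∀ i : Fin m,
        (sylvester f g m n (σ (Fin.castAdd n i)) (Fin.castAdd n i)).natDegree ≤ b := by
      intro i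
      simp only [sylvester, Matrix.of_apply, Fin.addCases_left]
      split_ifs
      · exact hg _
      · simp
    have h3 : ∀ i : Fin n,
        (sylvester f g m n (σ (Fin.natAdd m i)) (Fin.natAdd m i)).natDegree ≤ a := by
      intro i
      simp only [sylvester, Matrix.of_apply, Fin.addCases_right]
      split_ifs
      · exact hf _
      · simp
    calc _ ≤ ∑ _i : Fin m, b + ∑ _i : Fin n, a :=
          Nat.add_le_add (Finset.sum_le_sum fun i _ => h2 i) (Finset.sum_le_sum fun i _ => h3 i)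
      _ = m * b + n * a := by simp
  refine le_trans ?_ h1
  rcases Int.units_eq_one_or (Equiv.Perm.sign σ) with h | h <;> rw [h] <;> simp

lemma resultant_ne' (K : Type) [Field K] [Algebra ℤ[X] K] [IsFractionRing ℤ[X] K]
    (f g : ℤ[X][X]) (hf : Irreducible f) (hd : f.natDegree ≠ 0)
    (hfg : ¬ f ∣ g) : resultant f g ≠ 0 := by
  intro h0
  have hg0 : g ≠ 0 := by
    rintro rfl
    exact hfg (dvd_zero f)
  have hinj : Function.Injective (algebraMap ℤ[X] K) :=
    IsFractionRing.injective ℤ[X] K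
  have hprim : f.IsPrimitive := hf.isPrimitive hd
  have hirr : Irreducible (f.map (algebraMap ℤ[X] K)) :=
    (hprim.irreducible_iff_irreducible_map_fraction_map).mp hf
  have hres : resultant (f.map (algebraMap ℤ[X] K))
      (g.map (algebraMap ℤ[X] K)) = 0 := by
    rw [natDegree_map_eq_of_injective hinj, natDegree_map_eq_of_injective hinj,
      resultant_map_map, h0, map_zero]
  rw [resultant_eq_zero_iff] at hres
  have hcop := hres.2
  have hdvd : f.map (algebraMap ℤ[X] K) ∣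
      g.map (algebraMap ℤ[X] K) := by
    by_contra hnd
    exact hcop ((hirr.coprime_iff_not_dvd).mpr hnd)
  obtain ⟨q, hq⟩ := hdvd
  obtain ⟨b, hb, hb2⟩ := IsLocalization.integerNormalization_spec (nonZeroDivisors ℤ[X]) q
  have hmul : C b * g = f * IsLocalization.integerNormalization (nonZeroDivisors ℤ[X]) q := by
    apply Polynomial.map_injective _ hinj
    rw [Polynomial.map_mul, Polynomial.map_mul, hb2, hq, Polynomial.map_C, Algebra.smul_def]
    rw [IsScalarTower.algebraMap_apply ℤ[X] K K[X],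
      Polynomial.algebraMap_eq]
    ring
  have hb0 : b ≠ 0 := nonZeroDivisors.ne_zero hb
  have hpr : Prime f := hf.prime
  rcases hpr.dvd_or_dvd (Dvd.intro _ hmul.symm) with h | h
  · have hc : (C b : ℤ[X][X]) ≠ 0 := by simpa using hb0
    have := Polynomial.natDegree_le_of_dvd h hc
    rw [natDegree_C] at this
    omega
  · exact hfg h

lemma resultant_ne (f g : ℤ[X][X]) (hf : Irreducible f) (hd : f.natDegree ≠ 0)
    (hfg : ¬ f ∣ g) : resultant f g ≠ 0 :=
  resultant_ne' (FractionRing ℤ[X]) f g hf hd hfg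

lemma norm_aeval_le (p : ℤ[X]) (x : ℂ) {M : ℝ} (hM : 1 ≤ M) (hx : ‖x‖ ≤ M) {D : ℕ}
    (hp : p.natDegree ≤ D) : ‖aeval x p‖ ≤ l1 p * M ^ D := by
  rw [aeval_eq_sum_range' (n := D + 1) (by omega), Hk.Root.l1_eq (s := range (D + 1)) (by
    intro i hi
    rw [mem_range]
    have := Polynomial.le_natDegree_of_mem_supp i hi
    omega), Finset.sum_mul]
  refine (norm_sum_le _ _).trans (Finset.sum_le_sum fun i hi => ?_)
  rw [zsmul_eq_mul, norm_mul, norm_pow, Complex.norm_intCast]
  refine mul_le_mul_of_nonneg_left ?_ (abs_nonneg _)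
  calc ‖x‖ ^ i ≤ M ^ i := pow_le_pow_left₀ (norm_nonneg _) hx i
    _ ≤ M ^ D := pow_le_pow_right₀ hM (by rw [mem_range] at hi; omega)

/-- A window sum. -/
lemma window_sum (N j n : ℕ) (hN : j + n < N) (a : ℕ → ℂ) (y : ℂ) :
    ∑ i : Fin N, y ^ (i : ℕ) * (if (i : ℕ) ∈ Set.Icc j (j + n) then a (i - j) else 0) =
      y ^ j * ∑ k ∈ range (n + 1), a k * y ^ k := by
  rw [Fin.sum_univ_eq_sum_range (fun i => y ^ i * (if i ∈ Set.Icc j (j + n) then a (i - j) else 0)) N]
  simp only [mul_ite, mul_zero]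
  rw [← Finset.sum_filter]
  have h1 : (range N).filter (fun i => i ∈ Set.Icc j (j + n)) = Finset.image (fun k => k + j) (range (n + 1)) := by
    ext i
    simp only [mem_filter, mem_range, Set.mem_Icc, mem_image]
    constructor
    · rintro ⟨_, h2, h3⟩
      exact ⟨i - j, by omega, by omega⟩
    · rintro ⟨k, hk, rfl⟩
      omega
  rw [h1, Finset.sum_image (by intro a _ b _ h; simpa using h), Finset.mul_sum]
  refine Finset.sum_congr rfl fun k _ => ?_
  rw [Nat.add_sub_cancel, pow_add]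
  ring

/-- The value of the resultant. -/
lemma norm_resultant_le {f g : ℤ[X][X]} {D : ℕ} (hD : 2 ≤ D) (hf : BSz f D) (hg : BSz g D)
    (hd : f.natDegree ≠ 0) (x y : ℂ) (hx : ‖x‖ ≤ D) (hy : ‖y‖ ≤ D) (h0 : ev x y f = 0) :
    ‖aeval x (resultant f g)‖ ≤
      (2 * D) * ((2 * D).factorial * ((D + 1) * Real.exp D * D ^ D) ^ (2 * D)) *
        (D ^ (2 * D) * ‖ev x y g‖) := by
  set m := f.natDegree with hm
  set n := g.natDegree with hn
  obtain ⟨N, hN⟩ : ∃ N, m + n = N + 1 := ⟨m + n - 1, by omega⟩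
  have hD1 : (1 : ℝ) ≤ D := by exact_mod_cast (by omega : 1 ≤ D)
  set B : ℝ := (D + 1) * Real.exp D * D ^ D with hB
  have hB1 : 1 ≤ B := by
    rw [hB]
    have h1 : (1 : ℝ) ≤ D + 1 := by linarith
    have h2 : (1 : ℝ) ≤ Real.exp D := Real.one_le_exp (by positivity)
    have h3 : (1 : ℝ) ≤ (D : ℝ) ^ D := one_le_pow₀ hD1
    calc (1 : ℝ) = 1 * 1 * 1 := by ring
      _ ≤ _ := by gcongr
  have hcoef : ∀ {q : ℤ[X][X]}, BSz q D → ∀ k, ‖aeval x (q.coeff k)‖ ≤ B := by
    intro q hq k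
    refine (norm_aeval_le _ x hD1 hx (hq.2.1 k)).trans ?_
    rw [hB]
    exact mul_le_mul_of_nonneg_right (l1_le_of (hq.2.1 k) (hq.2.2 k)) (by positivity)
  set φ : ℤ[X] →+* ℂ := ((aeval x : ℤ[X] →ₐ[ℤ] ℂ) : ℤ[X] →+* ℂ) with hφ
  have hdet : aeval x (resultant f g) = (φ.mapMatrix (sylvester f g m n)).det := by
    rw [resultant, ← RingHom.map_det]
    rfl
  rw [hdet]
  -- reindex to `Fin (N + 1)`
  set e : Fin (m + n) ≃ Fin (N + 1) := finCongr hN with he
  set M : Matrix (Fin (N + 1)) (Fin (N + 1)) ℂ :=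
    Matrix.reindex e e (φ.mapMatrix (sylvester f g m n)) with hM
  have hMdet : M.det = (φ.mapMatrix (sylvester f g m n)).det := by
    rw [hM, Matrix.det_reindex_self]
  rw [← hMdet]
  have hent : ∀ i j, ‖(φ.mapMatrix (sylvester f g m n)) i j‖ ≤ B := by
    intro i j
    rw [RingHom.mapMatrix_apply, Matrix.map_apply]
    refine Fin.addCases (fun j₁ => ?_) (fun j₁ => ?_) j
    · simp only [sylvester, Matrix.of_apply, Fin.addCases_left]
      split_ifs
      · exact hcoef hg _
      · rw [map_zero, norm_zero]; linarith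
    · simp only [sylvester, Matrix.of_apply, Fin.addCases_right]
      split_ifs
      · exact hcoef hf _
      · rw [map_zero, norm_zero]; linarith
  have hyD : ∀ k, k ≤ 2 * D → ‖y‖ ^ k ≤ (D : ℝ) ^ (2 * D) := by
    intro k hk
    calc ‖y‖ ^ k ≤ (D : ℝ) ^ k := pow_le_pow_left₀ (norm_nonneg _) hy k
      _ ≤ (D : ℝ) ^ (2 * D) := pow_le_pow_right₀ hD1 hk
  have hmD : m ≤ D := hf.1
  have hnD : n ≤ D := hg.1
  have hcol : ∀ j, ‖∑ i : Fin (m + n), y ^ (i : ℕ) * (φ.mapMatrix (sylvester f g m n)) i j‖ ≤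
      (D : ℝ) ^ (2 * D) * ‖ev x y g‖ := by
    intro j
    refine Fin.addCases (fun j₁ => ?_) (fun j₁ => ?_) j
    · have h1 : ∑ i : Fin (m + n), y ^ (i : ℕ) *
          (φ.mapMatrix (sylvester f g m n)) i (Fin.castAdd n j₁) = y ^ (j₁ : ℕ) * ev x y g := by
        rw [ev_eq_sum x y g (n := n + 1) (by omega),
          ← window_sum (m + n) j₁ n (by have := j₁.2; omega) (fun k => aeval x (g.coeff k)) y]
        refine Finset.sum_congr rfl fun i _ => ?_
        rw [RingHom.mapMatrix_apply, Matrix.map_apply]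
        simp only [sylvester, Matrix.of_apply, Fin.addCases_left]
        split_ifs
        · rfl
        · rw [map_zero]
      rw [h1, norm_mul, norm_pow]
      exact mul_le_mul_of_nonneg_right (hyD _ (by have := j₁.2; omega)) (norm_nonneg _)
    · have h1 : ∑ i : Fin (m + n), y ^ (i : ℕ) *
          (φ.mapMatrix (sylvester f g m n)) i (Fin.natAdd m j₁) = y ^ (j₁ : ℕ) * ev x y f := by
        rw [ev_eq_sum x y f (n := m + 1) (by omega),
          ← window_sum (m + n) j₁ m (by have := j₁.2; omega) (fun k => aeval x (f.coeff k)) y]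
        refine Finset.sum_congr rfl fun i _ => ?_
        rw [RingHom.mapMatrix_apply, Matrix.map_apply]
        simp only [sylvester, Matrix.of_apply, Fin.addCases_right]
        split_ifs
        · rfl
        · rw [map_zero]
      rw [h1, h0, mul_zero, norm_zero]
      positivity
  have key := norm_det_le M B ((D : ℝ) ^ (2 * D) * ‖ev x y g‖) hB1
    (fun i j => by rw [hM]; exact hent _ _) (fun i => y ^ ((e.symm i : Fin (m + n)) : ℕ))
    (by simp [he]) (by
      intro j
      have h2 : ∑ i : Fin (N + 1), y ^ ((e.symm i : Fin (m + n)) : ℕ) * M i j =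
          ∑ i : Fin (m + n), y ^ (i : ℕ) * (φ.mapMatrix (sylvester f g m n)) i (e.symm j) := by
        rw [← Equiv.sum_comp e]
        refine Finset.sum_congr rfl fun i _ => ?_
        rw [hM]
        simp
      rw [h2]
      exact hcol _)
  refine key.trans ?_
  have hN2 : N + 1 ≤ 2 * D := by omega
  have hN3 : ((N : ℝ) + 1) ≤ 2 * D := by exact_mod_cast hN2
  have hfac : ((N + 1).factorial : ℝ) ≤ (2 * D).factorial := by
    exact_mod_cast Nat.factorial_le hN2
  have hpow : B ^ (N + 1) ≤ B ^ (2 * D) := pow_le_pow_right₀ hB1 hN2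
  have hB0 : 0 ≤ B := by linarith
  gcongr

/-- From a small value of a nonzero integral polynomial to a close root. -/
lemma close_root {r : ℤ[X]} (hr : r ≠ 0) {E : ℕ} (hE : r.natDegree ≤ E) {x : ℂ} {T S : ℝ}
    (hT : 0 ≤ T) (h1 : 0 < S) (hS : E * T < S) (hval : ‖aeval x r‖ ≤ Real.exp (-S)) :
    ∃ ξ : ℂ, aeval ξ r = 0 ∧ ‖x - ξ‖ ≤ Real.exp (-T) := by
  have hinj : Function.Injective (Int.castRingHom ℂ) := Int.cast_injective
  have hmap : ∀ z : ℂ, (r.map (Int.castRingHom ℂ)).eval z = aeval z r := by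
    intro z
    rw [eval_map, aeval_def]
    rfl
  have hlc : (1 : ℝ) ≤ ‖(r.map (Int.castRingHom ℂ)).leadingCoeff‖ := by
    rw [leadingCoeff_map_of_injective hinj, eq_intCast, Complex.norm_intCast]
    have h2 : (1 : ℤ) ≤ |r.leadingCoeff| := Int.one_le_abs (leadingCoeff_ne_zero.2 hr)
    exact_mod_cast h2
  by_cases hd : r.natDegree = 0
  · exfalso
    have h3 : r = C (r.coeff 0) := eq_C_of_natDegree_eq_zero hd
    have h4 : r.coeff 0 ≠ 0 := by
      intro h0
      rw [h0, C_0] at h3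
      exact hr h3
    have h5 : (1 : ℤ) ≤ |r.coeff 0| := Int.one_le_abs h4
    have h6 : (1 : ℝ) ≤ |((r.coeff 0 : ℤ) : ℝ)| := by exact_mod_cast h5
    rw [h3, aeval_C, eq_intCast, Complex.norm_intCast] at hval
    have h7 : Real.exp (-S) < 1 := by
      rw [← Real.exp_zero]
      exact Real.exp_lt_exp.2 (by linarith)
    linarith
  · have hd' : (r.map (Int.castRingHom ℂ)).natDegree ≠ 0 := by
      rw [natDegree_map_eq_of_injective hinj]
      exact hd
    have hne : r.map (Int.castRingHom ℂ) ≠ 0 := by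
      intro h0
      rw [h0] at hd'
      exact hd' natDegree_zero
    obtain ⟨ξ, hξ, hclose⟩ := Sn.Beta.exists_close_root (r.map (Int.castRingHom ℂ)) hne hd' x
    refine ⟨ξ, by rw [← hmap]; exact hξ, ?_⟩
    rw [hmap, natDegree_map_eq_of_injective hinj] at hclose
    by_contra hcon
    push Not at hcon
    have h8 : ‖x - ξ‖ ^ r.natDegree ≤ Real.exp (-S) := by
      have h9 : 0 ≤ ‖x - ξ‖ ^ r.natDegree := by positivity
      calc ‖x - ξ‖ ^ r.natDegree = 1 * ‖x - ξ‖ ^ r.natDegree := (one_mul _).symm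
        _ ≤ ‖(r.map (Int.castRingHom ℂ)).leadingCoeff‖ * ‖x - ξ‖ ^ r.natDegree :=
            mul_le_mul_of_nonneg_right hlc h9
        _ ≤ ‖aeval x r‖ := hclose
        _ ≤ _ := hval
    have h10 : Real.exp (-T) ^ r.natDegree < ‖x - ξ‖ ^ r.natDegree :=
      pow_lt_pow_left₀ hcon (Real.exp_pos _).le hd
    rw [← Real.exp_nat_mul] at h10
    have h11 : Real.exp (-S) < Real.exp (r.natDegree * -T) := by
      apply Real.exp_lt_exp.2
      have h12 : (r.natDegree : ℝ) * T ≤ E * T :=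
        mul_le_mul_of_nonneg_right (by exact_mod_cast hE) hT
      linarith
    linarith

lemma fact_le (n : ℕ) : ((n.factorial : ℕ) : ℝ) ≤ Real.exp ((n ^ 2 : ℕ) : ℝ) := by
  have h1 : (n : ℝ) ≤ Real.exp n := by
    have := Real.add_one_le_exp (n : ℝ)
    linarith
  calc ((n.factorial : ℕ) : ℝ) ≤ ((n ^ n : ℕ) : ℝ) := by exact_mod_cast Nat.factorial_le_pow n
    _ = (n : ℝ) ^ n := by push_cast; rfl
    _ ≤ Real.exp n ^ n := pow_le_pow_left₀ (by positivity) h1 n
    _ = Real.exp ((n ^ 2 : ℕ) : ℝ) := by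
      rw [← Real.exp_nat_mul]
      push_cast
      ring_nf

lemma nat_le_exp (n : ℕ) : (n : ℝ) ≤ Real.exp n := by
  have := Real.add_one_le_exp (n : ℝ)
  linarith

/-- The big constant: a power of `D`. -/
lemma big_const {D : ℕ} (hD : 2 ≤ D) :
    (2 * D : ℝ) * ((2 * D).factorial * ((D + 1) * Real.exp D * (D : ℝ) ^ D) ^ (2 * D)) *
      (D : ℝ) ^ (2 * D) ≤ Real.exp ((D ^ 7 : ℕ) : ℝ) := by
  have h1 : (2 * D : ℝ) ≤ Real.exp ((2 * D : ℕ) : ℝ) := by
    have := nat_le_exp (2 * D)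
    push_cast at this ⊢
    exact this
  have h2 := fact_le (2 * D)
  have h3 : ((D : ℝ) + 1) * Real.exp D * (D : ℝ) ^ D ≤ Real.exp ((D + 1 + D + D ^ 2 : ℕ) : ℝ) := by
    have h4 : ((D : ℝ) + 1) ≤ Real.exp ((D + 1 : ℕ) : ℝ) := by
      have := nat_le_exp (D + 1)
      push_cast at this ⊢
      exact this
    have h5 : (D : ℝ) ^ D ≤ Real.exp ((D ^ 2 : ℕ) : ℝ) := by
      calc (D : ℝ) ^ D ≤ Real.exp D ^ D := pow_le_pow_left₀ (by positivity) (nat_le_exp D) D
        _ = Real.exp ((D ^ 2 : ℕ) : ℝ) := by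
          rw [← Real.exp_nat_mul]
          push_cast
          ring_nf
    calc ((D : ℝ) + 1) * Real.exp D * (D : ℝ) ^ D
        ≤ Real.exp ((D + 1 : ℕ) : ℝ) * Real.exp D * Real.exp ((D ^ 2 : ℕ) : ℝ) := by gcongr
      _ = Real.exp ((D + 1 + D + D ^ 2 : ℕ) : ℝ) := by
        rw [← Real.exp_add, ← Real.exp_add]
        push_cast
        ring_nf
  have h6 : (((D : ℝ) + 1) * Real.exp D * (D : ℝ) ^ D) ^ (2 * D) ≤
      Real.exp (((2 * D) * (D + 1 + D + D ^ 2) : ℕ) : ℝ) := by
    calc _ ≤ Real.exp ((D + 1 + D + D ^ 2 : ℕ) : ℝ) ^ (2 * D) :=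
          pow_le_pow_left₀ (by positivity) h3 _
      _ = _ := by
        rw [← Real.exp_nat_mul]
        push_cast
        ring_nf
  have h7 : (D : ℝ) ^ (2 * D) ≤ Real.exp ((2 * D * D : ℕ) : ℝ) := by
    calc (D : ℝ) ^ (2 * D) ≤ Real.exp D ^ (2 * D) :=
          pow_le_pow_left₀ (by positivity) (nat_le_exp D) _
      _ = _ := by
        rw [← Real.exp_nat_mul]
        push_cast
        ring_nf
  calc _ ≤ Real.exp ((2 * D : ℕ) : ℝ) * (Real.exp (((2 * D) ^ 2 : ℕ) : ℝ) *
        Real.exp (((2 * D) * (D + 1 + D + D ^ 2) : ℕ) : ℝ)) * Real.exp ((2 * D * D : ℕ) : ℝ) := by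
        gcongr
    _ = Real.exp ((2 * D + ((2 * D) ^ 2 + (2 * D) * (D + 1 + D + D ^ 2)) + 2 * D * D : ℕ) : ℝ) := by
      rw [← Real.exp_add, ← Real.exp_add, ← Real.exp_add]
      push_cast
      ring_nf
    _ ≤ _ := by
      apply Real.exp_le_exp.2
      have e : 2 * D + ((2 * D) ^ 2 + (2 * D) * (D + 1 + D + D ^ 2)) + 2 * D * D =
          4 * D + 10 * D ^ 2 + 2 * D ^ 3 := by ring
      have : 4 * D + 10 * D ^ 2 + 2 * D ^ 3 ≤ D ^ 7 := by
        have a1 : 2 ^ 6 * D ≤ D ^ 6 * D := Nat.mul_le_mul_right _ (Nat.pow_le_pow_left hD 6)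
        have a2 : 2 ^ 5 * D ^ 2 ≤ D ^ 5 * D ^ 2 := Nat.mul_le_mul_right _ (Nat.pow_le_pow_left hD 5)
        have a3 : 2 ^ 4 * D ^ 3 ≤ D ^ 4 * D ^ 3 := Nat.mul_le_mul_right _ (Nat.pow_le_pow_left hD 4)
        have e1 : D ^ 6 * D = D ^ 7 := by ring
        have e2 : D ^ 5 * D ^ 2 = D ^ 7 := by ring
        have e3 : D ^ 4 * D ^ 3 = D ^ 7 := by ring
        rw [e1] at a1
        rw [e2] at a2
        rw [e3] at a3
        omega
      rw [e]
      exact_mod_cast this

/-- RES, first coordinate. -/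
lemma elim1 {D : ℕ} (hD : 2 ≤ D) {x y : ℂ} (hx : ‖x‖ ≤ D) (hy : ‖y‖ ≤ D) {f R : ℤ[X][X]}
    (hirr : Irreducible f) (hfR : ¬ f ∣ R) (hf : BSz f D) (hR : BSz R D) (h0 : ev x y f = 0)
    (A : ℕ) (hv : ‖ev x y R‖ ≤ Real.exp (-(D : ℝ) ^ (A + 9))) :
    ∃ ξ : ℂ, Sn.AlgB ξ (D ^ 8) ∧ ‖x - ξ‖ ≤ Real.exp (-(D : ℝ) ^ A) := by
  have hD8 : D ≤ D ^ 8 := Nat.le_self_pow (by norm_num) D
  have hD8' : (D : ℝ) ≤ ((D ^ 8 : ℕ) : ℝ) := by exact_mod_cast hD8
  by_cases hd : f.natDegree = 0
  · refine ⟨x, ⟨f.coeff 0, ?_, ?_, (hf.2.1 0).trans hD8, fun i => (hf.2.2 0 i).trans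
      (Real.exp_le_exp.2 hD8')⟩, ?_⟩
    · intro hz
      apply hirr.ne_zero
      rw [eq_C_of_natDegree_eq_zero hd, hz, C_0]
    · rw [eq_C_of_natDegree_eq_zero hd, ev_C] at h0
      exact h0
    · rw [sub_self, norm_zero]
      positivity
  · have hne := resultant_ne f R hirr hd hfR
    have hval := norm_resultant_le hD hf hR hd x y hx hy h0
    have hdeg : (resultant f R).natDegree ≤ 2 * D ^ 2 := by
      refine (natDegree_resultant_le f R _ _ D D hf.2.1 hR.2.1).trans ?_
      have h1 := Nat.mul_le_mul_right D hf.1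
      have h2 := Nat.mul_le_mul_right D hR.1
      have e : 2 * D ^ 2 = D * D + D * D := by ring
      rw [e]
      exact Nat.add_le_add h1 h2
    have hD1 : (1 : ℝ) ≤ D := by exact_mod_cast (by omega : 1 ≤ D)
    have hval2 : ‖aeval x (resultant f R)‖ ≤ Real.exp (-((D : ℝ) ^ (A + 9) - (D : ℝ) ^ 7)) := by
      refine hval.trans ?_
      calc _ = (2 * D : ℝ) * ((2 * D).factorial * ((D + 1) * Real.exp D * (D : ℝ) ^ D) ^ (2 * D)) *
            (D : ℝ) ^ (2 * D) * ‖ev x y R‖ := by ring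
        _ ≤ Real.exp ((D ^ 7 : ℕ) : ℝ) * Real.exp (-(D : ℝ) ^ (A + 9)) :=
          mul_le_mul (big_const hD) hv (norm_nonneg _) (Real.exp_pos _).le
        _ = _ := by
          rw [← Real.exp_add]
          push_cast
          ring_nf
    have hbig : ((2 * D ^ 2 : ℕ) : ℝ) * (D : ℝ) ^ A < (D : ℝ) ^ (A + 9) - (D : ℝ) ^ 7 := by
      have h1 : 2 * D ^ 2 * D ^ A + D ^ 7 < D ^ (A + 9) := by
        have a1 : 2 ^ 7 * D ^ (A + 2) ≤ D ^ 7 * D ^ (A + 2) :=
          Nat.mul_le_mul_right _ (Nat.pow_le_pow_left hD 7)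
        have e1 : D ^ 7 * D ^ (A + 2) = D ^ (A + 9) := by ring
        have a2 : 2 ^ 2 * D ^ 7 ≤ D ^ (A + 9) := by
          calc 2 ^ 2 * D ^ 7 ≤ D ^ 2 * D ^ 7 := Nat.mul_le_mul_right _ (Nat.pow_le_pow_left hD 2)
            _ = D ^ 9 := by ring
            _ ≤ D ^ (A + 9) := Nat.pow_le_pow_right (by omega) (by omega)
        have e2 : 2 * D ^ 2 * D ^ A = 2 * D ^ (A + 2) := by ring
        have a3 : 0 < D ^ 7 := by positivity
        rw [e1] at a1
        rw [e2]
        omega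
      have h2 : ((2 * D ^ 2 * D ^ A + D ^ 7 : ℕ) : ℝ) < ((D ^ (A + 9) : ℕ) : ℝ) := by
        exact_mod_cast h1
      push_cast at h2 ⊢
      linarith
    obtain ⟨ξ, hξ, hclose⟩ := close_root hne hdeg (T := (D : ℝ) ^ A)
      (S := (D : ℝ) ^ (A + 9) - (D : ℝ) ^ 7) (by positivity)
      (lt_of_le_of_lt (by positivity) hbig) hbig hval2
    refine ⟨ξ, ⟨_, hne, hξ, hdeg.trans ?_, ?_⟩, hclose⟩
    · calc 2 * D ^ 2 ≤ D ^ 6 * D ^ 2 := Nat.mul_le_mul_right _ (by
            calc 2 ≤ D := hD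
              _ ≤ D ^ 6 := Nat.le_self_pow (by norm_num) D)
        _ = D ^ 8 := by ring
    · intro i
      refine (abs_coeff_le _ i).trans ?_
      have hl1 : l1 (resultant f R) ≤ ((f.natDegree + R.natDegree).factorial : ℝ) *
          ((D + 1) * Real.exp D) ^ (f.natDegree + R.natDegree) := by
        rw [resultant]
        apply l1_det_le
        intro i j
        have h2 : 0 ≤ ((D : ℝ) + 1) * Real.exp D := by positivity
        refine Fin.addCases (fun j₁ => ?_) (fun j₁ => ?_) j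
        · simp only [sylvester, Matrix.of_apply, Fin.addCases_left]
          split_ifs
          · exact l1_le_of (hR.2.1 _) (hR.2.2 _)
          · rw [l1_zero]; exact h2
        · simp only [sylvester, Matrix.of_apply, Fin.addCases_right]
          split_ifs
          · exact l1_le_of (hf.2.1 _) (hf.2.2 _)
          · rw [l1_zero]; exact h2
      refine hl1.trans ?_
      have hn : f.natDegree + R.natDegree ≤ 2 * D := by have := hf.1; have := hR.1; omega
      have hb1 : (1 : ℝ) ≤ (D + 1) * Real.exp D := by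
        have h2 : (1 : ℝ) ≤ Real.exp D := Real.one_le_exp (by positivity)
        calc (1 : ℝ) = 1 * 1 := by ring
          _ ≤ _ := by gcongr; linarith
      have hfac : (((f.natDegree + R.natDegree).factorial : ℕ) : ℝ) ≤ ((2 * D).factorial : ℕ) := by
        exact_mod_cast Nat.factorial_le hn
      have hDD : (1 : ℝ) ≤ (D : ℝ) ^ D := one_le_pow₀ hD1
      have hD2D : (1 : ℝ) ≤ (D : ℝ) ^ (2 * D) := one_le_pow₀ hD1
      have h2D : (1 : ℝ) ≤ 2 * D := by linarith
      calc (((f.natDegree + R.natDegree).factorial : ℕ) : ℝ) *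
            ((D + 1) * Real.exp D) ^ (f.natDegree + R.natDegree)
          ≤ ((2 * D).factorial : ℕ) * ((D + 1) * Real.exp D) ^ (2 * D) := by
            gcongr
        _ ≤ ((2 * D).factorial : ℕ) * ((D + 1) * Real.exp D * (D : ℝ) ^ D) ^ (2 * D) := by
            refine mul_le_mul_of_nonneg_left (pow_le_pow_left₀ (by positivity) ?_ _) (by positivity)
            exact le_mul_of_one_le_right (by positivity) hDD
        _ ≤ (2 * D : ℝ) * (((2 * D).factorial : ℕ) * ((D + 1) * Real.exp D * (D : ℝ) ^ D) ^ (2 * D)) *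
              (D : ℝ) ^ (2 * D) := by
            refine le_trans ?_ (le_mul_of_one_le_right (by positivity) hD2D)
            exact le_mul_of_one_le_left (by positivity) h2D
        _ ≤ Real.exp ((D ^ 7 : ℕ) : ℝ) := big_const hD
        _ ≤ Real.exp ((D ^ 8 : ℕ) : ℝ) := by
            apply Real.exp_le_exp.2
            exact_mod_cast Nat.pow_le_pow_right (by omega) (by norm_num)

/-! ### from `MvPolynomial (Fin 2) ℤ` -/

/-- `X 0 ↦ C X`, `X 1 ↦ X`. -/
noncomputable def toB : MvPolynomial (Fin 2) ℤ →+* ℤ[X][X] :=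
  MvPolynomial.eval₂Hom ((C : ℤ[X] →+* ℤ[X][X]).comp (C : ℤ →+* ℤ[X])) ![C X, X]

lemma ev_toB (x y : ℂ) (P : MvPolynomial (Fin 2) ℤ) :
    ev x y (toB P) = MvPolynomial.aeval ![x, y] P := by
  have h : (ev x y).comp toB = ((MvPolynomial.aeval ![x, y] : MvPolynomial (Fin 2) ℤ →ₐ[ℤ] ℂ) :
      MvPolynomial (Fin 2) ℤ →+* ℂ) := by
    apply MvPolynomial.ringHom_ext
    · intro r
      simp [toB, ev]
    · intro i
      fin_cases i <;> simp [toB, ev]
  exact congrArg (fun g => g P) h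

/-- The inverse. -/
noncomputable def ofB : ℤ[X][X] →+* MvPolynomial (Fin 2) ℤ :=
  Polynomial.eval₂RingHom (Polynomial.eval₂RingHom MvPolynomial.C (MvPolynomial.X 0))
    (MvPolynomial.X 1)

lemma ofB_toB (p : MvPolynomial (Fin 2) ℤ) : ofB (toB p) = p := by
  have h : ofB.comp toB = RingHom.id _ := by
    apply MvPolynomial.ringHom_ext
    · intro r
      simp [ofB, toB]
    · intro i
      fin_cases i <;> simp [ofB, toB]
  exact congrArg (fun f => f p) h

lemma toB_ne {p : MvPolynomial (Fin 2) ℤ} (h : p ≠ 0) : toB p ≠ 0 := by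
  intro h0
  apply h
  rw [← ofB_toB p, h0, map_zero]

lemma toB_monomial (m : Fin 2 →₀ ℕ) (a : ℤ) :
    toB (MvPolynomial.monomial m a) = C (C a * X ^ m 0) * X ^ m 1 := by
  simp only [toB, MvPolynomial.coe_eval₂Hom, MvPolynomial.eval₂_monomial, RingHom.comp_apply]
  rw [Finsupp.prod_fintype _ _ (by simp)]
  simp [Fin.prod_univ_two, mul_assoc]

lemma toB_eq (P : MvPolynomial (Fin 2) ℤ) :
    toB P = ∑ m ∈ P.support, C (C (P.coeff m) * X ^ m 0) * X ^ m 1 := by
  conv_lhs => rw [P.as_sum, map_sum]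
  exact Finset.sum_congr rfl fun m _ => toB_monomial m _

lemma deg_le' {P : MvPolynomial (Fin 2) ℤ} {m : Fin 2 →₀ ℕ} (hm : m ∈ P.support) (i : Fin 2) :
    m i ≤ P.totalDegree := by
  have h := MvPolynomial.le_totalDegree hm
  have h2 : m i ≤ m.sum fun _ e => e := by
    by_cases hi : i ∈ m.support
    · exact Finset.single_le_sum (f := fun j => m j) (fun _ _ => Nat.zero_le _) hi
    · rw [Finsupp.notMem_support_iff.mp hi]
      exact Nat.zero_le _
  exact h2.trans h

lemma Sz.toB {P : MvPolynomial (Fin 2) ℤ} {D : ℕ} (h : Sz P D) : BSz (toB P) D := by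
  obtain ⟨h1, h2⟩ := h
  refine ⟨?_, ?_, ?_⟩
  · rw [toB_eq]
    apply Polynomial.natDegree_sum_le_of_forall_le
    intro m hm
    exact ((natDegree_C_mul_X_pow_le _ _).trans (deg_le' hm 1)).trans h1
  · intro k
    rw [toB_eq, Polynomial.finsetSum_coeff]
    apply Polynomial.natDegree_sum_le_of_forall_le
    intro m hm
    rw [coeff_C_mul_X_pow]
    split_ifs
    · exact ((natDegree_C_mul_X_pow_le _ _).trans (deg_le' hm 0)).trans h1
    · simp
  · intro k i
    refine le_trans ?_ h2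
    rw [toB_eq, Polynomial.finsetSum_coeff, Polynomial.finsetSum_coeff, Int.cast_sum, L3.cSum]
    push_cast
    refine (Finset.abs_sum_le_sum_abs _ _).trans (Finset.sum_le_sum fun m _ => ?_)
    rw [coeff_C_mul_X_pow]
    split_ifs
    · rw [coeff_C_mul_X_pow]
      split_ifs
      · simp
      · simp
    · simp

/-- RES. -/
theorem specRes : SpecRes := by
  classical
  refine ⟨40, fun A => ⟨5 * (A + 9), ?_⟩⟩
  intro D hD x y hx hy f R hf0 hf hR h0 hR0 hv
  have hD5 : 2 ≤ D ^ 5 := hD.trans (Nat.le_self_pow (by norm_num) D)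
  have hDD5 : D ≤ D ^ 5 := Nat.le_self_pow (by norm_num) D
  have hDD5' : (D : ℝ) ≤ ((D ^ 5 : ℕ) : ℝ) := by exact_mod_cast hDD5
  -- the irreducible factor
  obtain ⟨g, hgi, hgf, hg0⟩ : ∃ g : ℤ[X][X], Irreducible g ∧ g ∣ toB f ∧ ev x y g = 0 := by
    obtain ⟨s, hs, hsF⟩ := WfDvdMonoid.exists_factors (toB f) (toB_ne hf0)
    obtain ⟨u, hu⟩ := hsF
    have h1 : ev x y (toB f) = 0 := by rw [ev_toB, h0]
    rw [← hu, map_mul] at h1
    have h2 : ev x y s.prod = 0 := by
      rcases mul_eq_zero.1 h1 with h | h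
      · exact h
      · exfalso
        have h3 := norm_ev_unit x y u.isUnit
        rw [h, norm_zero] at h3
        exact zero_ne_one h3
    rw [map_multiset_prod, Multiset.prod_eq_zero_iff] at h2
    obtain ⟨g, hg, hg2⟩ := Multiset.mem_map.1 h2
    refine ⟨g, hs g hg, ?_, hg2⟩
    rw [← hu]
    exact (Multiset.dvd_prod hg).mul_right _
  have hgS : BSz g (D ^ 5) := BSz.of_dvd hD (toB_ne hf0) hf.toB hgf
  have hRS : BSz (toB R) (D ^ 5) := hR.toB.mono hDD5
  have hnd : ¬ g ∣ toB R := by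
    rintro ⟨q, hq⟩
    apply hR0
    rw [← ev_toB, hq, map_mul, hg0, zero_mul]
  have hx5 : ‖x‖ ≤ ((D ^ 5 : ℕ) : ℝ) := hx.trans hDD5'
  have hy5 : ‖y‖ ≤ ((D ^ 5 : ℕ) : ℝ) := hy.trans hDD5'
  have hv5 : ‖ev x y (toB R)‖ ≤ Real.exp (-((D ^ 5 : ℕ) : ℝ) ^ (A + 9)) := by
    rw [ev_toB]
    refine hv.trans (le_of_eq ?_)
    push_cast
    rw [← pow_mul]
  have hfin : Real.exp (-((D ^ 5 : ℕ) : ℝ) ^ A) ≤ Real.exp (-(D : ℝ) ^ A) := by
    apply Real.exp_le_exp.2
    have : (D : ℝ) ^ A ≤ ((D ^ 5 : ℕ) : ℝ) ^ A := pow_le_pow_left₀ (by positivity) hDD5' A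
    linarith
  have h40 : (D ^ 5) ^ 8 = D ^ 40 := by rw [← pow_mul]
  obtain ⟨ξ, hξ, hξ2⟩ := elim1 hD5 hx5 hy5 hgi hnd hgS hRS hg0 A hv5
  have hsw : Irreducible (Bivariate.swap g) :=
    (MulEquiv.irreducible_iff ((Bivariate.swap : ℤ[X][X] ≃ₐ[ℤ] ℤ[X][X]) : ℤ[X][X] ≃* ℤ[X][X])).mpr hgi
  have hnd2 : ¬ Bivariate.swap g ∣ Bivariate.swap (toB R) := by
    intro h
    apply hnd
    have h2 := swap_dvd h
    rwa [Bivariate.swap_swap_apply, Bivariate.swap_swap_apply] at h2
  obtain ⟨η, hη, hη2⟩ := elim1 hD5 hy5 hx5 hsw hnd2 hgS.swap hRS.swap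
    (by rw [ev_swap]; exact hg0) A (by rw [ev_swap]; exact hv5)
  rw [h40] at hξ hη
  exact ⟨ξ, η, hξ, hη, hξ2.trans hfin, hη2.trans hfin⟩

end Pool.Agent.Lib.MP_47914d_nt.Hp
end
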