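import Mathlib
import Pool.Agent.Lib.MP_47914d_nt.Hp.Low
import Pool.Agent.Lib.MP_47914d_nt.Hp.Pts
import Pool.Agent.Lib.MP_47914d_nt.Hp.Res

section
/-!
# A zero near a point of very small value

Pure complex analysis: a holomorphic function on a disc which is bounded, has one Taylor
coefficient which is not too small, and is very small at the centre, has a zero very close to the
centre.
-/
namespace Pool.Agent.Lib.MP_47914d_nt.Hp

open Metric

/-- A holomorphic function without zeros on a disc is an exponential. -/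
theorem exists_log_ball {F : ℂ → ℂ} {a : ℂ} {s : ℝ} (hs : 0 < s)
    (hF : DifferentiableOn ℂ F (ball a s)) (h0 : ∀ w ∈ ball a s, F w ≠ 0) :
    ∃ g : ℂ → ℂ, DifferentiableOn ℂ g (ball a s) ∧ ∀ w ∈ ball a s, F w = Complex.exp (g w) := by
  have hd : DifferentiableOn ℂ (fun w => deriv F w / F w) (ball a s) :=
    (hF.deriv isOpen_ball).fun_div hF h0
  obtain ⟨g, hg0, hg⟩ := hd.isExactOn_ball.with_val_at a (Complex.log (F a))
  refine ⟨g, fun z hz => (hg z hz).differentiableAt.differentiableWithinAt, ?_⟩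
  have hk : ∀ w ∈ ball a s, HasDerivAt (fun w => F w * Complex.exp (-g w)) 0 w := by
    intro w hw
    have h1 : HasDerivAt F (deriv F w) w :=
      (hF.differentiableAt (isOpen_ball.mem_nhds hw)).hasDerivAt
    have h2 := (hg w hw).fun_neg.cexp
    have h3 := h1.fun_mul h2
    have h4 := h0 w hw
    have h5 : deriv F w * Complex.exp (-g w) +
        F w * (Complex.exp (-g w) * -(deriv F w / F w)) = 0 := by
      have h6 : F w * (deriv F w / F w) = deriv F w := by field_simp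
      linear_combination -Complex.exp (-g w) * h6
    rwa [h5] at h3
  intro w hw
  have hc := isOpen_ball.is_const_of_deriv_eq_zero (convex_ball a s).isPreconnected
    (fun z hz => (hk z hz).differentiableAt.differentiableWithinAt)
    (fun z hz => (hk z hz).deriv) hw (mem_ball_self hs)
  have h5 : F a * Complex.exp (-g a) = 1 := by
    rw [hg0, Complex.exp_neg, Complex.exp_log (h0 a (mem_ball_self hs))]
    exact mul_inv_cancel₀ (h0 a (mem_ball_self hs))
  rw [h5] at hc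
  have h6 := Complex.exp_ne_zero (g w)
  rw [Complex.exp_neg] at hc
  field_simp at hc
  exact hc

/-- A Harnack inequality for holomorphic functions without zeros. -/
theorem norm_le_of_ne_zero {F : ℂ → ℂ} {a : ℂ} {s m : ℝ} (hs : 0 < s)
    (hF : DifferentiableOn ℂ F (ball a s)) (h0 : ∀ w ∈ ball a s, F w ≠ 0)
    (hb : ∀ w ∈ ball a s, ‖F w‖ ≤ Real.exp m) (hK : Real.log ‖F a‖ < m) {w : ℂ}
    (hw : dist w a ≤ s / 4) :
    ‖F w‖ ≤ Real.exp ((2 * m + Real.log ‖F a‖) / 3) := by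
  obtain ⟨g, hg, hFg⟩ := exists_log_ball hs hF h0
  have ha : a ∈ ball a s := mem_ball_self hs
  have hre : ∀ z ∈ ball a s, (g z).re = Real.log ‖F z‖ := by
    intro z hz
    rw [hFg z hz, Complex.norm_exp, Real.log_exp]
  have hKp : 0 < m - Real.log ‖F a‖ := by linarith
  let h : ℂ → ℂ := fun z => g (a + z) - g a
  have hmem : ∀ z ∈ ball (0 : ℂ) s, a + z ∈ ball a s := by
    intro z hz
    rw [mem_ball, dist_eq_norm] at hz ⊢
    simpa using hz
  have hh : DifferentiableOn ℂ h (ball 0 s) := by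
    intro z hz
    have h1 : DifferentiableAt ℂ g (a + z) :=
      hg.differentiableAt (isOpen_ball.mem_nhds (hmem z hz))
    have h2 : DifferentiableAt ℂ (fun z => g (a + z)) z :=
      h1.comp z (by fun_prop : DifferentiableAt ℂ (fun z : ℂ => a + z) z)
    exact (h2.sub_const _).differentiableWithinAt
  have hmaps : Set.MapsTo h (ball 0 s) {z | z.re ≤ m - Real.log ‖F a‖} := by
    intro z hz
    have h1 := hmem z hz
    show (h z).re ≤ _
    simp only [h, Complex.sub_re]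
    rw [hre _ h1, hre _ ha]
    have h2 : Real.log ‖F (a + z)‖ ≤ m := by
      rw [Real.log_le_iff_le_exp (norm_pos_iff.2 (h0 _ h1))]
      exact hb _ h1
    linarith
  have hwz : w - a ∈ ball (0 : ℂ) s := by
    rw [mem_ball, dist_zero_right, ← dist_eq_norm]
    linarith
  have hbc := Complex.borelCaratheodory_zero hKp hh hmaps hs hwz (by simp [h])
  have hwb : w ∈ ball a s := by
    rw [mem_ball]
    linarith
  have h3 : h (w - a) = g w - g a := by simp [h]
  rw [h3] at hbc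
  have hn : ‖w - a‖ ≤ s / 4 := by rwa [← dist_eq_norm]
  have h4 : 2 * (m - Real.log ‖F a‖) * ‖w - a‖ / (s - ‖w - a‖) ≤
      2 * (m - Real.log ‖F a‖) / 3 := by
    rw [div_le_div_iff₀ (by linarith) (by norm_num)]
    nlinarith [norm_nonneg (w - a)]
  have h5 : (g w).re - (g a).re ≤ ‖g w - g a‖ := by
    rw [← Complex.sub_re]
    exact Complex.re_le_norm _
  rw [hre w hwb, hre a ha] at h5
  have h6 : Real.log ‖F w‖ ≤ (2 * m + Real.log ‖F a‖) / 3 := by linarith
  rwa [← Real.log_le_iff_le_exp (norm_pos_iff.2 (h0 w hwb))]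

/-- **A zero near a very small value.** -/
theorem zer (c A : ℕ) (r : ℝ) (hr : 0 < r) : ∃ B : ℕ, ∀ D : ℝ, 2 ≤ D → ∀ (a : ℂ) (F : ℂ → ℂ),
    DifferentiableOn ℂ F (ball a r) → (∀ w ∈ ball a r, ‖F w‖ ≤ Real.exp (D ^ c)) →
    ∀ t : ℕ, (t : ℝ) ≤ D ^ c →
    Real.exp (-(D ^ c)) ≤ ‖iteratedDeriv t F a / (t.factorial : ℂ)‖ →
    ‖F a‖ ≤ Real.exp (-(D ^ B)) →
    ∃ w ∈ ball a r, dist w a ≤ Real.exp (-(D ^ A)) ∧ F w = 0 := by
  obtain ⟨N, hN⟩ := exists_nat_ge (Real.log (4 * (1 + 2 / r)))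
  refine ⟨c + A + N + 4, fun D hD a F hF hb t ht hcoef hsmall => ?_⟩
  by_contra hcon
  push Not at hcon
  have hD1 : (1 : ℝ) ≤ D := by linarith
  have hD0 : (0 : ℝ) < D := by linarith
  -- the radius
  obtain ⟨s, hs0, hsr, hsA, hslog⟩ : ∃ s : ℝ, 0 < s ∧ s < r ∧ s ≤ Real.exp (-(D ^ A)) ∧
      Real.log (4 / s) ≤ D ^ A + N := by
    refine ⟨Real.exp (-(D ^ A)) / (1 + 2 / r), by positivity, ?_, ?_, ?_⟩
    · rw [div_lt_iff₀ (by positivity)]
      have h1 : Real.exp (-(D ^ A)) ≤ 1 := Real.exp_le_one_iff.2 (by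
        have : 0 < D ^ A := by positivity
        linarith)
      have h2 : r * (1 + 2 / r) = r + 2 := by field_simp
      rw [h2]
      linarith
    · rw [div_le_iff₀ (by positivity)]
      have h1 : 0 < Real.exp (-(D ^ A)) := Real.exp_pos _
      have h2 : 0 < 2 / r := by positivity
      nlinarith
    · have h1 : 4 / (Real.exp (-(D ^ A)) / (1 + 2 / r)) =
          (4 * (1 + 2 / r)) * Real.exp (D ^ A) := by
        rw [Real.exp_neg]
        field_simp
      rw [h1, Real.log_mul (by positivity) (Real.exp_ne_zero _), Real.log_exp]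
      linarith
  have hsub : ball a s ⊆ ball a r := ball_subset_ball hsr.le
  have h0 : ∀ w ∈ ball a s, F w ≠ 0 := by
    intro w hw
    exact hcon w (hsub hw) ((le_of_lt hw).trans hsA)
  have hFs : DifferentiableOn ℂ F (ball a s) := hF.mono hsub
  have hFa : 0 < ‖F a‖ := norm_pos_iff.2 (h0 a (mem_ball_self hs0))
  have hlog : Real.log ‖F a‖ ≤ -(D ^ (c + A + N + 4)) := by
    rwa [Real.log_le_iff_le_exp hFa]
  have hpos : 0 < D ^ (c + A + N + 4) := by positivity
  have hposc : 0 < D ^ c := by positivity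
  have hK : Real.log ‖F a‖ < D ^ c := by linarith
  have hcauchy : ‖iteratedDeriv t F a‖ ≤ t.factorial *
      Real.exp ((2 * D ^ c + Real.log ‖F a‖) / 3) / (s / 4) ^ t := by
    refine Complex.norm_iteratedDeriv_le_of_forall_mem_sphere_norm_le t (by positivity) ?_ ?_
    · refine DifferentiableOn.diffContOnCl ?_
      refine hFs.mono ?_
      refine closure_ball_subset_closedBall.trans ?_
      exact closedBall_subset_ball (by linarith)
    · intro z hz
      exact norm_le_of_ne_zero hs0 hFs h0 (fun w hw => hb w (hsub hw)) hK (le_of_eq hz)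
  have h1 : ‖iteratedDeriv t F a / (t.factorial : ℂ)‖ ≤
      Real.exp ((2 * D ^ c + Real.log ‖F a‖) / 3) / (s / 4) ^ t := by
    rw [norm_div, Complex.norm_natCast, div_le_iff₀ (by positivity)]
    calc ‖iteratedDeriv t F a‖ ≤ _ := hcauchy
      _ = _ := by ring
  have h2 : ((s / 4) ^ t)⁻¹ = Real.exp (t * Real.log (4 / s)) := by
    rw [mul_comm, Real.exp_mul, Real.exp_log (by positivity), Real.rpow_natCast, ← inv_pow,
      inv_div]
  have h1' : Real.exp ((2 * D ^ c + Real.log ‖F a‖) / 3) / (s / 4) ^ t =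
      Real.exp ((2 * D ^ c + Real.log ‖F a‖) / 3 + t * Real.log (4 / s)) := by
    rw [div_eq_mul_inv, h2, ← Real.exp_add]
  rw [h1'] at h1
  have h3 := Real.exp_le_exp.1 (hcoef.trans h1)
  have h4 : (t : ℝ) * Real.log (4 / s) ≤ D ^ c * (D ^ A + N) := by
    have h5 : 0 ≤ Real.log (4 / s) := by
      apply Real.log_nonneg
      rw [le_div_iff₀ hs0]
      have : Real.exp (-(D ^ A)) ≤ 1 := Real.exp_le_one_iff.2 (by
        have : 0 < D ^ A := by positivity
        linarith)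
      linarith
    calc (t : ℝ) * Real.log (4 / s) ≤ D ^ c * Real.log (4 / s) :=
          mul_le_mul_of_nonneg_right ht h5
      _ ≤ D ^ c * (D ^ A + N) := mul_le_mul_of_nonneg_left hslog hposc.le
  have h6 : D ^ (c + A + N + 4) ≤ 5 * D ^ c + 3 * (D ^ c * (D ^ A + N)) := by linarith
  have hNp : (N : ℝ) ≤ D ^ N := by
    have e1 : (N : ℝ) ≤ 2 ^ N := by exact_mod_cast (Nat.lt_two_pow_self (n := N)).le
    exact e1.trans (pow_le_pow_left₀ (by norm_num) hD N)
  have hA1 : 1 ≤ D ^ A := one_le_pow₀ hD1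
  have hN1 : 1 ≤ D ^ N := one_le_pow₀ hD1
  have h7 : D ^ A + N ≤ 2 * (D ^ A * D ^ N) := by nlinarith
  have h8 : D ^ c ≤ D ^ c * (D ^ A * D ^ N) := by
    have : 1 ≤ D ^ A * D ^ N := by nlinarith
    nlinarith
  have h9 : D ^ c * (D ^ A + N) ≤ 2 * (D ^ c * (D ^ A * D ^ N)) := by
    calc D ^ c * (D ^ A + N) ≤ D ^ c * (2 * (D ^ A * D ^ N)) :=
          mul_le_mul_of_nonneg_left h7 hposc.le
      _ = _ := by ring
  have h10 : D ^ (c + A + N + 4) = D ^ 4 * (D ^ c * (D ^ A * D ^ N)) := by ring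
  have h11 : (16 : ℝ) ≤ D ^ 4 := by
    calc (16 : ℝ) = 2 ^ 4 := by norm_num
      _ ≤ D ^ 4 := pow_le_pow_left₀ (by norm_num) hD 4
  have h12 : 0 < D ^ c * (D ^ A * D ^ N) := by positivity
  rw [h10] at h6
  nlinarith

end Pool.Agent.Lib.MP_47914d_nt.Hp
end

section
/-!
# ZJ: a polynomial in `t`, `j(t)` that is very small at `a` has a zero very close to `a`
-/
set_option autoImplicit false

namespace Pool.Agent.Lib.MP_47914d_nt.Hp

open Metric Complex Finset

theorem ca_zero (a : ℂ) : ca a 0 = a := by simp [ca]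

theorem ca_sub {a w : ℂ} (hw : ‖w‖ ≤ 1 / 2) : ‖ca a w - a‖ ≤ 4 * ‖a‖ * ‖w‖ := by
  have h0 := one_sub_ne (show ‖w‖ < 1 by linarith)
  have h1 : ca a w - a = w * (a - (starRingEnd ℂ) a) / (1 - w) := by
    rw [ca, eq_div_iff h0, sub_mul, div_mul_cancel₀ _ h0]
    ring
  rw [h1, norm_div, norm_mul]
  have h2 : ‖a - (starRingEnd ℂ) a‖ ≤ 2 * ‖a‖ := by
    refine (norm_sub_le _ _).trans ?_
    rw [RCLike.norm_conj]
    linarith
  have h3 : 1 / 2 ≤ ‖1 - w‖ := by
    have := norm_sub_norm_le (1 : ℂ) w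
    rw [norm_one] at this
    linarith
  rw [div_le_iff₀ (by linarith)]
  have h4 : ‖w‖ * ‖a - (starRingEnd ℂ) a‖ ≤ ‖w‖ * (2 * ‖a‖) :=
    mul_le_mul_of_nonneg_left h2 (norm_nonneg _)
  have h5 : 0 ≤ 4 * ‖a‖ * ‖w‖ := by positivity
  nlinarith

/-- **ZJ.** -/
theorem specZj : SpecZj := by
  intro a ha A
  obtain ⟨c, hc⟩ := specLow a ha
  obtain ⟨m, hm⟩ := exists_nat_ge (4 * ‖a‖)
  obtain ⟨B, hB⟩ := zer c (m + A) (1 / 2) (by norm_num)
  refine ⟨B, fun D hD f hf0 hf hsmall => ?_⟩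
  have hDr : (2 : ℝ) ≤ D := by exact_mod_cast hD
  obtain ⟨h1, k, hk, h2⟩ := hc D hD f hf0 hf
  have hd : DifferentiableOn ℂ (fun w => vj f (ca a w)) (ball 0 (1 / 2)) :=
    (G_differentiableOn f ha).mono (ball_subset_ball (by norm_num))
  obtain ⟨w, hw, hwd, hw0⟩ := hB D hDr 0 (fun w => vj f (ca a w)) hd
    (fun w hw => h1 w (by rw [mem_ball_zero_iff] at hw; exact hw.le)) k (by exact_mod_cast hk) h2
    (by
      show ‖vj f (ca a 0)‖ ≤ _
      rw [ca_zero]
      exact hsmall)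
  rw [mem_ball_zero_iff] at hw
  rw [dist_zero_right] at hwd
  refine ⟨ca a w, ca_im_pos ha (by linarith), hw0, ?_⟩
  refine (ca_sub hw.le).trans ?_
  have h3 : 4 * ‖a‖ ≤ Real.exp m := by
    have := Real.add_one_le_exp (m : ℝ)
    linarith
  calc 4 * ‖a‖ * ‖w‖ ≤ Real.exp m * Real.exp (-((D : ℝ) ^ (m + A))) := by gcongr
    _ = Real.exp (m + -((D : ℝ) ^ (m + A))) := by rw [← Real.exp_add]
    _ ≤ Real.exp (-(D : ℝ) ^ A) := by
      apply Real.exp_le_exp.2
      have h4 : (m : ℝ) + 1 ≤ (D : ℝ) ^ m := by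
        have e1 : ((m + 1 : ℕ) : ℝ) ≤ (2 : ℝ) ^ m := by
          exact_mod_cast Nat.succ_le_of_lt (Nat.lt_two_pow_self (n := m))
        push_cast at e1
        exact e1.trans (pow_le_pow_left₀ (by norm_num) hDr _)
      have h5 : (1 : ℝ) ≤ (D : ℝ) ^ A := one_le_pow₀ (by linarith)
      rw [pow_add]
      have h6 : (0 : ℝ) ≤ m := Nat.cast_nonneg m
      nlinarith

end Pool.Agent.Lib.MP_47914d_nt.Hp
end

section
/-!
MP_47914d_nt, points near the Hecke orbit of an arbitrary point: the modules put together.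
-/
set_option autoImplicit false

open Complex

namespace Pool.Agent.Lib.MP_47914d_nt.Hp

theorem main_all {n : ℕ} (hn : 0 < n) (z : Fin (n + 1) → ℂ) (him : ∀ i, 0 < (z i).im)
    (hcm : ∀ i, ¬ ∃ a b c : ℤ, (a ≠ 0 ∨ b ≠ 0 ∨ c ≠ 0) ∧
      (a : ℂ) * z i ^ 2 + (b : ℂ) * z i + (c : ℂ) = 0)
    (hne : ∀ i k, i ≠ k → ¬ ∃ a b c d : ℚ, 0 < a * d - b * c ∧
      z k * ((c : ℂ) * z i + (d : ℂ)) = (a : ℂ) * z i + (b : ℂ))
    (happ : ∀ A H₀ : ℕ, ∃ H : ℕ, H₀ ≤ H ∧ ∃ κ : Fin n → ℂ, ∀ i, Hk.SpecialPt (z 0) (κ i) H ∧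
      ‖κ i - z i.succ‖ < Real.exp (-(H : ℝ) ^ A)) :
    ∃ w : Fin (n + 2) → Fin (n + 1) ⊕ Fin (n + 1),
      AlgebraicIndependent ℚ (fun m => ptf z (w m)) :=
  As.main specNrm specPts (specKey specZj specRes) hn z him hcm hne happ

end Pool.Agent.Lib.MP_47914d_nt.Hp
end
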